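import Pool.Agent.R785.LD.Base

/-!
Project LD: assembly of the parts.
-/

open Set Filter Topology
open scoped NNReal

namespace R785.LD

section

theorem assembleH (h1 : StmtH1) (h2 : StmtH2) (h3 : StmtH3) : StmtH := by
  obtain ⟨H, i1, i2, i3, θ, w, hw⟩ := h1
  obtain ⟨W, hW1, hW2, hW3, hW4, hW5⟩ := h2 H θ w hw
  refine ⟨H, i1, i2, ⟨⟨θ, w, W, hW1, hW2, hW3, hW4, hW5, ?_⟩⟩⟩
  intro M P
  obtain ⟨ρ, hρ, j, hj⟩ := h3 M P
  refine ⟨ρ, hρ, j, fun x x' => ?_⟩
  have h := hw (j x) (j x')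
  rw [zpow_natCast, zpow_natCast] at h
  rw [h]
  exact hj x x'

variable {H : Type} [NormedAddCommGroup H] [InnerProductSpace ℝ H]
variable {X : Type} [MetricSpace X]

theorem ray_dist_le' {x0 : X} (α β : Ray x0) (r : ℝ≥0) : dist (α.1 r) (β.1 r) ≤ 2 * r := by
  have h1 : dist (α.1 r) x0 = r := by
    have := α.2.1.dist_eq r 0
    rw [α.2.2] at this
    rw [this, NNReal.dist_eq]
    simp
  have h2 : dist x0 (β.1 r) = r := by
    have := β.2.1.dist_eq 0 r
    rw [β.2.2] at this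
    rw [this, NNReal.dist_eq]
    simp
  have := dist_triangle (α.1 r) x0 (β.1 r)
  rw [h1, h2] at this
  linarith

theorem assembleR (D : HData H) (T : TreeSpace D.piece X) (h1 : StmtR1 D T) (h2 : StmtR2 D)
    (h3 : StmtR3) : ∃ α : ℕ → Ray (T.emb [] D.c), ∀ j j' : ℕ,
      Tendsto (fun N : ℕ => (N : ℝ) * dbar (α (N + j)) (α (N + j'))) atTop
        (𝓝 ‖(D.θ ^ j) D.w - (D.θ ^ j') D.w‖) := by
  obtain ⟨α, hα⟩ := h1
  refine ⟨α, fun j j' => ?_⟩
  refine h3 (fun N r => dist ((α (N + j)).1 r.toNNReal) ((α (N + j')).1 r.toNNReal))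
    (fun N => D.e (N + j) (N + j')) _ ?_ ?_ ?_ (h2 j j')
  · intro N
    have c1 := (α (N + j)).2.1.continuous
    have c2 := (α (N + j')).2.1.continuous
    exact (c1.comp continuous_real_toNNReal).dist (c2.comp continuous_real_toNNReal)
  · intro N r hr
    refine ⟨dist_nonneg, ?_⟩
    have := ray_dist_le' (α (N + j)) (α (N + j')) r.toNNReal
    rwa [Real.coe_toNNReal r hr] at this
  · intro N r hr hrN
    rcases Nat.eq_zero_or_pos N with hN | hN
    · subst hN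
      have hr0 : r = 0 := le_antisymm (by simpa using hrN) hr
      subst hr0
      have h1 := ray_dist_le' (α (0 + j)) (α (0 + j')) (0 : ℝ).toNNReal
      have h2 : 2 * (((0 : ℝ).toNNReal : ℝ≥0) : ℝ) = 0 := by simp
      have h0 := le_antisymm (h1.trans h2.le) dist_nonneg
      show dist _ _ = 0 * _
      rw [zero_mul]
      exact h0
    · have h := hα (N + j) (N + j') (by omega) (by omega) r.toNNReal
        (by rw [Real.coe_toNNReal r hr]; push_cast; linarith [(Nat.cast_nonneg j : (0:ℝ) ≤ j)])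
        (by rw [Real.coe_toNNReal r hr]; push_cast; linarith [(Nat.cast_nonneg j' : (0:ℝ) ≤ j')])
      rw [Real.coe_toNNReal r hr] at h
      exact h

theorem assembleC (D : HData H) (Z : Type) [MetricSpace Z] (α : ℕ → Z)
    (hα : ∀ j j' : ℕ, Tendsto (fun N : ℕ => (N : ℝ) * dist (α (N + j)) (α (N + j'))) atTop
        (𝓝 ‖(D.θ ^ j) D.w - (D.θ ^ j') D.w‖)) (M P : ℕ) (ε : ℝ) (hε : 0 < ε) :
    ∃ s > (0 : ℝ), s < ε ∧
      ∃ f : (Fin M → Fin P) → Z, ∀ x x', s ^ 2 * (hammingDist x x' : ℝ) ≤ dist (f x) (f x') ^ 2 ∧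
        dist (f x) (f x') ^ 2 ≤ 16 * s ^ 2 * (hammingDist x x' : ℝ) := by
  obtain ⟨ρ, hρ, j, hj⟩ := D.net M P
  have key : ∀ x x' : Fin M → Fin P, ∀ᶠ N : ℕ in atTop,
      (49 / 64) * ρ ^ 2 * (hammingDist x x' : ℝ) ≤
        ((N : ℝ) * dist (α (N + j x)) (α (N + j x'))) ^ 2 ∧
      ((N : ℝ) * dist (α (N + j x)) (α (N + j x'))) ^ 2 ≤
        (49 / 4) * ρ ^ 2 * (hammingDist x x' : ℝ) := by
    intro x x'
    by_cases hx : x = x'
    · subst hx
      simp
    · have hd : (1 : ℝ) ≤ (hammingDist x x' : ℝ) := by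
        exact_mod_cast Nat.succ_le_of_lt (hammingDist_pos.2 hx)
      have hp : 0 < ρ ^ 2 * (hammingDist x x' : ℝ) := by positivity
      obtain ⟨h1, h2⟩ := hj x x'
      have hl := (hα (j x) (j x')).pow 2
      have e1 := hl.eventually_const_lt
        (u := (49 / 64) * ρ ^ 2 * (hammingDist x x' : ℝ)) (by nlinarith)
      have e2 := hl.eventually_lt_const
        (u := (49 / 4) * ρ ^ 2 * (hammingDist x x' : ℝ)) (by nlinarith)
      filter_upwards [e1, e2] with N a b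
      exact ⟨a.le, b.le⟩
  have key2 : ∀ᶠ N : ℕ in atTop, ∀ x x' : Fin M → Fin P,
      (49 / 64) * ρ ^ 2 * (hammingDist x x' : ℝ) ≤
        ((N : ℝ) * dist (α (N + j x)) (α (N + j x'))) ^ 2 ∧
      ((N : ℝ) * dist (α (N + j x)) (α (N + j x'))) ^ 2 ≤
        (49 / 4) * ρ ^ 2 * (hammingDist x x' : ℝ) := by
    rw [eventually_all]
    intro x
    rw [eventually_all]
    intro x'
    exact key x x'
  have key3 : ∀ᶠ N : ℕ in atTop, (7 / 8) * ρ / (N : ℝ) < ε := by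
    have : Tendsto (fun N : ℕ => (7 / 8) * ρ / (N : ℝ)) atTop (𝓝 0) :=
      tendsto_const_div_atTop_nhds_zero_nat _
    exact this.eventually_lt_const hε
  obtain ⟨N, hN1, hN2, hN3⟩ := (key2.and (key3.and (eventually_ge_atTop 1))).exists
  have hNpos : (0 : ℝ) < (N : ℝ) := by exact_mod_cast hN3
  refine ⟨(7 / 8) * ρ / (N : ℝ), by positivity, hN2, fun x => α (N + j x), fun x x' => ?_⟩
  obtain ⟨h1, h2⟩ := hN1 x x'
  rw [mul_pow] at h1 h2
  have hN2' : (0 : ℝ) < (N : ℝ) ^ 2 := by positivity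
  constructor
  · have e : ((7 / 8) * ρ / (N : ℝ)) ^ 2 * (hammingDist x x' : ℝ) =
      ((49 / 64) * ρ ^ 2 * (hammingDist x x' : ℝ)) / (N : ℝ) ^ 2 := by
      field_simp; ring
    rw [e, div_le_iff₀ hN2']
    linarith
  · have e : 16 * ((7 / 8) * ρ / (N : ℝ)) ^ 2 * (hammingDist x x' : ℝ) =
      ((49 / 4) * ρ ^ 2 * (hammingDist x x' : ℝ)) / (N : ℝ) ^ 2 := by
      field_simp; ring
    rw [e, le_div_iff₀ hN2']
    linarith

end

end R785.LD
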