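import Pool.Agent.R785.LD.Defs

/-!
Project LD: basic lemmas on `TreeSpace`.
-/

open Set Filter Topology
open scoped NNReal

namespace R785.LD

section

variable {Y : Type} [MetricSpace Y] {P : Piece Y} {X : Type} [MetricSpace X]

theorem red_nil : Red [] := by simp [Red]

theorem red_single (n : ℤ) : Red [n] := by simp [Red]

theorem red_cons_iff {n : ℤ} {l : List ℤ} : Red (n :: l) ↔ ∀ m ∈ l, m ≠ 0 := by simp [Red]

theorem Red.of_cons {n : ℤ} {l : List ℤ} (h : Red (n :: l)) : Red l := by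
  rw [red_cons_iff] at h
  intro m hm
  exact h m (List.mem_of_mem_tail hm)

theorem Red.head_ne {n m : ℤ} {l : List ℤ} (h : Red (n :: m :: l)) : m ≠ 0 := by
  rw [red_cons_iff] at h
  exact h m (by simp)

theorem Red.change {n m : ℤ} {l : List ℤ} (h : Red (n :: l)) : Red (m :: l) := by
  rw [red_cons_iff] at h ⊢
  exact h

theorem Red.cons {n m : ℤ} {l : List ℤ} (h : Red (n :: l)) (hn : n ≠ 0) :
    Red (m :: n :: l) := by
  rw [red_cons_iff] at h ⊢
  intro k hk
  rcases List.mem_cons.1 hk with rfl | hk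
  · exact hn
  · exact h k hk

theorem Piece.gate_zero (P : Piece Y) : P.gate 0 = P.o := by simp [Piece.gate]

theorem Piece.a_gate (P : Piece Y) (n : ℤ) : P.a (P.gate n) = P.gate (n + 1) := by
  unfold Piece.gate
  rw [← IsometryEquiv.mul_apply, add_comm, zpow_add, zpow_one]

theorem Piece.a_zpow_gate (P : Piece Y) (k n : ℤ) : (P.a ^ k) (P.gate n) = P.gate (n + k) := by
  unfold Piece.gate
  rw [← IsometryEquiv.mul_apply, add_comm, zpow_add]

@[simp] theorem Piece.rp_nil (P : Piece Y) (y : Y) : P.rp [] y = y := rfl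

@[simp] theorem Piece.rp_cons (P : Piece Y) (n : ℤ) (l : List ℤ) (y : Y) :
    P.rp (n :: l) y = P.gate n := rfl

theorem Piece.far_gate (P : Piece Y) (n : ℤ) : |(n : ℝ)| ≤ dist P.o (P.gate n) := P.far n

theorem Sep.symm {u v : List ℤ} (h : Sep u v) : Sep v u := by
  rintro ⟨n, l, l', h1, h2⟩
  exact h ⟨n, l', l, h2, h1⟩

theorem sep_nil_left (v : List ℤ) : Sep [] v := by
  rintro ⟨n, l, l', h1, h2⟩
  exact absurd h1 (by simp)

theorem sep_nil_right (v : List ℤ) : Sep v [] := (sep_nil_left v).symm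

theorem sep_cons_cons {n m : ℤ} {l l' : List ℤ} (h : n ≠ m) : Sep (n :: l) (m :: l') := by
  rintro ⟨k, a, b, h1, h2⟩
  injection h1 with h1 _
  injection h2 with h2 _
  exact h (h1.trans h2.symm)

namespace TreeSpace

theorem A_symm_cons (T : TreeSpace P X) (n : ℤ) (l : List ℤ) (h : Red (n :: l)) (y : Y) :
    T.A.symm (T.emb (n :: l) y) = T.emb ((n - 1) :: l) y := by
  rw [IsometryEquiv.symm_apply_eq, T.A_cons (n - 1) l h.change y, sub_add_cancel]

theorem A_pow_cons (T : TreeSpace P X) (k : ℕ) (n : ℤ) (l : List ℤ) (h : Red (n :: l)) (y : Y) :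
    (T.A ^ k) (T.emb (n :: l) y) = T.emb ((n + k) :: l) y := by
  induction k generalizing n with
  | zero => simp
  | succ k ih =>
    rw [pow_succ, IsometryEquiv.mul_apply, T.A_cons n l h y, ih (n + 1) h.change]
    congr 2
    push_cast; ring

theorem A_zpow_cons (T : TreeSpace P X) (k n : ℤ) (l : List ℤ) (h : Red (n :: l)) (y : Y) :
    (T.A ^ k) (T.emb (n :: l) y) = T.emb ((n + k) :: l) y := by
  obtain ⟨j, rfl | rfl⟩ := k.eq_nat_or_neg
  · rw [zpow_natCast, T.A_pow_cons j n l h y]
  · have h1 := T.A_pow_cons j (n + -(j : ℤ)) l h.change y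
    rw [neg_add_cancel_right] at h1
    rw [← h1, ← IsometryEquiv.mul_apply, ← zpow_natCast, ← zpow_add]
    simp

theorem A_pow_root (T : TreeSpace P X) (k : ℕ) (y : Y) :
    (T.A ^ k) (T.emb [] y) = T.emb [] ((P.a ^ k) y) := by
  induction k generalizing y with
  | zero => simp
  | succ k ih =>
    rw [pow_succ, IsometryEquiv.mul_apply, T.A_root y, ih, pow_succ, IsometryEquiv.mul_apply]

theorem A_zpow_root (T : TreeSpace P X) (k : ℤ) (y : Y) :
    (T.A ^ k) (T.emb [] y) = T.emb [] ((P.a ^ k) y) := by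
  obtain ⟨j, rfl | rfl⟩ := k.eq_nat_or_neg
  · rw [zpow_natCast, zpow_natCast, T.A_pow_root j y]
  · have h1 := T.A_pow_root j ((P.a ^ (-(j : ℤ))) y)
    have h2 : (P.a ^ j) ((P.a ^ (-(j : ℤ))) y) = y := by
      rw [← IsometryEquiv.mul_apply, ← zpow_natCast, ← zpow_add]; simp
    rw [h2] at h1
    rw [← h1, ← IsometryEquiv.mul_apply, ← zpow_natCast, ← zpow_add]
    simp

theorem S_base (T : TreeSpace P X) : T.S (T.emb [] P.o) = T.emb [] P.o := by
  rw [T.S_root, T.glue]

/-- distance to the gate through which a branch is attached -/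
theorem dist_gate (T : TreeSpace P X) (n : ℤ) (l : List ℤ) (h : Red (n :: l)) (y : Y) :
    dist (T.emb (n :: l) y) (T.emb [] (P.gate n)) = dist (T.emb l y) (T.emb [] P.o) := by
  have h1 : (T.A ^ (-n)) (T.emb (n :: l) y) = T.emb (0 :: l) y := by
    rw [T.A_zpow_cons _ _ _ h, add_neg_cancel]
  have h2 : (T.A ^ (-n)) (T.emb [] (P.gate n)) = T.emb [] P.o := by
    rw [T.A_zpow_root, P.a_zpow_gate, add_neg_cancel, P.gate_zero]
  rw [← (T.A ^ (-n)).isometry.dist_eq, h1, h2, ← T.S.isometry.dist_eq, T.S_zero l h.change,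
    T.S_base]

theorem dist_root (T : TreeSpace P X) (y z : Y) :
    dist (T.emb [] y) (T.emb [] z) = dist y z :=
  (T.isom [] red_nil).dist_eq y z

/-- distance from a branch to the base point -/
theorem dist_base_cons (T : TreeSpace P X) (n : ℤ) (l : List ℤ) (h : Red (n :: l)) (y : Y) :
    dist (T.emb (n :: l) y) (T.emb [] P.o) =
      dist (T.emb l y) (T.emb [] P.o) + dist (P.gate n) P.o := by
  rw [T.sep (n :: l) [] h red_nil (sep_nil_right _) y P.o]
  simp only [Piece.rp_cons, Piece.rp_nil, dist_self, add_zero]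
  rw [T.dist_gate n l h]

/-- gluing -/
theorem emb_single_o (T : TreeSpace P X) (n : ℤ) :
    T.emb [n] P.o = T.emb [] (P.gate n) := by
  have h := T.dist_gate n [] (red_single n) P.o
  rw [dist_self] at h
  exact dist_eq_zero.1 h

/-- distance between the root piece and the piece `[n]` -/
theorem dist_root_single (T : TreeSpace P X) (n : ℤ) (y z : Y) :
    dist (T.emb [] y) (T.emb [n] z) = dist y (P.gate n) + dist P.o z := by
  rw [T.sep [] [n] red_nil (red_single n) (sep_nil_left _) y z]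
  simp only [Piece.rp_cons, Piece.rp_nil, dist_self, zero_add]
  rw [← T.emb_single_o n, (T.isom [n] (red_single n)).dist_eq]

theorem S_S (T : TreeSpace P X) (x : X) : T.S (T.S x) = x := by
  obtain ⟨u, hu, y, rfl⟩ := T.surj x
  match u, hu with
  | [], _ => rw [T.S_root, T.S_zero [] (red_single 0)]
  | n :: l, hu =>
    by_cases hn : n = 0
    · subst hn
      rw [T.S_zero l hu]
      match l, hu with
      | [], _ => rw [T.S_root]
      | m :: l', hu => rw [T.S_ne m l' hu.of_cons hu.head_ne]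
    · rw [T.S_ne n l hu hn, T.S_zero (n :: l) (hu.cons hn)]

end TreeSpace

end

end R785.LD
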