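import Pool.Agent.R785.LD.Defs

/-!
Project LD, part CN: the CAT(0) inequality in the tree of spaces.
-/

open Set Filter Topology
open scoped NNReal

namespace R785.LD

namespace CNAux

/-- extension of a segment on the side of `p` -/
theorem real_ext {P Q D x y L a : ℝ} (hL : 0 < L) (hxy : x + y = L) (hy : 0 ≤ y) (ha : 0 ≤ a)
    (hD : D ^ 2 * L ≤ y * P ^ 2 + x * Q ^ 2 - x * y * L) (hQ : (P - L) ^ 2 ≤ Q ^ 2) :
    D ^ 2 * (L + a) ≤ y * (P + a) ^ 2 + (x + a) * Q ^ 2 - (x + a) * y * (L + a) := by
  refine le_of_mul_le_mul_left ?_ hL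
  have h1 : (L + a) * (D ^ 2 * L) ≤ (L + a) * (y * P ^ 2 + x * Q ^ 2 - x * y * L) :=
    mul_le_mul_of_nonneg_left hD (by linarith)
  have h2 : L * (y * (P + a) ^ 2 + (x + a) * Q ^ 2 - (x + a) * y * (L + a)) -
      (L + a) * (y * P ^ 2 + x * Q ^ 2 - x * y * L) = y * a * (Q ^ 2 - (P - L) ^ 2) := by
    subst hxy; ring
  have h3 : 0 ≤ y * a * (Q ^ 2 - (P - L) ^ 2) :=
    mul_nonneg (mul_nonneg hy ha) (by linarith)
  linarith

/-- shift of all distances from the third point -/
theorem real_shift {P Q D x y L c : ℝ} (hL : 0 < L) (hxy : x + y = L) (hx : 0 ≤ x) (hy : 0 ≤ y)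
    (hc : 0 ≤ c) (hP : 0 ≤ P) (hQ : 0 ≤ Q) (hD0 : 0 ≤ D)
    (hD : D ^ 2 * L ≤ y * P ^ 2 + x * Q ^ 2 - x * y * L) (hPQ : (P - Q) ^ 2 ≤ L ^ 2) :
    (c + D) ^ 2 * L ≤ y * (c + P) ^ 2 + x * (c + Q) ^ 2 - x * y * L := by
  have h1 : (D * L) ^ 2 ≤ (y * P + x * Q) ^ 2 := by
    have h2 : L * (D ^ 2 * L) ≤ L * (y * P ^ 2 + x * Q ^ 2 - x * y * L) :=
      mul_le_mul_of_nonneg_left hD hL.le
    have h3 : (y * P + x * Q) ^ 2 - L * (y * P ^ 2 + x * Q ^ 2 - x * y * L) =
        x * y * (L ^ 2 - (P - Q) ^ 2) := by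
      subst hxy; ring
    have h4 : 0 ≤ x * y * (L ^ 2 - (P - Q) ^ 2) := mul_nonneg (mul_nonneg hx hy) (by linarith)
    nlinarith
  have h2 : D * L ≤ y * P + x * Q :=
    (sq_le_sq₀ (by positivity) (by positivity)).1 h1
  have h3 : y * (c + P) ^ 2 + x * (c + Q) ^ 2 - x * y * L - (c + D) ^ 2 * L =
      (y * P ^ 2 + x * Q ^ 2 - x * y * L - D ^ 2 * L) + 2 * c * (y * P + x * Q - D * L) := by
    subst hxy; ring
  have h4 : 0 ≤ 2 * c * (y * P + x * Q - D * L) := by
    apply mul_nonneg (by positivity); linarith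
  linarith

/-- the real inequality behind the main case -/
theorem real_main {P Q D x y L a b c : ℝ} (hL : 0 ≤ L) (hxy : x + y = L) (hx : 0 ≤ x)
    (hy : 0 ≤ y) (ha : 0 ≤ a) (hb : 0 ≤ b) (hc : 0 ≤ c) (hP : 0 ≤ P) (hQ : 0 ≤ Q) (hD0 : 0 ≤ D)
    (h1 : P ≤ Q + L) (h2 : Q ≤ P + L) (h3 : L ≤ P + Q) (h4 : P ≤ D + x) (h5 : Q ≤ D + y)
    (h6 : D ≤ P + x)
    (hD : 0 < L → D ^ 2 * L ≤ y * P ^ 2 + x * Q ^ 2 - x * y * L) :
    (c + D) ^ 2 * (a + L + b) ≤ (y + b) * (c + P + a) ^ 2 + (a + x) * (c + Q + b) ^ 2
      - (a + x) * (y + b) * (a + L + b) := by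
  rcases hL.eq_or_lt with h0 | h0
  · have hx0 : x = 0 := by linarith
    have hy0 : y = 0 := by linarith
    have hPD : P = D := by linarith
    have hQD : Q = D := by linarith
    subst hx0 hy0
    rw [hPD, hQD, ← h0]
    have : 0 ≤ a * b * (c + D) := by positivity
    nlinarith
  · have e1 := real_shift h0 hxy hx hy hc hP hQ hD0 (hD h0) (by nlinarith)
    have e2 := real_ext (a := a) h0 hxy hy ha e1 (by
      have : |c + P - L| ≤ |c + Q| := by
        rw [abs_of_nonneg (by positivity : 0 ≤ c + Q), abs_le]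
        constructor <;> linarith
      exact sq_le_sq.2 this)
    have e3 := real_ext (P := c + Q) (Q := c + P + a) (D := c + D) (x := y) (y := x + a)
      (L := L + a) (a := b) (by linarith) (by linarith) (by linarith) hb (by linarith) (by
      have : |c + Q - (L + a)| ≤ |c + P + a| := by
        rw [abs_of_nonneg (by positivity : 0 ≤ c + P + a), abs_le]
        constructor <;> linarith
      exact sq_le_sq.2 this)
    calc (c + D) ^ 2 * (a + L + b) = (c + D) ^ 2 * (L + a + b) := by ring
      _ ≤ _ := e3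
      _ = _ := by ring

/-- the one dimensional case -/
theorem real_side {f e L t : ℝ} (ht : t ∈ Icc (0 : ℝ) 1) (he : 0 ≤ e) (h1 : f ≤ e + L)
    (h2 : L ≤ f + e) :
    (f - t * L) ^ 2 ≤ (1 - t) * f ^ 2 + t * e ^ 2 - t * (1 - t) * L ^ 2 := by
  have h3 : (f - L) ^ 2 ≤ e ^ 2 := by
    have : |f - L| ≤ |e| := by
      rw [abs_of_nonneg he, abs_le]
      constructor <;> linarith
    exact sq_le_sq.2 this
  have h4 : 0 ≤ t * (e ^ 2 - (f - L) ^ 2) := mul_nonneg ht.1 (by linarith)
  nlinarith

/-- the property to be proved for all triples -/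
def C {X : Type} [MetricSpace X] (p q z : X) : Prop :=
  ∀ (m : X) (t : ℝ), t ∈ Icc (0 : ℝ) 1 → dist p m = t * dist p q →
    dist m q = (1 - t) * dist p q →
    dist z m ^ 2 ≤ (1 - t) * dist z p ^ 2 + t * dist z q ^ 2 - t * (1 - t) * dist p q ^ 2

theorem C_iff {X : Type} [MetricSpace X] (A : X ≃ᵢ X) (p q z : X) :
    C (A p) (A q) (A z) ↔ C p q z := by
  constructor
  · intro h m t ht h1 h2
    have := h (A m) t ht (by simpa only [A.dist_eq] using h1) (by simpa only [A.dist_eq] using h2)
    simpa only [A.dist_eq] using this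
  · intro h m t ht h1 h2
    obtain ⟨m, rfl⟩ := A.surjective m
    have := h m t ht (by simpa only [A.dist_eq] using h1) (by simpa only [A.dist_eq] using h2)
    simpa only [A.dist_eq] using this

variable {Y X : Type} [MetricSpace Y] [MetricSpace X] {P : Piece Y}

theorem main_sep (T : TreeSpace P X) (hY : CN4 Y) (u v w : List ℤ) (hu : Red u) (hv : Red v)
    (hw : Red w) (huv : Sep u v) (hvw : Sep v w) (huw : Sep u w) (y1 y2 y3 : Y) :
    C (T.emb u y1) (T.emb v y2) (T.emb w y3) := by
  intro m t ht h1 h2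
  obtain ⟨s, hs, y4, rfl⟩ := T.surj m
  have eE : ∀ l y, dist (T.emb [] y) (T.emb l (y4)) = dist (T.emb l y4) (T.emb [] y) :=
    fun l y => dist_comm _ _
  have dpq := T.sep u v hu hv huv y1 y2
  have dzp := T.sep w u hw hu (fun ⟨n, l, l', e1, e2⟩ => huw ⟨n, l', l, e2, e1⟩) y3 y1
  have dzq := T.sep w v hw hv (fun ⟨n, l, l', e1, e2⟩ => hvw ⟨n, l', l, e2, e1⟩) y3 y2
  by_cases c1 : Sep u s
  · by_cases c2 : Sep v s
    · -- main case
      have dpm := T.sep u s hu hs c1 y1 y4
      have dmq := T.sep s v hs hv (fun ⟨n, l, l', e1, e2⟩ => c2 ⟨n, l', l, e2, e1⟩) y4 y2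
      set p := T.emb u y1
      set q := T.emb v y2
      set z := T.emb w y3
      set m := T.emb s y4
      set p' := P.rp u y1
      set q' := P.rp v y2
      set z' := P.rp w y3
      set m' := P.rp s y4
      have e1 : dist (T.emb [] m') m = dist m (T.emb [] m') := dist_comm _ _
      have t1 := dist_triangle p' m' q'
      have n0 : 0 ≤ dist m (T.emb [] m') := dist_nonneg
      have sum : dist p m + dist m q = dist p q := by rw [h1, h2]; ring
      have hm0 : dist m (T.emb [] m') = 0 := by linarith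
      have hmid : dist p' m' + dist m' q' = dist p' q' := by linarith
      have hm : m = T.emb [] m' := dist_eq_zero.1 hm0
      have hwn : Sep w [] := by rintro ⟨n, l, l', -, e2⟩; cases e2
      have hRn : Red [] := by intro n hn; simp at hn
      have dzm := T.sep w [] hw hRn hwn y3 m'
      have rpn : P.rp [] m' = m' := rfl
      rw [rpn, dist_self, add_zero, ← hm] at dzm
      have hD : 0 < dist p' q' → dist z' m' ^ 2 * dist p' q' ≤
          dist m' q' * dist z' p' ^ 2 + dist p' m' * dist z' q' ^ 2 -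
            dist p' m' * dist m' q' * dist p' q' := by
        intro hpos
        set L0 := dist p' q' with hL0
        have a1 := hY p' q' z' m' (dist p' m' / L0)
          ⟨by positivity, by rw [div_le_one hpos]; linarith [dist_nonneg (x := m') (y := q')]⟩
          (by rw [div_mul_cancel₀ _ hpos.ne'])
          (by rw [sub_mul, div_mul_cancel₀ _ hpos.ne', one_mul]; linarith)
        have a2 : 1 - dist p' m' / L0 = dist m' q' / L0 := by
          rw [eq_div_iff hpos.ne', sub_mul, div_mul_cancel₀ _ hpos.ne']; linarith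
        rw [a2] at a1
        have a3 := mul_le_mul_of_nonneg_right a1 hpos.le
        calc dist z' m' ^ 2 * L0 ≤ _ := a3
          _ = _ := by rw [← hL0]; field_simp
      have R := real_main (P := dist z' p') (Q := dist z' q') (D := dist z' m')
        (x := dist p' m') (y := dist m' q') (L := dist p' q') (a := dist p (T.emb [] p'))
        (b := dist (T.emb [] q') q) (c := dist z (T.emb [] z')) dist_nonneg hmid dist_nonneg
        dist_nonneg dist_nonneg dist_nonneg dist_nonneg dist_nonneg dist_nonneg dist_nonneg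
        (by have := dist_triangle z' q' p'; rw [dist_comm q' p'] at this; linarith)
        (by have := dist_triangle z' p' q'; linarith)
        (by have := dist_triangle_left p' q' z'; linarith)
        (by have := dist_triangle z' m' p'; rw [dist_comm m' p'] at this; linarith)
        (by have := dist_triangle z' m' q'; linarith)
        (by have := dist_triangle z' p' m'; linarith) hD
      have k1 : dist z' m' + dist z (T.emb [] z') = dist z m := by rw [dzm]; ring
      have k2 : dist z (T.emb [] z') + dist z' p' + dist p (T.emb [] p') = dist z p := by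
        rw [dzp, dist_comm p]
      have k3 : dist z (T.emb [] z') + dist z' q' + dist (T.emb [] q') q = dist z q := by
        rw [dzq]
      have k4 : dist p (T.emb [] p') + dist p' m' = dist p m := by
        rw [dpm, e1, hm0, add_zero]
      have k5 : dist m' q' + dist (T.emb [] q') q = dist m q := by
        rw [dmq, hm0, zero_add]
      rw [add_comm (dist z (T.emb [] z')) (dist z' m'), k1, k2, k3, k4, k5, ← dpq, h1, h2] at R
      rcases (dist_nonneg (x := p) (y := q)).eq_or_lt with hz | hz
      · have hpq : p = q := dist_eq_zero.1 hz.symm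
        have hpm : p = m := by
          rw [← dist_eq_zero, h1, ← hz, mul_zero]
        rw [← hpq, ← hpm, dist_self]
        apply le_of_eq; ring
      · refine le_of_mul_le_mul_right ?_ hz
        calc _ ≤ _ := R
          _ = _ := by ring
    · -- `m` lies in the branch of `q`
      unfold Sep at c2
      rw [not_not] at c2
      obtain ⟨k, l, l', rfl, rfl⟩ := c2
      have dpm := T.sep u (k :: l') hu hs c1 y1 y4
      have hsw : Sep w (k :: l') := by
        rintro ⟨n, r, r', e1, e2⟩
        exact hvw ⟨n, l, r, by rw [(List.cons.inj e2).1], e1⟩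
      have dzm := T.sep w (k :: l') hw hs hsw y3 y4
      have r1 : P.rp (k :: l') y4 = P.gate k := rfl
      have r2 : P.rp (k :: l) y2 = P.gate k := rfl
      rw [r1] at dpm dzm
      rw [r2] at dpq dzq
      have key : dist (T.emb w y3) (T.emb (k :: l') y4) = dist (T.emb w y3) (T.emb (k :: l) y2) -
          (1 - t) * dist (T.emb u y1) (T.emb (k :: l) y2) := by
        linarith
      rw [key]
      have t1 := dist_triangle (T.emb w y3) (T.emb u y1) (T.emb (k :: l) y2)
      have t2 := dist_triangle_left (T.emb u y1) (T.emb (k :: l) y2) (T.emb w y3)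
      have := real_side (f := dist (T.emb w y3) (T.emb (k :: l) y2))
        (e := dist (T.emb w y3) (T.emb u y1)) (L := dist (T.emb u y1) (T.emb (k :: l) y2))
        (t := 1 - t) ⟨by linarith [ht.2], by linarith [ht.1]⟩ dist_nonneg (by linarith)
        (by linarith)
      linarith
  · unfold Sep at c1
    rw [not_not] at c1
    obtain ⟨k, l, l', rfl, rfl⟩ := c1
    have hsv : Sep (k :: l') v := by
      rintro ⟨n, r, r', e1, e2⟩
      exact huv ⟨n, l, r', by rw [(List.cons.inj e1).1], e2⟩
    have hsw : Sep w (k :: l') := by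
      rintro ⟨n, r, r', e1, e2⟩
      exact huw ⟨n, l, r, by rw [(List.cons.inj e2).1], e1⟩
    have dmq := T.sep (k :: l') v hs hv hsv y4 y2
    have dzm := T.sep w (k :: l') hw hs hsw y3 y4
    have r1 : P.rp (k :: l') y4 = P.gate k := rfl
    have r2 : P.rp (k :: l) y1 = P.gate k := rfl
    rw [r1] at dmq dzm
    rw [r2] at dpq dzp
    have c3 := dist_comm (T.emb (k :: l') y4) (T.emb [] (P.gate k))
    have c4 := dist_comm (T.emb (k :: l) y1) (T.emb [] (P.gate k))
    have key : dist (T.emb w y3) (T.emb (k :: l') y4) = dist (T.emb w y3) (T.emb (k :: l) y1) -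
        t * dist (T.emb (k :: l) y1) (T.emb v y2) := by
      linarith
    rw [key]
    have t1 := dist_triangle (T.emb w y3) (T.emb v y2) (T.emb (k :: l) y1)
    have t2 := dist_triangle_left (T.emb (k :: l) y1) (T.emb v y2) (T.emb w y3)
    have t3 := dist_comm (T.emb v y2) (T.emb (k :: l) y1)
    have := real_side (f := dist (T.emb w y3) (T.emb (k :: l) y1))
      (e := dist (T.emb w y3) (T.emb v y2)) (L := dist (T.emb (k :: l) y1) (T.emb v y2))
      (t := t) ht dist_nonneg (by linarith) (by linarith)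
    linarith

end CNAux

open CNAux in
theorem stmtCN {Y X : Type} [MetricSpace Y] [MetricSpace X] {P : Piece Y} (T : TreeSpace P X)
    (h : StmtSI T) : StmtCN T := by
  intro hY
  have key : ∀ p q z : X, C p q z :=
    h C (fun x y z => C_iff T.A x y z) (fun x y z => C_iff T.S x y z)
      (fun u v w hu hv hw huv hvw huw y1 y2 y3 =>
        main_sep T hY u v w hu hv hw huv hvw huw y1 y2 y3)
  intro p q z m t ht h1 h2
  exact key p q z m t ht h1 h2

end R785.LD
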