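import Pool.Agent.R785.LD.Defs

/-! Combinatorial lemma: two points of a cube of the same class differing in all coordinates. -/

namespace R785.LD

open Finset

/-- alive points -/
def Alive {M P : ℕ} {ι : Type} (U : (Fin M → Fin P) → ι) : ℕ → (Fin M → Fin P) → Prop
  | 0, _ => True
  | i + 1, x => Alive U i x ∧ ∀ h : i < M, ∃ a, a ≠ x ⟨i, h⟩ ∧
      Alive U i (Function.update x ⟨i, h⟩ a) ∧ U (Function.update x ⟨i, h⟩ a) = U x

theorem alive_walk {M P : ℕ} {ι : Type} (U : (Fin M → Fin P) → ι) :
    ∀ (i : ℕ) (_ : i ≤ M) (x : Fin M → Fin P), Alive U i x →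
      ∃ x', U x' = U x ∧ (∀ j : Fin M, (j : ℕ) < i → x' j ≠ x j) ∧
        (∀ j : Fin M, i ≤ (j : ℕ) → x' j = x j) := by
  intro i
  induction i with
  | zero =>
    intro _ x _
    exact ⟨x, rfl, fun j hj => absurd hj (Nat.not_lt_zero _), fun j _ => rfl⟩
  | succ i ih =>
    intro hi x hx
    have hiM : i < M := hi
    obtain ⟨a, ha, h1, h2⟩ := hx.2 hiM
    obtain ⟨x', e1, e2, e3⟩ := ih (by omega) _ h1
    refine ⟨x', by rw [e1, h2], ?_, ?_⟩
    · intro j hj
      by_cases hji : (j : ℕ) < i
      · have := e2 j hji
        have hne : j ≠ ⟨i, hiM⟩ := by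
          rintro rfl
          exact lt_irrefl _ hji
        rwa [Function.update_of_ne hne] at this
      · have hje : j = ⟨i, hiM⟩ := by
          apply Fin.ext
          show (j : ℕ) = i
          omega
        have := e3 j (by omega)
        rw [this, hje, Function.update_self]
        exact ha
    · intro j hj
      have hne : j ≠ ⟨i, hiM⟩ := by
        rintro rfl
        have : i + 1 ≤ i := hj
        omega
      rw [e3 j (by omega), Function.update_of_ne hne]

theorem line_count {M P : ℕ} (i : Fin M) (D : Finset (Fin M → Fin P)) [DecidableEq (Fin M → Fin P)] :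
    ∑ x : Fin M → Fin P, (univ.filter (fun a : Fin P => Function.update x i a ∈ D)).card =
      D.card * P := by
  classical
  have h1 : ∑ x : Fin M → Fin P, (univ.filter (fun a : Fin P => Function.update x i a ∈ D)).card =
      ((univ : Finset ((Fin M → Fin P) × Fin P)).filter
        (fun q => Function.update q.1 i q.2 ∈ D)).card := by
    rw [Finset.card_filter, ← Finset.univ_product_univ, Finset.sum_product]
    apply Finset.sum_congr rfl
    intro x _
    rw [Finset.card_filter]
  rw [h1]
  have h2 : D.card * P = (D ×ˢ (univ : Finset (Fin P))).card := by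
    rw [Finset.card_product, Finset.card_univ, Fintype.card_fin]
  rw [h2]
  refine Finset.card_nbij' (fun q => (Function.update q.1 i q.2, q.1 i))
    (fun q => (Function.update q.1 i q.2, q.1 i)) ?_ ?_ ?_ ?_
  · intro q hq
    rw [Finset.mem_coe, Finset.mem_filter] at hq
    rw [Finset.mem_coe, Finset.mem_product]
    exact ⟨hq.2, Finset.mem_univ _⟩
  · intro q hq
    rw [Finset.mem_coe, Finset.mem_product] at hq
    rw [Finset.mem_coe, Finset.mem_filter]
    refine ⟨Finset.mem_univ _, ?_⟩
    simp only [Function.update_idem, Function.update_eq_self]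
    exact hq.1
  · intro q _
    simp
  · intro q _
    simp

theorem stmtCO : StmtCO := by
  classical
  intro M P k ι _ U hP hk
  have hP0 : 0 < P := by omega
  -- dead sets
  let D : ℕ → Finset (Fin M → Fin P) := fun i =>
    univ.filter (fun x => Alive U i x ∧ ¬ Alive U (i + 1) x)
  have hD : ∀ i < M, P * (D i).card ≤ k * P ^ M := by
    intro i hi
    have h1 := line_count ⟨i, hi⟩ (D i)
    rw [mul_comm P, ← h1]
    calc ∑ x : Fin M → Fin P,
          (univ.filter (fun a : Fin P => Function.update x ⟨i, hi⟩ a ∈ D i)).card
        ≤ ∑ _x : Fin M → Fin P, k := by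
          apply Finset.sum_le_sum
          intro x _
          refine le_trans ?_ (hk x ⟨i, hi⟩)
          apply Finset.card_le_card_of_injOn (fun a => U (Function.update x ⟨i, hi⟩ a))
          · intro a _
            exact Finset.mem_coe.2 (Finset.mem_image_of_mem _ (Finset.mem_univ _))
          · intro a ha b hb hab
            by_contra hne
            rw [Finset.mem_coe, Finset.mem_filter] at ha hb
            have ha2 : Alive U i (Function.update x ⟨i, hi⟩ a) ∧
                ¬ Alive U (i + 1) (Function.update x ⟨i, hi⟩ a) := by
              have := ha.2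
              simpa [D] using this
            have hb2 : Alive U i (Function.update x ⟨i, hi⟩ b) ∧
                ¬ Alive U (i + 1) (Function.update x ⟨i, hi⟩ b) := by
              have := hb.2
              simpa [D] using this
            apply ha2.2
            refine ⟨ha2.1, fun _ => ⟨b, ?_, ?_, ?_⟩⟩
            · rw [Function.update_self]; exact fun h => hne h.symm
            · rw [Function.update_idem]; exact hb2.1
            · rw [Function.update_idem]; exact hab.symm
      _ = k * P ^ M := by
          rw [Finset.sum_const, Finset.card_univ, Fintype.card_fun, Fintype.card_fin,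
            Fintype.card_fin, smul_eq_mul, mul_comm]
  have hex : ∃ x, Alive U M x := by
    by_contra hno
    push Not at hno
    have hcov : (univ : Finset (Fin M → Fin P)) ⊆ (Finset.range M).biUnion D := by
      intro x _
      have hx := hno x
      have hfirst : ∃ i, i < M ∧ Alive U i x ∧ ¬ Alive U (i + 1) x := by
        by_contra hc
        push Not at hc
        have : ∀ i, i ≤ M → Alive U i x := by
          intro i
          induction i with
          | zero => intro _; trivial
          | succ i ih =>
            intro hi
            exact hc i (by omega) (ih (by omega))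
        exact hx (this M le_rfl)
      obtain ⟨i, hi, h1, h2⟩ := hfirst
      rw [Finset.mem_biUnion]
      exact ⟨i, Finset.mem_range.2 hi, Finset.mem_filter.2 ⟨Finset.mem_univ _, h1, h2⟩⟩
    have h1 := (Finset.card_le_card hcov).trans Finset.card_biUnion_le
    rw [Finset.card_univ, Fintype.card_fun, Fintype.card_fin, Fintype.card_fin] at h1
    have h2 : P * P ^ M ≤ M * (k * P ^ M) := by
      calc P * P ^ M ≤ P * ∑ i ∈ Finset.range M, (D i).card := Nat.mul_le_mul_left _ h1
        _ = ∑ i ∈ Finset.range M, P * (D i).card := by rw [Finset.mul_sum]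
        _ ≤ ∑ _i ∈ Finset.range M, k * P ^ M :=
            Finset.sum_le_sum (fun i hi => hD i (Finset.mem_range.1 hi))
        _ = M * (k * P ^ M) := by rw [Finset.sum_const, Finset.card_range, smul_eq_mul]
    have h3 : 0 < P ^ M := pow_pos hP0 M
    rw [← mul_assoc] at h2
    have h4 : P ≤ M * k := Nat.le_of_mul_le_mul_right h2 h3
    have h5 : 2 * M * k = 2 * (M * k) := by ring
    omega
  obtain ⟨x, hx⟩ := hex
  obtain ⟨x', e1, e2, -⟩ := alive_walk U M le_rfl x hx
  exact ⟨x, x', fun i => (e2 i i.2).symm, e1.symm⟩

end R785.LD
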