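import Mathlib

/-!
Project LD (problem MP_a015bb_gt): definitions and interfaces.
-/

open Set Filter Topology
open scoped NNReal

namespace R785.LD

/-! ### General notions used in the statement of the result -/

/-- `γ` (on `[0,1]`) is a geodesic of constant speed from `p` to `q`. -/
def IsGeod {X : Type} [MetricSpace X] (γ : ℝ → X) (p q : X) : Prop :=
  γ 0 = p ∧ γ 1 = q ∧
    ∀ s ∈ Icc (0 : ℝ) 1, ∀ t ∈ Icc (0 : ℝ) 1, dist (γ s) (γ t) = |s - t| * dist p q

/-- any two points are joined by a geodesic -/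
def Geodesic (X : Type) [MetricSpace X] : Prop := ∀ p q : X, ∃ γ : ℝ → X, IsGeod γ p q

/-- `X` is a CAT(0) space: it is geodesic, and the distance from `z` to a point of a geodesic from
`p` to `q` is at most the distance in the Euclidean comparison triangle (Stewart's formula). -/
def IsCAT0 (X : Type) [MetricSpace X] : Prop :=
  Geodesic X ∧ ∀ (p q z : X) (γ : ℝ → X), IsGeod γ p q → ∀ t ∈ Icc (0 : ℝ) 1,
    dist z (γ t) ^ 2 ≤ (1 - t) * dist z p ^ 2 + t * dist z q ^ 2 - t * (1 - t) * dist p q ^ 2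

/-- four point form of the CAT(0) inequality (working version) -/
def CN4 (X : Type) [MetricSpace X] : Prop :=
  ∀ (p q z m : X) (t : ℝ), t ∈ Icc (0 : ℝ) 1 → dist p m = t * dist p q →
    dist m q = (1 - t) * dist p q →
    dist z m ^ 2 ≤ (1 - t) * dist z p ^ 2 + t * dist z q ^ 2 - t * (1 - t) * dist p q ^ 2

theorem isCAT0_of {X : Type} [MetricSpace X] (h1 : Geodesic X) (h2 : CN4 X) : IsCAT0 X := by
  refine ⟨h1, fun p q z γ hγ t ht => h2 p q z (γ t) t ht ?_ ?_⟩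
  · obtain ⟨h0, -, h⟩ := hγ
    have := h 0 ⟨le_refl _, zero_le_one⟩ t ht
    rw [h0] at this
    rw [this, zero_sub, abs_neg, abs_of_nonneg ht.1]
  · obtain ⟨-, h1', h⟩ := hγ
    have := h t ht 1 ⟨zero_le_one, le_refl _⟩
    rw [h1'] at this
    rw [this, abs_sub_comm, abs_of_nonneg (by linarith [ht.2])]

/-- The geodesic rays of `X` issuing from `x0`: isometric embeddings of `[0,∞)` with
initial point `x0`. For a proper CAT(0) space this is the visual boundary. -/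
def Ray {X : Type} [MetricSpace X] (x0 : X) : Type :=
  {α : ℝ≥0 → X // Isometry α ∧ α 0 = x0}

/-- the metric `∫₀^∞ d(α(r), β(r)) e^{-r} dr` on the boundary -/
noncomputable def dbar {X : Type} [MetricSpace X] {x0 : X} (α β : Ray x0) : ℝ :=
  ∫ r in Ioi (0 : ℝ), dist (α.1 r.toNNReal) (β.1 r.toNNReal) * Real.exp (-r)

/-- linearly controlled dimension at most `n` -/
def LDimLE (Z : Type) [MetricSpace Z] (n : ℕ) : Prop :=
  ∃ c > (0 : ℝ), ∃ δ₀ > (0 : ℝ), ∀ δ : ℝ, 0 < δ → δ ≤ δ₀ → ∃ 𝒰 : Set (Set Z),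
    (∀ U ∈ 𝒰, IsOpen U) ∧ ⋃₀ 𝒰 = univ ∧
    (∀ z, {U | U ∈ 𝒰 ∧ z ∈ U}.encard ≤ n + 1) ∧
    (∀ U ∈ 𝒰, ∀ x ∈ U, ∀ y ∈ U, dist x y ≤ c * δ) ∧
    (∀ A : Set Z, (∃ δ' < δ, ∀ x ∈ A, ∀ y ∈ A, dist x y ≤ δ') → ∃ U ∈ 𝒰, A ⊆ U)

/-- The group `G` acts geometrically on `X`: by isometries, properly discontinuously and
cocompactly. -/
structure IsGeometric (G X : Type) [Group G] [MetricSpace X] [MulAction G X] : Prop where
  isom : ∀ g : G, Isometry (fun x : X => g • x)
  proper : ∀ K : Set X, IsCompact K → {g : G | ((fun x : X => g • x) '' K ∩ K).Nonempty}.Finite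
  cocompact : ∃ K : Set X, IsCompact K ∧ ∀ x : X, ∃ g : G, g • x ∈ K

/-! ### The tree of copies of `Y` -/

/-- A piece: a space with an isometry `a` and a base point `o` (the gate `0`). -/
structure Piece (Y : Type) [MetricSpace Y] where
  a : Y ≃ᵢ Y
  o : Y
  far : ∀ n : ℤ, |(n : ℝ)| ≤ dist o ((a ^ n) o)

section

variable {Y : Type} [MetricSpace Y]

/-- the gates -/
def Piece.gate (P : Piece Y) (n : ℤ) : Y := (P.a ^ n) P.o

/-- projection to the root piece of the point `y` of the piece with address `u` -/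
def Piece.rp (P : Piece Y) : List ℤ → Y → Y
  | [], y => y
  | n :: _, _ => P.gate n

/-- admissible addresses -/
def Red (l : List ℤ) : Prop := ∀ n ∈ l.tail, n ≠ 0

/-- the addresses `u`, `v` do not start with the same letter -/
def Sep (u v : List ℤ) : Prop := ¬ ∃ n l l', u = n :: l ∧ v = n :: l'

/-- `X` is a tree of copies `emb u Y` of `Y` (`u` an admissible address): the gate `n` of the copy
`u` is glued with the gate `0` of the copy `u ++ [n]` (for `n ≠ 0`, if `u ≠ []`). -/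
structure TreeSpace (P : Piece Y) (X : Type) [MetricSpace X] where
  emb : List ℤ → Y → X
  surj : ∀ x, ∃ u, Red u ∧ ∃ y, emb u y = x
  isom : ∀ u, Red u → Isometry (emb u)
  sep : ∀ u v, Red u → Red v → Sep u v → ∀ y z, dist (emb u y) (emb v z) =
    dist (emb u y) (emb [] (P.rp u y)) + dist (P.rp u y) (P.rp v z) +
      dist (emb [] (P.rp v z)) (emb v z)
  glue : emb [0] P.o = emb [] P.o
  A : X ≃ᵢ X
  A_root : ∀ y, A (emb [] y) = emb [] (P.a y)
  A_cons : ∀ n l, Red (n :: l) → ∀ y, A (emb (n :: l) y) = emb ((n + 1) :: l) y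
  S : X ≃ᵢ X
  S_root : ∀ y, S (emb [] y) = emb [0] y
  S_zero : ∀ l, Red (0 :: l) → ∀ y, S (emb (0 :: l) y) = emb l y
  S_ne : ∀ n l, Red (n :: l) → n ≠ 0 → ∀ y, S (emb (n :: l) y) = emb (0 :: n :: l) y

/-- Statement X: the tree of spaces exists. -/
def StmtX (P : Piece Y) : Prop := ∃ (X : Type) (_ : MetricSpace X), Nonempty (TreeSpace P X)

variable {P : Piece Y} {X : Type} [MetricSpace X]

/-- Statement PR: properness. -/
def StmtPR (_T : TreeSpace P X) : Prop := ProperSpace Y → ProperSpace X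

/-- Statement GE: geodesics. -/
def StmtGE (_T : TreeSpace P X) : Prop := Geodesic Y → Geodesic X

/-- Statement CN: CAT(0) inequality. -/
def StmtCN (_T : TreeSpace P X) : Prop := CN4 Y → CN4 X

/-- the group acting on the tree of spaces -/
def TreeSpace.Gp (T : TreeSpace P X) : Subgroup (X ≃ᵢ X) := Subgroup.closure {T.A, T.S}

instance (T : TreeSpace P X) : MulAction T.Gp X where
  smul g x := g.1 x
  one_smul _ := rfl
  mul_smul _ _ _ := rfl

/-- Statement GM: the action is geometric. -/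
def StmtGM (T : TreeSpace P X) : Prop :=
  (∃ D : Set Y, IsCompact D ∧ ∀ y, ∃ n : ℤ, (P.a ^ n) y ∈ D) → IsGeometric T.Gp X

/-- Statement SI (separation by isometries): to prove something invariant for all triples,
it suffices to prove it for pairwise separated ones. -/
def StmtSI (T : TreeSpace P X) : Prop :=
  ∀ C : X → X → X → Prop, (∀ x y z, C (T.A x) (T.A y) (T.A z) ↔ C x y z) →
    (∀ x y z, C (T.S x) (T.S y) (T.S z) ↔ C x y z) →
    (∀ u v w, Red u → Red v → Red w → Sep u v → Sep v w → Sep u w →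
      ∀ y1 y2 y3, C (T.emb u y1) (T.emb v y2) (T.emb w y3)) → ∀ x y z, C x y z

end

/-! ### The Hilbert space data -/

/-- The Hilbert space part of the piece. -/
structure HData (H : Type) [NormedAddCommGroup H] [InnerProductSpace ℝ H] where
  θ : H ≃ₗᵢ[ℝ] H
  w : H
  W : Set H
  compact : IsCompact W
  convex : Convex ℝ W
  zero_mem : (0 : H) ∈ W
  w_mem : w ∈ W
  inv : ∀ x, θ x ∈ W ↔ x ∈ W
  net : ∀ M P : ℕ, ∃ ρ > (0 : ℝ), ∃ j : (Fin M → Fin P) → ℕ, ∀ x x' : Fin M → Fin P,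
    ρ ^ 2 * (hammingDist x x' : ℝ) ≤ ‖(θ ^ (j x)) w - (θ ^ (j x')) w‖ ^ 2 ∧
    ‖(θ ^ (j x)) w - (θ ^ (j x')) w‖ ^ 2 ≤ 9 * ρ ^ 2 * (hammingDist x x' : ℝ)

/-- Statement H: Hilbert space data exist. -/
def StmtH : Prop :=
  ∃ (H : Type) (_ : NormedAddCommGroup H) (_ : InnerProductSpace ℝ H), Nonempty (HData H)

/-- the radii -/
noncomputable def rad (k : ℕ) : ℝ := 1 / ((k : ℝ) + 1)

/-- the `k`-th prime -/
noncomputable def pr (k : ℕ) : ℕ := Nat.nth Nat.Prime k

/-- squared distance of the orbit points `n`, `m` -/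
noncomputable def odist (n m : ℤ) : ℝ :=
  ∑' k : ℕ, if ((pr k : ℕ) : ℤ) ∣ n - m then 0 else 2 * rad k ^ 2

/-- Statement H1: the basic Hilbert space, isometry and vector. -/
def StmtH1 : Prop :=
  ∃ (H : Type) (_ : NormedAddCommGroup H) (_ : InnerProductSpace ℝ H) (_ : CompleteSpace H)
    (θ : H ≃ₗᵢ[ℝ] H) (w : H), ∀ n m : ℤ, ‖(θ ^ n) w - (θ ^ m) w‖ ^ 2 = odist n m

/-- Statement H2: the compact convex set. -/
def StmtH2 : Prop :=
  ∀ (H : Type) [NormedAddCommGroup H] [InnerProductSpace ℝ H] [CompleteSpace H]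
    (θ : H ≃ₗᵢ[ℝ] H) (w : H), (∀ n m : ℤ, ‖(θ ^ n) w - (θ ^ m) w‖ ^ 2 = odist n m) →
    ∃ W : Set H, IsCompact W ∧ Convex ℝ W ∧ (0 : H) ∈ W ∧ w ∈ W ∧ ∀ x, θ x ∈ W ↔ x ∈ W

/-- Statement H3: Hamming cubes in the orbit. -/
def StmtH3 : Prop :=
  ∀ M P : ℕ, ∃ ρ > (0 : ℝ), ∃ j : (Fin M → Fin P) → ℕ, ∀ x x' : Fin M → Fin P,
    ρ ^ 2 * (hammingDist x x' : ℝ) ≤ odist (j x) (j x') ∧
    odist (j x) (j x') ≤ 9 * ρ ^ 2 * (hammingDist x x' : ℝ)

section

variable {H : Type} [NormedAddCommGroup H] [InnerProductSpace ℝ H]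

/-- the piece `W × ℝ` as a metric space -/
def HData.Y (D : HData H) : Type := {p : WithLp 2 (H × ℝ) // p.fst ∈ D.W}

noncomputable instance (D : HData H) : MetricSpace D.Y :=
  inferInstanceAs (MetricSpace {p : WithLp 2 (H × ℝ) // p.fst ∈ D.W})

/-- the screw motion `(x, t) ↦ (θ x, t + 1)` of `H × ℝ` -/
noncomputable def screw (θ : H ≃ₗᵢ[ℝ] H) (p : WithLp 2 (H × ℝ)) : WithLp 2 (H × ℝ) :=
  WithLp.toLp 2 (θ p.fst, p.snd + 1)

theorem screw_isometry (θ : H ≃ₗᵢ[ℝ] H) : Isometry (screw θ) := by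
  refine Isometry.of_dist_eq fun p q => ?_
  rw [WithLp.prod_dist_eq_of_L2, WithLp.prod_dist_eq_of_L2]
  simp [screw]

/-- the screw motion of the piece -/
noncomputable def HData.a (D : HData H) : D.Y ≃ᵢ D.Y where
  toFun p := ⟨screw D.θ p.1, (D.inv _).2 p.2⟩
  invFun p := ⟨WithLp.toLp 2 (D.θ.symm p.1.fst, p.1.snd - 1), by
    have := (D.inv (D.θ.symm p.1.fst)).1 (by simpa using p.2)
    simpa using this⟩
  left_inv p := by
    apply Subtype.ext
    apply (WithLp.equiv 2 (H × ℝ)).injective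
    simp [screw]
    rfl
  right_inv p := by
    apply Subtype.ext
    apply (WithLp.equiv 2 (H × ℝ)).injective
    simp [screw]
    rfl
  isometry_toFun := Isometry.of_dist_eq fun p q => (screw_isometry D.θ).dist_eq p.1 q.1

/-- the base gate -/
noncomputable def HData.o (D : HData H) : D.Y := ⟨WithLp.toLp 2 (D.w, 0), D.w_mem⟩

/-- the centre -/
noncomputable def HData.c (D : HData H) : D.Y := ⟨WithLp.toLp 2 (0, 0), D.zero_mem⟩

theorem HData.a_apply (D : HData H) (p : D.Y) : (D.a p).1 = screw D.θ p.1 := rfl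

theorem HData.a_pow_snd (D : HData H) (n : ℕ) (p : D.Y) : ((D.a ^ n) p).1.snd = p.1.snd + n := by
  induction n generalizing p with
  | zero => simp
  | succ n ih =>
    rw [pow_succ, IsometryEquiv.mul_apply, ih, D.a_apply]
    simp [screw]; ring

theorem HData.a_pow_fst (D : HData H) (n : ℕ) (p : D.Y) :
    ((D.a ^ n) p).1.fst = (D.θ ^ n) p.1.fst := by
  induction n generalizing p with
  | zero => simp
  | succ n ih =>
    rw [pow_succ, IsometryEquiv.mul_apply, ih, D.a_apply, pow_succ]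
    simp [screw]

theorem HData.a_zpow_snd (D : HData H) (n : ℤ) (p : D.Y) :
    ((D.a ^ n) p).1.snd = p.1.snd + n := by
  obtain ⟨k, rfl | rfl⟩ := n.eq_nat_or_neg
  · rw [zpow_natCast, D.a_pow_snd]; simp
  · have h := D.a_pow_snd k ((D.a ^ (-(k : ℤ))) p)
    have h2 : (D.a ^ k) ((D.a ^ (-(k : ℤ))) p) = p := by
      rw [← IsometryEquiv.mul_apply, ← zpow_natCast, ← zpow_add]; simp
    rw [h2] at h
    rw [h]; push_cast; ring

/-- the piece -/
noncomputable def HData.piece (D : HData H) : Piece D.Y where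
  a := D.a
  o := D.o
  far n := by
    have h : dist D.o ((D.a ^ n) D.o) = dist D.o.1 ((D.a ^ n) D.o).1 := rfl
    rw [h, WithLp.prod_dist_eq_of_L2, D.a_zpow_snd]
    apply Real.le_sqrt_of_sq_le
    have : dist D.o.1.snd (D.o.1.snd + (n : ℝ)) = |(n : ℝ)| := by
      rw [Real.dist_eq, abs_sub_comm, add_sub_cancel_left]
    rw [this]
    nlinarith [sq_nonneg (dist D.o.1.fst ((D.a ^ n) D.o).1.fst)]

/-- Statement Y: the piece is a proper CAT(0) space on which `a` acts cocompactly. -/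
def StmtY (D : HData H) : Prop :=
  Geodesic D.Y ∧ CN4 D.Y ∧ ProperSpace D.Y ∧
    ∃ K : Set D.Y, IsCompact K ∧ ∀ y, ∃ n : ℤ, (D.piece.a ^ n) y ∈ K

/-- the gates as vectors -/
noncomputable def HData.g (D : HData H) (n : ℕ) : WithLp 2 (H × ℝ) :=
  WithLp.toLp 2 ((D.θ ^ n) D.w, (n : ℝ))

/-- distance of the directions of the gates `n`, `m` -/
noncomputable def HData.e (D : HData H) (n m : ℕ) : ℝ :=
  ‖(1 / ‖D.g n‖) • D.g n - (1 / ‖D.g m‖) • D.g m‖

variable {X : Type} [MetricSpace X]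

/-- Statement R1: the rays through the gates of the root piece. -/
def StmtR1 (D : HData H) (T : TreeSpace D.piece X) : Prop :=
  ∃ α : ℕ → Ray (T.emb [] D.c), ∀ n m : ℕ, 1 ≤ n → 1 ≤ m → ∀ r : ℝ≥0, (r : ℝ) ≤ n → (r : ℝ) ≤ m →
    dist ((α n).1 r) ((α m).1 r) = r * D.e n m

/-- Statement R2: the asymptotics of the directions. -/
def StmtR2 (D : HData H) : Prop :=
  ∀ j j' : ℕ, Tendsto (fun N : ℕ => (N : ℝ) * D.e (N + j) (N + j')) atTop
    (𝓝 ‖(D.θ ^ j) D.w - (D.θ ^ j') D.w‖)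

end

/-- Statement R3: the integral asymptotics. -/
def StmtR3 : Prop :=
  ∀ (f : ℕ → ℝ → ℝ) (e : ℕ → ℝ) (L : ℝ),
    (∀ N, Continuous (f N)) → (∀ (N : ℕ) (r : ℝ), 0 ≤ r → 0 ≤ f N r ∧ f N r ≤ 2 * r) →
    (∀ (N : ℕ) (r : ℝ), 0 ≤ r → r ≤ (N : ℝ) → f N r = r * e N) →
    Tendsto (fun N : ℕ => (N : ℝ) * e N) atTop (𝓝 L) →
    Tendsto (fun N : ℕ => (N : ℝ) * ∫ r in Ioi (0 : ℝ), f N r * Real.exp (-r)) atTop (𝓝 L)

/-- Statement CO: the combinatorial lemma. -/
def StmtCO : Prop :=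
  ∀ (M P k : ℕ) (ι : Type) [DecidableEq ι] (U : (Fin M → Fin P) → ι), 2 * M * k < P →
    (∀ x i, (Finset.univ.image (fun a => U (Function.update x i a))).card ≤ k) →
    ∃ x x', (∀ i, x i ≠ x' i) ∧ U x = U x'

/-- Statement LI: a space with scaled copies of all Hamming cubes at arbitrarily small scales has
infinite linearly controlled dimension. -/
def StmtLI : Prop :=
  ∀ (Z : Type) [MetricSpace Z], (∀ (M P : ℕ) (ε : ℝ), 0 < ε → ∃ s > (0 : ℝ), s < ε ∧
      ∃ f : (Fin M → Fin P) → Z, ∀ x x', s ^ 2 * (hammingDist x x' : ℝ) ≤ dist (f x) (f x') ^ 2 ∧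
        dist (f x) (f x') ^ 2 ≤ 16 * s ^ 2 * (hammingDist x x' : ℝ)) →
    ∀ n : ℕ, ¬ LDimLE Z n

end R785.LD
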