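import Pool.Agent.R785.LD.Defs

/-!
Project LD, part GE: geodesics in the tree of spaces (helper179).
-/

open Set Filter Topology
open scoped NNReal

namespace R785.LD

namespace GEaux

/-- there is a geodesic from `p` to `q` -/
def J {X : Type} [MetricSpace X] (p q : X) : Prop := ∃ γ : ℝ → X, IsGeod γ p q

theorem J_refl {X : Type} [MetricSpace X] (p : X) : J p p :=
  ⟨fun _ => p, rfl, rfl, fun s _ t _ => by simp⟩

theorem J_symm {X : Type} [MetricSpace X] {p q : X} (h : J p q) : J q p := by
  obtain ⟨γ, h0, h1, h2⟩ := h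
  refine ⟨fun t => γ (1 - t), by simpa using h1, by simpa using h0, ?_⟩
  intro s hs t ht
  simp only
  rw [h2 (1 - s) ⟨by linarith [hs.2], by linarith [hs.1]⟩ (1 - t)
    ⟨by linarith [ht.2], by linarith [ht.1]⟩, dist_comm q p]
  congr 1
  rw [abs_sub_comm]
  congr 1
  ring

theorem J_map {X Z : Type} [MetricSpace X] [MetricSpace Z] {f : X → Z} (hf : Isometry f)
    {p q : X} (h : J p q) : J (f p) (f q) := by
  obtain ⟨γ, h0, h1, h2⟩ := h
  refine ⟨fun t => f (γ t), by simp [h0], by simp [h1], ?_⟩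
  intro s hs t ht
  simp only
  rw [hf.dist_eq, hf.dist_eq, h2 s hs t ht]

theorem J_equiv {X : Type} [MetricSpace X] (e : X ≃ᵢ X) {p q : X} : J (e p) (e q) ↔ J p q := by
  constructor
  · intro h
    have := J_map e.symm.isometry h
    simpa using this
  · intro h
    exact J_map e.isometry h

theorem J_concat {X : Type} [MetricSpace X] {p m q : X} (hd : dist p q = dist p m + dist m q)
    (h1 : J p m) (h2 : J m q) : J p q := by
  rcases eq_or_ne p m with hpm | hpm
  · rw [hpm]; exact h2
  rcases eq_or_ne m q with hmq | hmq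
  · rw [← hmq]; exact h1
  have a0 : 0 < dist p m := dist_pos.2 hpm
  have b0 : 0 < dist m q := dist_pos.2 hmq
  set a : ℝ := dist p m with ha
  set b : ℝ := dist m q with hb
  set d : ℝ := dist p q with hdd
  have d0 : 0 < d := by linarith
  set c : ℝ := a / d with hc
  have c0 : 0 < c := by positivity
  have hca : c * d = a := by rw [hc]; field_simp
  have c1 : c < 1 := by rw [hc, div_lt_one d0]; linarith
  have c1' : 0 < 1 - c := by linarith
  have hcb : (1 - c) * d = b := by nlinarith
  obtain ⟨γ1, u0, u1, u2⟩ := h1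
  obtain ⟨γ2, v0, v1, v2⟩ := h2
  let γ : ℝ → X := fun t => if t ≤ c then γ1 (t / c) else γ2 ((t - c) / (1 - c))
  have g1 : ∀ t, t ≤ c → γ t = γ1 (t / c) := fun t ht => by simp only [γ, ht, if_true]
  have g2 : ∀ t, c < t → γ t = γ2 ((t - c) / (1 - c)) := fun t ht => by
    simp only [γ, not_le.2 ht, if_false]
  have i1 : ∀ t, 0 ≤ t → t ≤ c → t / c ∈ Icc (0 : ℝ) 1 := fun t h0 h1 =>
    ⟨by positivity, (div_le_one c0).2 h1⟩
  have i2 : ∀ t, c < t → t ≤ 1 → (t - c) / (1 - c) ∈ Icc (0 : ℝ) 1 := fun t h0 h1 =>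
    ⟨div_nonneg (by linarith) c1'.le, (div_le_one c1').2 (by linarith)⟩
  have e0 : γ 0 = p := by rw [g1 0 c0.le, zero_div, u0]
  have e1 : γ 1 = q := by rw [g2 1 c1, div_self c1'.ne', v1]
  have k11 : ∀ s t, 0 ≤ s → s ≤ c → 0 ≤ t → t ≤ c → dist (γ s) (γ t) = |s - t| * d := by
    intro s t hs hsc ht htc
    rw [g1 s hsc, g1 t htc, u2 _ (i1 s hs hsc) _ (i1 t ht htc), ← sub_div, abs_div,
      abs_of_pos c0, ← ha, ← hca]
    field_simp
  have k22 : ∀ s t, c < s → s ≤ 1 → c < t → t ≤ 1 → dist (γ s) (γ t) = |s - t| * d := by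
    intro s t hs hsc ht htc
    rw [g2 s hs, g2 t ht, v2 _ (i2 s hs hsc) _ (i2 t ht htc), ← sub_div, abs_div,
      abs_of_pos c1', ← hb, ← hcb]
    rw [show s - c - (t - c) = s - t by ring]
    field_simp
  have ec : γ c = m := by rw [g1 c le_rfl, div_self c0.ne', u1]
  have km2 : ∀ t, c < t → t ≤ 1 → dist m (γ t) = (t - c) * d := by
    intro t ht ht1
    have h0 := v2 0 ⟨le_rfl, zero_le_one⟩ _ (i2 t ht ht1)
    rw [v0, zero_sub, abs_neg, abs_of_nonneg (i2 t ht ht1).1] at h0
    rw [g2 t ht, h0, ← hb, ← hcb]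
    field_simp
  have k12 : ∀ s t, 0 ≤ s → s ≤ c → c < t → t ≤ 1 → dist (γ s) (γ t) = (t - s) * d := by
    intro s t hs hsc ht ht1
    apply le_antisymm
    · calc dist (γ s) (γ t) ≤ dist (γ s) m + dist m (γ t) := dist_triangle _ _ _
        _ = (c - s) * d + (t - c) * d := by
            rw [km2 t ht ht1]
            congr 1
            rw [← ec, k11 s c hs hsc c0.le le_rfl, abs_sub_comm, abs_of_nonneg (by linarith)]
        _ = (t - s) * d := by ring
    · have h1 : dist p (γ s) = s * d := by
        rw [← e0, k11 0 s le_rfl c0.le hs hsc, zero_sub, abs_neg, abs_of_nonneg hs]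
      have h2 : dist (γ t) q = (1 - t) * d := by
        rw [← e1, k22 t 1 ht ht1 c1 le_rfl, abs_sub_comm, abs_of_nonneg (by linarith)]
      have h3 : dist p q ≤ dist p (γ s) + dist (γ s) (γ t) + dist (γ t) q := dist_triangle4 _ _ _ _
      rw [h1, h2] at h3
      nlinarith
  refine ⟨γ, e0, e1, ?_⟩
  intro s hs t ht
  rcases le_or_gt s c with hsc | hsc
  · rcases le_or_gt t c with htc | htc
    · exact k11 s t hs.1 hsc ht.1 htc
    · rw [k12 s t hs.1 hsc htc ht.2, abs_sub_comm, abs_of_nonneg (by linarith)]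
  · rcases le_or_gt t c with htc | htc
    · rw [dist_comm, k12 t s ht.1 htc hsc hs.2, abs_of_nonneg (by linarith)]
    · exact k22 s t hsc hs.2 htc ht.2

variable {Y : Type} [MetricSpace Y] {P : Piece Y} {X : Type} [MetricSpace X]

theorem red_nil : Red [] := fun n hn => by simp at hn

theorem red_cons_congr {n m : ℤ} {l : List ℤ} (h : Red (n :: l)) : Red (m :: l) := h

theorem red_tail {n : ℤ} {l : List ℤ} (h : Red (n :: l)) : Red l := by
  intro m hm
  exact h m (List.mem_of_mem_tail hm)

theorem gate_zero (P : Piece Y) : P.gate 0 = P.o := by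
  unfold Piece.gate
  rw [zpow_zero]
  rfl

theorem gate_succ (P : Piece Y) (n : ℤ) : P.gate (n + 1) = P.a (P.gate n) := by
  unfold Piece.gate
  rw [add_comm, zpow_add, zpow_one]
  rfl

theorem sep_nil (u : List ℤ) : Sep u [] := by
  rintro ⟨n, l, l', -, h⟩
  exact absurd h (by simp)

theorem toRoot (T : TreeSpace P X) (hY : Geodesic Y) : ∀ (k : ℕ) (u : List ℤ), u.length = k →
    Red u → ∀ y, J (T.emb u y) (T.emb [] (P.rp u y)) := by
  intro k
  induction k with
  | zero =>
    intro u hu hr y
    have : u = [] := List.length_eq_zero_iff.1 hu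
    subst this
    exact J_refl _
  | succ k ih =>
    intro u hu hr y
    cases u with
    | nil => simp at hu
    | cons n l =>
      have hl : l.length = k := by simpa using hu
      have hrl : Red l := red_tail hr
      change J (T.emb (n :: l) y) (T.emb [] (P.gate n))
      have hstep : ∀ j : ℤ, J (T.emb ((j + 1) :: l) y) (T.emb [] (P.gate (j + 1))) ↔
          J (T.emb (j :: l) y) (T.emb [] (P.gate j)) := by
        intro j
        rw [gate_succ, ← T.A_root, ← T.A_cons j l (red_cons_congr hr), J_equiv]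
      have hzero : J (T.emb ((0 : ℤ) :: l) y) (T.emb [] (P.gate 0)) := by
        rw [gate_zero, ← J_equiv T.S, T.S_zero l (red_cons_congr hr), T.S_root, T.glue]
        -- J (emb l y) (emb [] o)
        have hY2 : J (T.emb [] (P.rp l y)) (T.emb [] P.o) :=
          J_map (T.isom [] red_nil) (hY (P.rp l y) P.o)
        refine J_concat ?_ (ih l hl hrl y) hY2
        have h1 := T.sep l [] hrl red_nil (sep_nil l) y P.o
        rw [h1, (T.isom [] red_nil).dist_eq (P.rp l y) P.o]
        change _ + dist (P.rp l y) P.o + dist (T.emb [] P.o) (T.emb [] P.o) = _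
        rw [dist_self, add_zero]
      induction n using Int.induction_on with
      | zero => exact hzero
      | succ i ihn => exact (hstep i).2 (ihn (by simpa using hl) (red_cons_congr hr))
      | pred i ihn =>
        have h2 := hstep (-(i : ℤ) - 1)
        rw [sub_add_cancel] at h2
        exact h2.1 (ihn (by simpa using hl) (red_cons_congr hr))

theorem sepJ (T : TreeSpace P X) (hY : Geodesic Y) {u v : List ℤ} (hu : Red u) (hv : Red v)
    (hs : Sep u v) (y z : Y) : J (T.emb u y) (T.emb v z) := by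
  have h1 := toRoot T hY u.length u rfl hu y
  have h2 := toRoot T hY v.length v rfl hv z
  have h3 : J (T.emb [] (P.rp u y)) (T.emb [] (P.rp v z)) :=
    J_map (T.isom [] red_nil) (hY _ _)
  have e1 := T.sep u [] hu red_nil (sep_nil u) y (P.rp v z)
  have e2 := T.sep u v hu hv hs y z
  have e3 : P.rp [] (P.rp v z) = P.rp v z := rfl
  rw [e3, dist_self, add_zero] at e1
  have e4 := (T.isom [] red_nil).dist_eq (P.rp u y) (P.rp v z)
  have h4 : J (T.emb u y) (T.emb [] (P.rp v z)) := by
    refine J_concat ?_ h1 h3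
    rw [e1, e4]
  refine J_concat ?_ h4 (J_symm h2)
  rw [e2, e1]

end GEaux

open GEaux in
theorem stmtGE {Y : Type} [MetricSpace Y] {P : Piece Y} {X : Type} [MetricSpace X]
    (T : TreeSpace P X) (h : StmtSI T) : StmtGE T := by
  intro hY p q
  have := h (fun x y _ => J x y) (fun x y _ => J_equiv T.A) (fun x y _ => J_equiv T.S)
    (fun u v w hu hv _ huv _ _ y1 y2 _ => sepJ T hY hu hv huv y1 y2) p q q
  exact this

end R785.LD
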