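import Pool.Agent.R785.LD.Defs

/-!
Project LD, part GM: the group acts geometrically (helper850).
-/

open Set Filter Topology

namespace R785.LD

namespace GMx

variable {Y : Type} [MetricSpace Y] {P : Piece Y} {X : Type} [MetricSpace X]

theorem red_cons_iff (m n : ℤ) (l : List ℤ) : Red (m :: l) ↔ Red (n :: l) := Iff.rfl

theorem red_nil : Red [] := by
  intro n hn
  simp at hn

theorem red_tail {m : ℤ} {l : List ℤ} (h : Red (m :: l)) : Red l := by
  intro n hn
  exact h n (List.mem_of_mem_tail hn)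

theorem red_zero_cons {m : ℤ} {l : List ℤ} (hm : m ≠ 0) (h : Red (m :: l)) :
    Red (0 :: m :: l) := by
  intro n hn
  simp only [List.tail_cons, List.mem_cons] at hn
  rcases hn with rfl | hn
  · exact hm
  · exact h n hn

variable (T : TreeSpace P X)

/-! ### the action of the powers of `A` -/

theorem Ainv_root (y : Y) : (T.A⁻¹) (T.emb [] y) = T.emb [] ((P.a⁻¹) y) := by
  have h : T.A (T.emb [] ((P.a⁻¹) y)) = T.emb [] y := by
    rw [T.A_root, IsometryEquiv.apply_inv_self]
  rw [← h, IsometryEquiv.inv_apply_self]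

theorem Ainv_cons (n : ℤ) (l : List ℤ) (hl : Red (n :: l)) (y : Y) :
    (T.A⁻¹) (T.emb (n :: l) y) = T.emb ((n - 1) :: l) y := by
  have h : T.A (T.emb ((n - 1) :: l) y) = T.emb (n :: l) y := by
    rw [T.A_cons (n - 1) l hl, sub_add_cancel]
  rw [← h, IsometryEquiv.inv_apply_self]

theorem Apow_root (k : ℤ) : ∀ y : Y, (T.A ^ k) (T.emb [] y) = T.emb [] ((P.a ^ k) y) := by
  induction k using Int.induction_on with
  | zero => intro y; rfl
  | succ k ih =>
    intro y
    rw [zpow_add_one, zpow_add_one, IsometryEquiv.mul_apply, IsometryEquiv.mul_apply, T.A_root, ih]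
  | pred k ih =>
    intro y
    rw [zpow_sub_one, zpow_sub_one, IsometryEquiv.mul_apply, IsometryEquiv.mul_apply,
      Ainv_root, ih]

theorem Apow_cons (k : ℤ) : ∀ (n : ℤ) (l : List ℤ), Red (n :: l) → ∀ y : Y,
    (T.A ^ k) (T.emb (n :: l) y) = T.emb ((n + k) :: l) y := by
  induction k using Int.induction_on with
  | zero =>
    intro n l _ y
    rw [add_zero]
    rfl
  | succ k ih =>
    intro n l hl y
    rw [zpow_add_one, IsometryEquiv.mul_apply, T.A_cons n l hl, ih (n + 1) l hl,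
      show n + 1 + (k : ℤ) = n + (k + 1) by ring]
  | pred k ih =>
    intro n l hl y
    rw [zpow_sub_one, IsometryEquiv.mul_apply, Ainv_cons T n l hl, ih (n - 1) l hl,
      show n - 1 + (-(k : ℤ)) = n + (-(k : ℤ) - 1) by ring]

/-- `S` on a piece whose address has no zero letters -/
theorem S_apply (l : List ℤ) (hl : Red (0 :: l)) (y : Y) : T.S (T.emb l y) = T.emb (0 :: l) y := by
  cases l with
  | nil => exact T.S_root y
  | cons m l =>
    have hm : m ≠ 0 := hl m (by simp)
    exact T.S_ne m l (red_tail hl) hm y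

theorem S_S (x : X) : T.S (T.S x) = x := by
  obtain ⟨u, hu, y, rfl⟩ := T.surj x
  cases u with
  | nil => rw [T.S_root, T.S_zero [] (by intro n hn; simp at hn)]
  | cons n l =>
    by_cases hn : n = 0
    · subst hn
      rw [T.S_zero l hu, S_apply T l hu]
    · rw [T.S_ne n l hu hn, T.S_zero (n :: l) (red_zero_cons hn hu)]

theorem S_mul_S : T.S * T.S = 1 := by
  ext x
  exact S_S T x

theorem S_inv : T.S⁻¹ = T.S := inv_eq_of_mul_eq_one_left (S_mul_S T)

/-! ### normal forms -/

/-- the elements of the group -/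
noncomputable def gel : List ℤ → ℤ → (X ≃ᵢ X)
  | [], n => T.A ^ n
  | m :: u, n => T.A ^ m * T.S * gel u n

theorem A_mul_gel (u : List ℤ) (n : ℤ) (hu : Red u) (k : ℤ) :
    ∃ v m, Red v ∧ T.A ^ k * gel T u n = gel T v m := by
  cases u with
  | nil => exact ⟨[], k + n, red_nil, by simp only [gel]; rw [zpow_add]⟩
  | cons a l =>
    refine ⟨(k + a) :: l, n, hu, ?_⟩
    simp only [gel]
    rw [zpow_add]
    simp only [mul_assoc]

theorem S_mul_gel (u : List ℤ) (n : ℤ) (hu : Red u) :
    ∃ v m, Red v ∧ T.S * gel T u n = gel T v m := by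
  cases u with
  | nil =>
    refine ⟨[0], n, by intro n hn; simp at hn, ?_⟩
    simp only [gel]
    rw [zpow_zero, one_mul]
  | cons a l =>
    by_cases ha : a = 0
    · subst ha
      refine ⟨l, n, red_tail hu, ?_⟩
      simp only [gel]
      rw [zpow_zero, one_mul, ← mul_assoc, S_mul_S, one_mul]
    · refine ⟨0 :: a :: l, n, red_zero_cons ha hu, ?_⟩
      simp only [gel]
      rw [zpow_zero, one_mul]

theorem exists_gel (g : X ≃ᵢ X) (hg : g ∈ T.Gp) : ∃ u n, Red u ∧ g = gel T u n := by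
  unfold TreeSpace.Gp at hg
  induction hg using Subgroup.closure_induction_left with
  | one => exact ⟨[], 0, red_nil, by simp only [gel]; rw [zpow_zero]⟩
  | mul_left x hx y hy ih =>
    obtain ⟨u, n, hu, rfl⟩ := ih
    rcases hx with rfl | hx
    · obtain ⟨v, m, hv, h⟩ := A_mul_gel T u n hu 1
      exact ⟨v, m, hv, by rw [← h, zpow_one]⟩
    · rw [Set.mem_singleton_iff] at hx
      subst hx
      exact S_mul_gel T u n hu
  | inv_mul_cancel x hx y hy ih =>
    obtain ⟨u, n, hu, rfl⟩ := ih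
    rcases hx with rfl | hx
    · obtain ⟨v, m, hv, h⟩ := A_mul_gel T u n hu (-1)
      exact ⟨v, m, hv, by rw [← h, zpow_neg_one]⟩
    · rw [Set.mem_singleton_iff] at hx
      subst hx
      rw [S_inv]
      exact S_mul_gel T u n hu

theorem gel_mem (u : List ℤ) (n : ℤ) : gel T u n ∈ T.Gp := by
  have hA : T.A ∈ T.Gp := Subgroup.subset_closure (by simp)
  have hS : T.S ∈ T.Gp := Subgroup.subset_closure (by simp)
  induction u with
  | nil => exact Subgroup.zpow_mem _ hA n
  | cons m u ih => exact Subgroup.mul_mem _ (Subgroup.mul_mem _ (Subgroup.zpow_mem _ hA m) hS) ih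

theorem gel_apply (u : List ℤ) (hu : Red u) (n : ℤ) (y : Y) :
    gel T u n (T.emb [] y) = T.emb u ((P.a ^ n) y) := by
  induction u with
  | nil => exact Apow_root T n y
  | cons m u ih =>
    simp only [gel]
    rw [IsometryEquiv.mul_apply, IsometryEquiv.mul_apply, ih (red_tail hu), S_apply T u hu,
      Apow_cons T m 0 u hu, zero_add]

/-! ### distances -/

theorem dist_cons (m : ℤ) (l : List ℤ) (hl : Red (m :: l)) (y : Y) :
    dist (T.emb (m :: l) y) (T.emb [] P.o) =
      dist (T.emb l y) (T.emb [] P.o) + dist (P.gate m) P.o := by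
  have h1 := T.sep (m :: l) [] hl red_nil (by rintro ⟨n, l1, l2, -, h⟩; simp at h) y P.o
  have h2 : dist (T.emb (m :: l) y) (T.emb [] (P.gate m)) =
      dist (T.emb l y) (T.emb [] P.o) := by
    have e1 : T.emb (m :: l) y = (T.A ^ m) (T.S (T.emb l y)) := by
      rw [S_apply T l hl, Apow_cons T m 0 l hl, zero_add]
    have e2 : T.emb [] (P.gate m) = (T.A ^ m) (T.S (T.emb [] P.o)) := by
      rw [T.S_root, T.glue, Apow_root]
      rfl
    rw [e1, e2, (T.A ^ m).isometry.dist_eq, T.S.isometry.dist_eq]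
  simp only [Piece.rp, dist_self, add_zero] at h1
  rw [h1, h2]

theorem dist_lower (u : List ℤ) (hu : Red u) (y : Y) :
    (((u.map Int.natAbs).sum : ℕ) : ℝ) + dist y P.o ≤ dist (T.emb u y) (T.emb [] P.o) := by
  induction u with
  | nil =>
    rw [(T.isom [] red_nil).dist_eq]
    simp
  | cons m l ih =>
    rw [dist_cons T m l hu]
    have h1 := P.far m
    have h2 := ih (red_tail hu)
    rw [List.map_cons, List.sum_cons, Nat.cast_add]
    have h3 : ((m.natAbs : ℕ) : ℝ) = |(m : ℝ)| := by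
      rw [Nat.cast_natAbs, Int.cast_abs]
    rw [h3]
    rw [dist_comm] at h1
    have h4 : dist (P.gate m) P.o = dist ((P.a ^ m) P.o) P.o := rfl
    rw [h4]
    linarith

theorem finite_lists (N K : ℕ) :
    {l : List ℤ | l.length ≤ N ∧ ∀ x ∈ l, x.natAbs ≤ K}.Finite := by
  induction N with
  | zero =>
    refine (Set.finite_singleton ([] : List ℤ)).subset ?_
    rintro l ⟨h1, -⟩
    exact List.length_eq_zero_iff.1 (Nat.le_zero.1 h1)
  | succ N ih =>
    have hI : (Set.Icc (-(K : ℤ)) K).Finite := Set.finite_Icc _ _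
    refine ((Set.finite_singleton ([] : List ℤ)).union (hI.image2 List.cons ih)).subset ?_
    rintro l ⟨h1, h2⟩
    cases l with
    | nil => exact Or.inl rfl
    | cons a l =>
      right
      refine ⟨a, ?_, l, ⟨by simpa using h1, fun x hx => h2 x (List.mem_cons_of_mem _ hx)⟩, rfl⟩
      have := h2 a (by simp)
      rw [Set.mem_Icc]
      omega

theorem length_le (l : List ℤ) (h : ∀ x ∈ l, x ≠ 0) : l.length ≤ (l.map Int.natAbs).sum := by
  induction l with
  | nil => simp
  | cons a l ih =>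
    have h1 := ih fun x hx => h x (List.mem_cons_of_mem _ hx)
    have h2 := h a (by simp)
    rw [List.length_cons, List.map_cons, List.sum_cons]
    omega

theorem le_sum (l : List ℤ) : ∀ x ∈ l, x.natAbs ≤ (l.map Int.natAbs).sum := by
  intro x hx
  exact List.single_le_sum (fun _ _ => Nat.zero_le _) _ (List.mem_map_of_mem hx)

theorem finite_small (R : ℝ) :
    {g : T.Gp | dist (g.1 (T.emb [] P.o)) (T.emb [] P.o) ≤ R}.Finite := by
  obtain ⟨K, hK⟩ := exists_nat_ge R
  have hfin : {q : List ℤ × ℤ | q.1 ∈ {l : List ℤ | l.length ≤ K + 1 ∧ ∀ x ∈ l, x.natAbs ≤ K} ∧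
      q.2 ∈ Set.Icc (-(K : ℤ)) K}.Finite :=
    (finite_lists (K + 1) K).prod (Set.finite_Icc (-(K : ℤ)) K)
  have himg := hfin.image (fun q => gel T q.1 q.2)
  refine Set.Finite.subset (himg.preimage (Subtype.val_injective.injOn)) ?_
  intro g hg
  obtain ⟨u, n, hu, hgel⟩ := exists_gel T g.1 g.2
  have h1 : dist (g.1 (T.emb [] P.o)) (T.emb [] P.o) ≤ R := hg
  rw [hgel, gel_apply T u hu] at h1
  have h2 := dist_lower T u hu ((P.a ^ n) P.o)
  have h3 := P.far n
  rw [dist_comm] at h3
  have h4 : (((u.map Int.natAbs).sum : ℕ) : ℝ) + |(n : ℝ)| ≤ K := by linarith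
  have h5 : (u.map Int.natAbs).sum + n.natAbs ≤ K := by
    have h6 : ((n.natAbs : ℕ) : ℝ) = |(n : ℝ)| := by
      rw [Nat.cast_natAbs, Int.cast_abs]
    rw [← h6] at h4
    exact_mod_cast h4
  refine ⟨(u, n), ⟨⟨?_, fun x hx => ?_⟩, ?_⟩, hgel.symm⟩
  · cases u with
    | nil => simp
    | cons a l =>
      have h7 := length_le l fun x hx => hu x hx
      rw [List.map_cons, List.sum_cons] at h5
      change (a :: l).length ≤ K + 1
      rw [List.length_cons]
      omega
  · have := le_sum u x hx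
    change x.natAbs ≤ K
    omega
  · change n ∈ Set.Icc (-(K : ℤ)) K
    rw [Set.mem_Icc]
    omega

end GMx

variable {Y : Type} [MetricSpace Y] {P : Piece Y} {X : Type} [MetricSpace X]

theorem stmtGM (T : TreeSpace P X) : StmtGM T := by
  rintro ⟨D, hD, hDy⟩
  refine ⟨fun g => g.1.isometry, fun K hK => ?_, ?_⟩
  · obtain ⟨R, hR⟩ := hK.isBounded.subset_closedBall (T.emb [] P.o)
    refine (GMx.finite_small T (R + R)).subset ?_
    rintro g ⟨z, ⟨x, hx, hxz⟩, hz⟩
    have h1 := hR hx
    have h2 := hR hz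
    rw [Metric.mem_closedBall] at h1 h2
    have hxz' : g.1 x = z := hxz
    change dist (g.1 (T.emb [] P.o)) (T.emb [] P.o) ≤ R + R
    calc dist (g.1 (T.emb [] P.o)) (T.emb [] P.o)
        ≤ dist (g.1 (T.emb [] P.o)) (g.1 x) + dist (g.1 x) (T.emb [] P.o) := dist_triangle _ _ _
      _ = dist x (T.emb [] P.o) + dist z (T.emb [] P.o) := by
        rw [g.1.isometry.dist_eq, hxz', dist_comm (T.emb [] P.o) x]
      _ ≤ R + R := add_le_add h1 h2
  · refine ⟨T.emb [] '' D, hD.image (T.isom [] GMx.red_nil).continuous, fun x => ?_⟩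
    obtain ⟨u, hu, y, rfl⟩ := T.surj x
    obtain ⟨n, hn⟩ := hDy y
    refine ⟨⟨(GMx.gel T u (-n))⁻¹, Subgroup.inv_mem _ (GMx.gel_mem T u (-n))⟩, ?_⟩
    refine ⟨(P.a ^ n) y, hn, ?_⟩
    change T.emb [] ((P.a ^ n) y) = (GMx.gel T u (-n))⁻¹ (T.emb u y)
    have h1 := GMx.gel_apply T u hu (-n) ((P.a ^ n) y)
    rw [← IsometryEquiv.mul_apply, ← zpow_add, neg_add_cancel, zpow_zero] at h1
    have h2 : T.emb u ((1 : Y ≃ᵢ Y) y) = T.emb u y := rfl
    rw [h2] at h1
    rw [← h1, IsometryEquiv.inv_apply_self]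

end R785.LD
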