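import Pool.Agent.R785.LD.Defs

/-!
Project LD, part H1: the Hilbert space, the isometry and the vector.
-/

set_option autoImplicit false

open Set Filter Topology
open scoped NNReal ENNReal

namespace R785.LD

namespace H1x

/-- index set of the coordinates -/
abbrev I : Type := Σ k : ℕ, ZMod (pr k)

/-- the Hilbert space -/
abbrev HH : Type := lp (fun _ : I => ℝ) 2

theorem memlp_comp (e : I ≃ I) (f : HH) : Memℓp (fun i : I => (f : I → ℝ) (e i)) 2 := by
  have h := lp.memℓp f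
  rw [memℓp_gen_iff (by norm_num)] at h ⊢
  exact (e.summable_iff (f := fun i : I => ‖(f : I → ℝ) i‖ ^ (2 : ℝ≥0∞).toReal)).2 h

/-- permutation of the coordinates -/
noncomputable def pm (e : I ≃ I) : HH ≃ₗᵢ[ℝ] HH where
  toFun f := ⟨fun i => (f : I → ℝ) (e i), memlp_comp e f⟩
  invFun f := ⟨fun i => (f : I → ℝ) (e.symm i), memlp_comp e.symm f⟩
  map_add' f g := by
    apply lp.ext
    funext i
    rfl
  map_smul' c f := by
    apply lp.ext
    funext i
    rfl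
  left_inv f := by
    apply lp.ext
    funext i
    simp
  right_inv f := by
    apply lp.ext
    funext i
    simp
  norm_map' f := by
    rw [lp.norm_eq_tsum_rpow (by norm_num), lp.norm_eq_tsum_rpow (by norm_num)]
    congr 1
    exact e.tsum_eq (fun i : I => ‖(f : I → ℝ) i‖ ^ (2 : ℝ≥0∞).toReal)

theorem pm_apply (e : I ≃ I) (f : HH) (i : I) : ((pm e f : HH) : I → ℝ) i = (f : I → ℝ) (e i) :=
  rfl

/-- the shift -/
noncomputable def sh : I ≃ I := Equiv.sigmaCongrRight fun k => Equiv.subRight (1 : ZMod (pr k))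

/-- the isometry -/
noncomputable def th : HH ≃ₗᵢ[ℝ] HH := pm sh

theorem th_apply (f : HH) (k : ℕ) (j : ZMod (pr k)) :
    ((th f : HH) : I → ℝ) ⟨k, j⟩ = (f : I → ℝ) ⟨k, j - 1⟩ := rfl

theorem th_inv_apply (f : HH) (k : ℕ) (j : ZMod (pr k)) :
    (((th⁻¹ : HH ≃ₗᵢ[ℝ] HH) f : HH) : I → ℝ) ⟨k, j⟩ = (f : I → ℝ) ⟨k, j + 1⟩ := by
  have h : th ((th⁻¹ : HH ≃ₗᵢ[ℝ] HH) f) = f := by
    change (th * th⁻¹) f = f
    rw [mul_inv_cancel]
    rfl
  have h2 := th_apply ((th⁻¹ : HH ≃ₗᵢ[ℝ] HH) f) k (j + 1)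
  rw [h] at h2
  rw [h2]
  simp

theorem th_zpow_apply (n : ℤ) : ∀ (f : HH) (k : ℕ) (j : ZMod (pr k)),
    (((th ^ n : HH ≃ₗᵢ[ℝ] HH) f : HH) : I → ℝ) ⟨k, j⟩ = (f : I → ℝ) ⟨k, j - (n : ZMod (pr k))⟩ := by
  induction n using Int.induction_on with
  | zero =>
    intro f k j
    simp
  | succ n ih =>
    intro f k j
    rw [zpow_add_one]
    change (((th ^ (n : ℤ) : HH ≃ₗᵢ[ℝ] HH) (th f) : HH) : I → ℝ) ⟨k, j⟩ = _
    have he : j - ((n : ℤ) : ZMod (pr k)) - 1 = j - (((n : ℤ) + 1 : ℤ) : ZMod (pr k)) := by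
      push_cast
      ring
    rw [ih, th_apply, he]
  | pred n ih =>
    intro f k j
    rw [zpow_sub_one]
    change (((th ^ (-(n : ℤ)) : HH ≃ₗᵢ[ℝ] HH) ((th⁻¹ : HH ≃ₗᵢ[ℝ] HH) f) : HH) : I → ℝ) ⟨k, j⟩ = _
    have he : j - ((-(n : ℤ) : ℤ) : ZMod (pr k)) + 1 =
        j - ((-(n : ℤ) - 1 : ℤ) : ZMod (pr k)) := by
      push_cast
      ring
    rw [ih, th_inv_apply, he]

theorem summable_rad : Summable fun k : ℕ => rad k ^ 2 := by
  have h : Summable fun n : ℕ => 1 / ((n : ℝ) + 1) ^ 2 := by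
    have := (summable_nat_add_iff (f := fun n : ℕ => 1 / (n : ℝ) ^ 2) 1).2
      (Real.summable_one_div_nat_pow.2 (by norm_num))
    simpa using this
  refine h.congr fun k => ?_
  simp [rad]

/-- the vector, as a function -/
noncomputable def wf (i : I) : ℝ := if i.2 = 0 then rad i.1 else 0

theorem memlp_wf : Memℓp wf 2 := by
  rw [memℓp_gen_iff (by norm_num)]
  have hinj : Function.Injective (fun k : ℕ => (⟨k, 0⟩ : I)) := by
    intro a b hab
    exact congrArg Sigma.fst hab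
  refine (hinj.summable_iff ?_).1 ?_
  · rintro ⟨k, j⟩ hj
    have hj0 : j ≠ 0 := by
      rintro rfl
      exact hj ⟨k, rfl⟩
    simp [wf, hj0]
  · refine summable_rad.congr fun k => ?_
    simp [wf, sq_abs]

/-- the vector -/
noncomputable def ww : HH := ⟨wf, memlp_wf⟩

theorem ww_apply (k : ℕ) (j : ZMod (pr k)) : (ww : I → ℝ) ⟨k, j⟩ = if j = 0 then rad k else 0 := rfl

theorem fiber (k : ℕ) (n m : ℤ) :
    (∑' j : ZMod (pr k), ((if j = (n : ZMod (pr k)) then rad k else 0) -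
      (if j = (m : ZMod (pr k)) then rad k else 0)) ^ 2) =
    if ((pr k : ℕ) : ℤ) ∣ n - m then 0 else 2 * rad k ^ 2 := by
  have hiff : ((m : ZMod (pr k)) = (n : ZMod (pr k))) ↔ ((pr k : ℕ) : ℤ) ∣ n - m :=
    ZMod.intCast_eq_intCast_iff_dvd_sub m n (pr k)
  by_cases h : ((pr k : ℕ) : ℤ) ∣ n - m
  · rw [if_pos h]
    have h2 := hiff.2 h
    simp [h2]
  · rw [if_neg h]
    have h2 : (m : ZMod (pr k)) ≠ (n : ZMod (pr k)) := fun hh => h (hiff.1 hh)
    have hfun : (fun j : ZMod (pr k) => ((if j = (n : ZMod (pr k)) then rad k else 0) -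
        (if j = (m : ZMod (pr k)) then rad k else 0)) ^ 2) =
        fun j => (if j = (n : ZMod (pr k)) then rad k ^ 2 else 0) +
          (if j = (m : ZMod (pr k)) then rad k ^ 2 else 0) := by
      funext j
      by_cases hn : j = (n : ZMod (pr k))
      · have hm : j ≠ (m : ZMod (pr k)) := by
          rintro rfl
          exact h2 hn
        rw [if_pos hn, if_neg hm, if_pos hn, if_neg hm]
        ring
      · rw [if_neg hn, if_neg hn]
        by_cases hm : j = (m : ZMod (pr k))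
        · rw [if_pos hm, if_pos hm]
          ring
        · rw [if_neg hm, if_neg hm]
          ring
    rw [hfun, Summable.tsum_add (hasSum_ite_eq _ _).summable (hasSum_ite_eq _ _).summable,
      tsum_ite_eq, tsum_ite_eq]
    ring

theorem norm_sub (n m : ℤ) :
    ‖(th ^ n : HH ≃ₗᵢ[ℝ] HH) ww - (th ^ m : HH ≃ₗᵢ[ℝ] HH) ww‖ ^ 2 = odist n m := by
  set v : HH := (th ^ n : HH ≃ₗᵢ[ℝ] HH) ww - (th ^ m : HH ≃ₗᵢ[ℝ] HH) ww with hv
  have h1 : ‖v‖ ^ 2 = ∑' i : I, ‖(v : I → ℝ) i‖ ^ 2 := by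
    have := lp.norm_rpow_eq_tsum (p := 2) (by norm_num) v
    simpa using this
  have hsum : Summable fun i : I => ‖(v : I → ℝ) i‖ ^ 2 := by
    have := (memℓp_gen_iff (p := 2) (by norm_num)).1 (lp.memℓp v)
    simpa using this
  have hva : ∀ (k : ℕ) (j : ZMod (pr k)), (v : I → ℝ) ⟨k, j⟩ =
      (if j = (n : ZMod (pr k)) then rad k else 0) -
      (if j = (m : ZMod (pr k)) then rad k else 0) := by
    intro k j
    have h2 : (v : I → ℝ) ⟨k, j⟩ = (((th ^ n : HH ≃ₗᵢ[ℝ] HH) ww : HH) : I → ℝ) ⟨k, j⟩ -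
        (((th ^ m : HH ≃ₗᵢ[ℝ] HH) ww : HH) : I → ℝ) ⟨k, j⟩ := rfl
    rw [h2, th_zpow_apply, th_zpow_apply, ww_apply, ww_apply]
    simp only [sub_eq_zero]
  rw [h1, hsum.tsum_sigma]
  unfold odist
  congr 1
  funext k
  rw [← fiber k n m]
  congr 1
  funext j
  rw [hva, Real.norm_eq_abs, sq_abs]

end H1x

/-- Statement H1. -/
theorem stmtH1 : StmtH1 :=
  ⟨H1x.HH, inferInstance, inferInstance, inferInstance, H1x.th, H1x.ww, H1x.norm_sub⟩

end R785.LD
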