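import Pool.Agent.R785.LD.Defs

/-!
Project LD: statement H2, the compact convex set.
-/

open Set Filter Topology
open scoped NNReal

namespace R785.LD

namespace H2b

theorem summ : Summable (fun k : ℕ => 2 * rad k ^ 2) := by
  have h : Summable (fun k : ℕ => 1 / ((k : ℝ) + 1) ^ 2) := by
    have := (summable_nat_add_iff (f := fun n : ℕ => 1 / (n : ℝ) ^ 2) 1).2
      (Real.summable_one_div_nat_pow.2 (by norm_num))
    simpa using this
  have := h.mul_left 2
  refine this.congr fun k => ?_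
  unfold rad
  rw [div_pow, one_pow]

theorem pr_dvd_prod {K k : ℕ} (h : k < K) : ((pr k : ℕ) : ℤ) ∣ ((∏ i ∈ Finset.range K, pr i : ℕ) : ℤ) :=
  Int.natCast_dvd_natCast.2 (Finset.dvd_prod_of_mem _ (Finset.mem_range.2 h))

theorem odist_le {K : ℕ} {n m : ℤ}
    (h : ((∏ i ∈ Finset.range K, pr i : ℕ) : ℤ) ∣ n - m) :
    odist n m ≤ ∑' k : ℕ, 2 * rad (k + K) ^ 2 := by
  unfold odist
  have hs : Summable (fun k : ℕ => if ((pr k : ℕ) : ℤ) ∣ n - m then (0 : ℝ) else 2 * rad k ^ 2) := by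
    refine Summable.of_nonneg_of_le (fun k => ?_) (fun k => ?_) summ
    · split_ifs
      · exact le_refl _
      · positivity
    · split_ifs
      · positivity
      · exact le_refl _
  rw [← hs.sum_add_tsum_nat_add K]
  have h0 : ∑ i ∈ Finset.range K, (if ((pr i : ℕ) : ℤ) ∣ n - m then (0 : ℝ) else 2 * rad i ^ 2) = 0 := by
    apply Finset.sum_eq_zero
    intro i hi
    rw [if_pos ((pr_dvd_prod (Finset.mem_range.1 hi)).trans h)]
  rw [h0, zero_add]
  refine Summable.tsum_le_tsum (fun k => ?_) ((summable_nat_add_iff K).2 hs)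
    ((summable_nat_add_iff K).2 summ)
  split_ifs
  · positivity
  · exact le_refl _

theorem tail_lt {ε : ℝ} (hε : 0 < ε) : ∃ K : ℕ, ∑' k : ℕ, 2 * rad (k + K) ^ 2 < ε := by
  have := tendsto_sum_nat_add (fun k : ℕ => 2 * rad k ^ 2)
  exact (this.eventually_lt_const hε).exists

theorem pr_pos (k : ℕ) : 0 < pr k := (Nat.prime_nth_prime k).pos

variable {H : Type} [NormedAddCommGroup H] [InnerProductSpace ℝ H]

theorem orbit_tb (θ : H ≃ₗᵢ[ℝ] H) (w : H)
    (hw : ∀ n m : ℤ, ‖(θ ^ n) w - (θ ^ m) w‖ ^ 2 = odist n m) :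
    TotallyBounded (range fun n : ℤ => (θ ^ n) w) := by
  rw [Metric.totallyBounded_iff]
  intro ε hε
  obtain ⟨K, hK⟩ := tail_lt (show 0 < ε ^ 2 by positivity)
  set Q : ℕ := ∏ i ∈ Finset.range K, pr i with hQ
  have hQpos : 0 < Q := Finset.prod_pos fun i _ => pr_pos i
  refine ⟨(fun n : ℤ => (θ ^ n) w) '' (Set.Ico (0 : ℤ) Q), (Set.finite_Ico _ _).image _, ?_⟩
  rintro x ⟨n, rfl⟩
  simp only [mem_iUnion]
  have hQ' : (0 : ℤ) < (Q : ℤ) := by exact_mod_cast hQpos
  refine ⟨(θ ^ (n % Q)) w, ⟨n % Q, ⟨Int.emod_nonneg _ hQ'.ne', Int.emod_lt_of_pos _ hQ'⟩, rfl⟩, ?_⟩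
  rw [Metric.mem_ball, dist_eq_norm]
  have h1 : ((Q : ℕ) : ℤ) ∣ n - n % Q := Int.dvd_self_sub_emod
  have h2 := odist_le (K := K) h1
  rw [← hw] at h2
  have h3 := lt_of_le_of_lt h2 hK
  exact lt_of_pow_lt_pow_left₀ 2 hε.le h3

theorem stmtH2b : StmtH2 := by
  intro H i1 i2 i3 θ w hw
  set O : Set H := insert 0 (range fun n : ℤ => (θ ^ n) w) with hO
  have htb : TotallyBounded O := by
    have h1 := orbit_tb θ w hw
    have h2 : TotallyBounded ({0} : Set H) := (Set.finite_singleton 0).totallyBounded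
    have := h2.union h1
    rwa [Set.singleton_union] at this
  have hθO : (θ : H → H) '' O = O := by
    ext x
    constructor
    · rintro ⟨y, hy, rfl⟩
      rcases hy with rfl | ⟨n, rfl⟩
      · rw [map_zero]; exact Or.inl rfl
      · refine Or.inr ⟨1 + n, ?_⟩
        show (θ ^ (1 + n)) w = θ ((θ ^ n) w)
        rw [zpow_add, zpow_one]; rfl
    · intro hx
      rcases hx with rfl | ⟨n, rfl⟩
      · exact ⟨0, Or.inl rfl, map_zero θ⟩
      · refine ⟨(θ ^ (n - 1)) w, Or.inr ⟨n - 1, rfl⟩, ?_⟩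
        show θ ((θ ^ (n - 1)) w) = (θ ^ n) w
        have : θ ^ n = θ * θ ^ (n - 1) := by
          rw [← zpow_one_add]; congr 1; ring
        rw [this]; rfl
  refine ⟨closure (convexHull ℝ O), ?_, ?_, ?_, ?_, ?_⟩
  · exact isCompact_iff_totallyBounded_isComplete.2 ⟨(htb.convexHull).closure, isClosed_closure.isComplete⟩
  · exact (convex_convexHull ℝ O).closure
  · exact subset_closure (subset_convexHull ℝ O (Or.inl rfl))
  · refine subset_closure (subset_convexHull ℝ O (Or.inr ⟨0, ?_⟩))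
    simp
  · have key : (θ : H → H) '' closure (convexHull ℝ O) = closure (convexHull ℝ O) := by
      have h1 := θ.toHomeomorph.image_closure (convexHull ℝ O)
      have h2 : (θ : H → H) '' convexHull ℝ O = convexHull ℝ O := by
        have := (θ.toLinearEquiv : H →ₗ[ℝ] H).image_convexHull O
        have e : ((θ.toLinearEquiv : H →ₗ[ℝ] H) : H → H) = (θ : H → H) := rfl
        rw [e, hθO] at this
        exact this
      have e2 : (θ.toHomeomorph : H → H) = (θ : H → H) := rfl
      rw [e2, h2] at h1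
      exact h1
    intro x
    constructor
    · intro hx
      rw [← key] at hx
      obtain ⟨y, hy, hyx⟩ := hx
      rwa [← θ.injective hyx]
    · intro hx
      rw [← key]
      exact ⟨x, hx, rfl⟩

end H2b

end R785.LD
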