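import Pool.Agent.R785.LD.Defs

/-!
Project LD, piece H3: Hamming cubes in the orbit (Chinese remainder theorem).
-/

open Finset Filter Topology

namespace R785.LD

theorem pr_prime (k : ℕ) : (pr k).Prime := Nat.prime_nth_prime k

theorem pr_inj : Function.Injective pr := Nat.nth_injective Nat.infinite_setOfPred_prime

theorem lt_pr (k : ℕ) : k < pr k := by
  have h := (Nat.nth_strictMono Nat.infinite_setOfPred_prime)
  have h2 : ∀ k, k + 2 ≤ pr k := by
    intro k
    induction k with
    | zero => exact (pr_prime 0).two_le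
    | succ k ih =>
      have : pr k < pr (k + 1) := h (Nat.lt_succ_self k)
      omega
  have := h2 k
  omega

theorem rad_pos (k : ℕ) : 0 < rad k := by unfold rad; positivity

theorem summable_rad : Summable (fun k : ℕ => 2 * rad k ^ 2) := by
  apply Summable.mul_left
  have h := (summable_nat_add_iff 1).2 (Real.summable_one_div_nat_pow.2 (by norm_num : 1 < 2))
  refine h.congr fun k => ?_
  simp [rad]

theorem summable_od (n m : ℤ) :
    Summable (fun k : ℕ => if ((pr k : ℕ) : ℤ) ∣ n - m then (0 : ℝ) else 2 * rad k ^ 2) := by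
  refine Summable.of_nonneg_of_le (fun k => ?_) (fun k => ?_) summable_rad
  · split_ifs
    · exact le_rfl
    · positivity
  · split_ifs
    · positivity
    · exact le_rfl

theorem odist_split (n m : ℤ) (K1 : ℕ) :
    (∑ k ∈ range K1, if ((pr k : ℕ) : ℤ) ∣ n - m then (0 : ℝ) else 2 * rad k ^ 2) ≤ odist n m ∧
    odist n m ≤ (∑ k ∈ range K1, if ((pr k : ℕ) : ℤ) ∣ n - m then (0 : ℝ) else 2 * rad k ^ 2) +
      ∑' k : ℕ, 2 * rad (k + K1) ^ 2 := by
  have h := (summable_od n m).sum_add_tsum_nat_add K1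
  have h1 : odist n m = ∑' k : ℕ, if ((pr k : ℕ) : ℤ) ∣ n - m then (0 : ℝ) else 2 * rad k ^ 2 := rfl
  rw [h1, ← h]
  constructor
  · have : 0 ≤ ∑' i : ℕ, (if ((pr (i + K1) : ℕ) : ℤ) ∣ n - m then (0 : ℝ) else
        2 * rad (i + K1) ^ 2) := by
      refine tsum_nonneg fun i => ?_
      split_ifs
      · exact le_rfl
      · positivity
    linarith
  · have h2 := (summable_nat_add_iff (f := fun k : ℕ =>
      if ((pr k : ℕ) : ℤ) ∣ n - m then (0 : ℝ) else 2 * rad k ^ 2) K1).2 (summable_od n m)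
    have h3 := (summable_nat_add_iff (f := fun k : ℕ => 2 * rad k ^ 2) K1).2 summable_rad
    have h4 := h2.tsum_le_tsum (fun i => by
      show (if ((pr (i + K1) : ℕ) : ℤ) ∣ n - m then (0 : ℝ) else 2 * rad (i + K1) ^ 2) ≤
        2 * rad (i + K1) ^ 2
      split_ifs
      · positivity
      · exact le_rfl) h3
    linarith

/-- residues -/
def res {M P : ℕ} (K : ℕ) (x : Fin M → Fin P) (k : ℕ) : ℕ :=
  if h : K ≤ k ∧ k < K + M then (x ⟨k - K, by omega⟩ : ℕ) else 0

theorem res_lt {M P : ℕ} (K : ℕ) (hK : P ≤ K) (x : Fin M → Fin P) (k : ℕ) :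
    res K x k < pr k := by
  unfold res
  split_ifs with h
  · have := (x ⟨k - K, by omega⟩).2
    have := lt_pr k
    omega
  · exact (pr_prime k).pos

theorem crt {M P : ℕ} (K K1 : ℕ) (x : Fin M → Fin P) :
    ∃ j : ℕ, ∀ k < K1, j ≡ res K x k [MOD pr k] := by
  obtain ⟨j, hj⟩ := Nat.chineseRemainderOfFinset (res K x) pr (range K1)
    (fun i _ => (pr_prime i).pos.ne')
    (fun a _ b _ hab => (Nat.coprime_primes (pr_prime a) (pr_prime b)).2
      (fun h => hab (pr_inj h)))
  exact ⟨j, fun k hk => hj k (mem_range.2 hk)⟩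

theorem stmtH3 : StmtH3 := by
  intro M P
  set K : ℕ := M + P + 1 with hKdef
  have hKpos : (0 : ℝ) < K := by rw [hKdef]; positivity
  set ρ : ℝ := Real.sqrt (1 / (2 * (K : ℝ) ^ 2)) with hρ
  have hρ2 : ρ ^ 2 = 1 / (2 * (K : ℝ) ^ 2) := Real.sq_sqrt (by positivity)
  have hρpos : 0 < ρ := Real.sqrt_pos.2 (by positivity)
  have ht := tendsto_sum_nat_add (fun k : ℕ => 2 * rad k ^ 2)
  have hev := (ht.eventually (gt_mem_nhds (show (0 : ℝ) < ρ ^ 2 by positivity))).and
    (eventually_ge_atTop (K + M))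
  obtain ⟨K1, hK1, hK1M⟩ := hev.exists
  choose j hj using (fun x : Fin M → Fin P => crt K K1 x)
  refine ⟨ρ, hρpos, j, fun x x' => ?_⟩
  by_cases hxx : x = x'
  · subst hxx
    simp [odist]
  -- the finite part
  have hdiv : ∀ k < K1, ((pr k : ℕ) : ℤ) ∣ (j x : ℤ) - (j x' : ℤ) ↔ res K x k = res K x' k := by
    intro k hk
    have h1 := hj x k hk
    have h2 := hj x' k hk
    have e : (((pr k : ℕ) : ℤ) ∣ (j x : ℤ) - (j x' : ℤ)) ↔ j x' ≡ j x [MOD pr k] :=
      (Nat.modEq_iff_dvd).symm
    rw [e]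
    constructor
    · intro h
      have h3 : res K x k ≡ res K x' k [MOD pr k] := h1.symm.trans (h.symm.trans h2)
      exact Nat.ModEq.eq_of_lt_of_lt h3 (res_lt K (by omega) x k) (res_lt K (by omega) x' k)
    · intro h
      exact h2.trans (h ▸ h1.symm)
  have hfin : (∑ k ∈ range K1, if ((pr k : ℕ) : ℤ) ∣ (j x : ℤ) - (j x' : ℤ) then (0 : ℝ)
      else 2 * rad k ^ 2) = ∑ i : Fin M, if x i = x' i then (0 : ℝ) else 2 * rad (K + i) ^ 2 := by
    have h1 : ∀ k ∈ range K1, (if ((pr k : ℕ) : ℤ) ∣ (j x : ℤ) - (j x' : ℤ) then (0 : ℝ)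
      else 2 * rad k ^ 2) = if res K x k = res K x' k then (0 : ℝ) else 2 * rad k ^ 2 := by
      intro k hk
      simp only [hdiv k (mem_range.1 hk)]
    rw [sum_congr rfl h1]
    have h2 : Ico K (K + M) ⊆ range K1 := by
      intro k hk
      rw [mem_Ico] at hk
      rw [mem_range]; omega
    rw [← sum_subset h2, sum_Ico_eq_sum_range]
    · rw [show K + M - K = M by omega, sum_range]
      refine sum_congr rfl fun i _ => ?_
      have hi := i.2
      have e1 : ∀ y : Fin M → Fin P, res K y (K + i) = y i := by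
        intro y
        unfold res
        rw [dif_pos ⟨by omega, by omega⟩]
        congr 2
        ext
        simp
      rw [e1, e1]
      simp only [Fin.val_inj]
    · intro k _ hk
      rw [mem_Ico] at hk
      have e1 : ∀ y : Fin M → Fin P, res K y k = 0 := by
        intro y
        unfold res
        rw [dif_neg hk]
      rw [e1, e1]
      simp
  have hd : (hammingDist x x' : ℝ) = ∑ i : Fin M, if x i = x' i then (0 : ℝ) else 1 := by
    unfold hammingDist
    rw [card_filter]
    push_cast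
    refine sum_congr rfl fun i _ => ?_
    by_cases h : x i = x' i <;> simp [h]
  obtain ⟨hlo, hhi⟩ := odist_split (j x) (j x') K1
  rw [hfin] at hlo hhi
  have hK1' : ∑' k : ℕ, 2 * rad (k + K1) ^ 2 < ρ ^ 2 := hK1
  have hdpos : (1 : ℝ) ≤ hammingDist x x' := by
    have : 0 < hammingDist x x' := hammingDist_pos.2 hxx
    exact_mod_cast this
  have hlow : ρ ^ 2 * (hammingDist x x' : ℝ) ≤
      ∑ i : Fin M, if x i = x' i then (0 : ℝ) else 2 * rad (K + i) ^ 2 := by
    rw [hd, mul_sum]
    refine sum_le_sum fun i _ => ?_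
    by_cases h : x i = x' i
    · simp [h]
    · simp only [h, if_false, mul_one]
      rw [hρ2]
      unfold rad
      push_cast
      have hi : ((i : ℕ) : ℝ) + 1 ≤ M := by exact_mod_cast i.2
      have hM : (M : ℝ) ≤ K := by rw [hKdef]; push_cast; linarith [Nat.cast_nonneg (α := ℝ) P]
      have h3 : (K : ℝ) + i + 1 ≤ 2 * K := by linarith
      have h4 : (0 : ℝ) < (K : ℝ) + i + 1 := by positivity
      rw [one_div_pow, mul_one_div, div_le_div_iff₀ (by positivity) (by positivity)]
      nlinarith [mul_le_mul h3 h3 h4.le (by positivity)]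
  have hhigh : (∑ i : Fin M, if x i = x' i then (0 : ℝ) else 2 * rad (K + i) ^ 2) ≤
      4 * ρ ^ 2 * (hammingDist x x' : ℝ) := by
    rw [hd, mul_sum]
    refine sum_le_sum fun i _ => ?_
    by_cases h : x i = x' i
    · simp [h]
    · simp only [h, if_false, mul_one]
      rw [hρ2]
      unfold rad
      push_cast
      have h3 : (K : ℝ) ≤ K + i + 1 := by
        have : (0 : ℝ) ≤ ((i : ℕ) : ℝ) := Nat.cast_nonneg _
        linarith
      have h4 : (0 : ℝ) < (K : ℝ) + i + 1 := by positivity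
      rw [one_div_pow, mul_one_div, mul_one_div, div_le_div_iff₀ (by positivity) (by positivity)]
      nlinarith [mul_le_mul h3 h3 hKpos.le h4.le]
  constructor
  · linarith
  · nlinarith [sq_nonneg ρ]

end R785.LD
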