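import Pool.Agent.R785.LD.Defs

/-! Scaled Hamming cubes at small scales force infinite linearly controlled dimension. -/

namespace R785.LD

open Finset

theorem hd_update {M P : ℕ} (x : Fin M → Fin P) (i : Fin M) (a : Fin P) :
    hammingDist (Function.update x i a) x ≤ 1 := by
  classical
  unfold hammingDist
  calc (univ.filter (fun j => Function.update x i a j ≠ x j)).card ≤ ({i} : Finset (Fin M)).card := by
        apply Finset.card_le_card
        intro j hj
        rw [Finset.mem_filter] at hj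
        rw [Finset.mem_singleton]
        by_contra hne
        exact hj.2 (Function.update_of_ne hne _ _)
    _ = 1 := Finset.card_singleton _

theorem stmtLI (h : StmtCO) : StmtLI := by
  classical
  intro Z _ hyp n ⟨c, hc, δ₀, hδ₀, hcov⟩
  obtain ⟨M, hM⟩ := exists_nat_gt (36 * c ^ 2)
  obtain ⟨P, hPdef⟩ : ∃ P : ℕ, P = 2 * M * (n + 1) + 1 := ⟨_, rfl⟩
  obtain ⟨s, hs, hsε, f, hf⟩ := hyp M P (δ₀ / 6) (by positivity)
  obtain ⟨𝒰, hopen, hun, hmult, hdiam, hleb⟩ := hcov (6 * s) (by positivity) (by linarith)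
  have hA : ∀ x : Fin M → Fin P, ∃ U ∈ 𝒰, f '' {z | hammingDist x z ≤ 1} ⊆ U := by
    intro x
    apply hleb
    refine ⟨5.7 * s, by nlinarith, ?_⟩
    rintro _ ⟨z, hz, rfl⟩ _ ⟨z', hz', rfl⟩
    have h1 : hammingDist z z' ≤ 2 := by
      have := hammingDist_triangle_left z z' x
      have h2 : hammingDist x z ≤ 1 := hz
      have h3 : hammingDist x z' ≤ 1 := hz'
      omega
    have h2 : (hammingDist z z' : ℝ) ≤ 2 := by exact_mod_cast h1
    have h3 := (hf z z').2
    have h4 : dist (f z) (f z') ^ 2 ≤ 32 * s ^ 2 := by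
      have := mul_le_mul_of_nonneg_left h2 (by positivity : (0:ℝ) ≤ 16 * s ^ 2)
      linarith
    by_contra hcon
    have hcon' : 5.7 * s < dist (f z) (f z') := not_le.1 hcon
    have h5 : (5.7 * s) ^ 2 < dist (f z) (f z') ^ 2 :=
      pow_lt_pow_left₀ hcon' (by positivity) (by norm_num)
    nlinarith [sq_nonneg s, mul_pos hs hs]
  choose V hV hAV using hA
  have key := h M P (n + 1) (Set Z) V (by omega) (by
    intro x i
    have hsub : ((Finset.univ.image (fun a => V (Function.update x i a)) : Finset (Set Z)) :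
        Set (Set Z)) ⊆ {U | U ∈ 𝒰 ∧ f x ∈ U} := by
      intro U hU
      rw [Finset.mem_coe, Finset.mem_image] at hU
      obtain ⟨a, -, rfl⟩ := hU
      exact ⟨hV _, hAV _ ⟨x, hd_update x i a, rfl⟩⟩
    have h1 := (Set.encard_le_encard hsub).trans (hmult (f x))
    rw [Set.encard_coe_eq_coe_finsetCard] at h1
    exact_mod_cast h1)
  obtain ⟨x, x', hne, hVV⟩ := key
  have h1 : f x ∈ V x := hAV x ⟨x, by simp, rfl⟩
  have h2 : f x' ∈ V x := by
    rw [hVV]; exact hAV x' ⟨x', by simp, rfl⟩
  have h3 := hdiam (V x) (hV x) (f x) h1 (f x') h2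
  have h4 : hammingDist x x' = M := by
    unfold hammingDist
    have : (univ.filter (fun j => x j ≠ x' j)) = univ := by
      apply Finset.filter_true_of_mem
      intro j _
      exact hne j
    rw [this, Finset.card_univ, Fintype.card_fin]
  have h5 := (hf x x').1
  rw [h4] at h5
  have h6 : dist (f x) (f x') ^ 2 ≤ (c * (6 * s)) ^ 2 := by
    apply pow_le_pow_left₀ dist_nonneg h3
  have h7 : s ^ 2 * (M : ℝ) ≤ s ^ 2 * (36 * c ^ 2) := by nlinarith
  have h8 : (M : ℝ) ≤ 36 * c ^ 2 := le_of_mul_le_mul_left h7 (by positivity)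
  linarith

end R785.LD
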