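import Pool.Agent.R785.LD.Defs

/-!
Project LD, part PR: the tree of spaces is proper.
-/

open Set Filter Topology

namespace R785.LD

namespace PRP

section

variable {Y : Type} [MetricSpace Y] {P : Piece Y} {X : Type} [MetricSpace X]

theorem gate_zero (P : Piece Y) : P.gate 0 = P.o := by
  unfold Piece.gate
  rw [zpow_zero]
  rfl

theorem gate_succ (P : Piece Y) (n : ℤ) : P.a (P.gate n) = P.gate (n + 1) := by
  unfold Piece.gate
  rw [add_comm n 1, zpow_one_add, IsometryEquiv.mul_apply]

theorem red_cons_iff (n m : ℤ) (l : List ℤ) : Red (n :: l) ↔ Red (m :: l) := Iff.rfl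

theorem red_tail {n : ℤ} {l : List ℤ} (h : Red (n :: l)) : Red l := by
  intro m hm
  exact h m (List.mem_of_mem_tail hm)

theorem dist_gate_eq (T : TreeSpace P X) (l : List ℤ) (hl : Red (0 :: l)) (y : Y) (n : ℤ) :
    dist (T.emb (n :: l) y) (T.emb [] (P.gate n)) = dist (T.emb l y) (T.emb [] P.o) := by
  have hstep : ∀ n : ℤ, dist (T.emb (n :: l) y) (T.emb [] (P.gate n)) =
      dist (T.emb ((n + 1) :: l) y) (T.emb [] (P.gate (n + 1))) := by
    intro n
    rw [← T.A.isometry.dist_eq (T.emb (n :: l) y) (T.emb [] (P.gate n)), T.A_root, gate_succ,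
      T.A_cons n l hl]
  have h0 : dist (T.emb (0 :: l) y) (T.emb [] (P.gate 0)) =
      dist (T.emb l y) (T.emb [] P.o) := by
    have hred : Red [0] := by
      intro m hm
      simp at hm
    calc dist (T.emb (0 :: l) y) (T.emb [] (P.gate 0))
        = dist (T.emb (0 :: l) y) (T.emb [0] P.o) := by rw [gate_zero, T.glue]
      _ = dist (T.S (T.emb (0 :: l) y)) (T.S (T.emb [0] P.o)) := (T.S.isometry.dist_eq _ _).symm
      _ = dist (T.emb l y) (T.emb [] P.o) := by rw [T.S_zero l hl, T.S_zero [] hred]
  induction n using Int.induction_on with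
  | zero => exact h0
  | succ k ih => rw [← hstep]; exact ih
  | pred k ih =>
    rw [hstep]
    have e : -(k : ℤ) - 1 + 1 = -(k : ℤ) := by ring
    rw [e]
    exact ih

/-- total weight of an address -/
def wt : List ℤ → ℕ
  | [] => 0
  | n :: l => n.natAbs + wt l

theorem dist_lower (T : TreeSpace P X) (u : List ℤ) (hu : Red u) (y : Y) :
    dist y P.o + (wt u : ℝ) ≤ dist (T.emb u y) (T.emb [] P.o) := by
  induction u with
  | nil =>
    rw [(T.isom [] (by intro m hm; simp at hm)).dist_eq]
    simp [wt]
  | cons n l ih =>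
    have hnil : Red [] := by intro m hm; simp at hm
    have hsep : Sep (n :: l) [] := by
      rintro ⟨_, _, _, _, h⟩
      simp at h
    have h1 := T.sep (n :: l) [] hu hnil hsep y P.o
    have e1 : P.rp (n :: l) y = P.gate n := rfl
    have e2 : P.rp [] P.o = P.o := rfl
    rw [e1, e2, dist_self, add_zero, dist_gate_eq T l hu y n] at h1
    rw [h1]
    have h2 := ih (red_tail hu)
    have h3 := P.far n
    have h4 : |(n : ℝ)| = (n.natAbs : ℝ) := by
      rw [← Int.cast_abs, Int.abs_eq_natAbs]
      simp
    have h5 : dist (P.gate n) P.o = dist P.o ((P.a ^ n) P.o) := dist_comm _ _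
    have h6 : (wt (n :: l) : ℝ) = n.natAbs + wt l := by
      simp [wt]
    rw [h5, h6]
    rw [h4] at h3
    linarith

theorem finite_lists (s : Set ℤ) (hs : s.Finite) (N : ℕ) :
    {l : List ℤ | l.length ≤ N ∧ ∀ x ∈ l, x ∈ s}.Finite := by
  induction N with
  | zero =>
    refine (Set.finite_singleton ([] : List ℤ)).subset ?_
    rintro l ⟨h, _⟩
    have : l = [] := List.eq_nil_of_length_eq_zero (by omega)
    simp [this]
  | succ N ih =>
    refine ((hs.image2 (fun a l => a :: l) ih).union (Set.finite_singleton [])).subset ?_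
    rintro l ⟨h, hl⟩
    cases l with
    | nil => exact Or.inr rfl
    | cons a l =>
      refine Or.inl ⟨a, hl a (by simp), l, ⟨by simpa using h, fun x hx => hl x (by simp [hx])⟩, rfl⟩

theorem mem_le_wt (u : List ℤ) (x : ℤ) (hx : x ∈ u) : x.natAbs ≤ wt u := by
  induction u with
  | nil => simp at hx
  | cons n l ih =>
    rcases List.mem_cons.1 hx with rfl | h
    · simp [wt]
    · have := ih h
      simp only [wt]
      omega

theorem length_le_wt (u : List ℤ) (hu : ∀ x ∈ u, x ≠ 0) : u.length ≤ wt u := by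
  induction u with
  | nil => simp
  | cons n l ih =>
    have h1 := ih (fun x hx => hu x (by simp [hx]))
    have h2 : n ≠ 0 := hu n (by simp)
    have h3 : 0 < n.natAbs := Int.natAbs_pos.2 h2
    simp only [wt, List.length_cons]
    omega

theorem finite_red (K : ℕ) : {u : List ℤ | Red u ∧ wt u ≤ K}.Finite := by
  refine (finite_lists (Set.Icc (-(K : ℤ)) K) (Set.finite_Icc _ _) (K + 1)).subset ?_
  rintro u ⟨hu, hK⟩
  refine ⟨?_, ?_⟩
  · cases u with
    | nil => simp
    | cons n l =>
      have h1 : l.length ≤ wt l := length_le_wt l hu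
      simp only [wt] at hK
      simp only [List.length_cons]
      omega
  · intro x hx
    have h1 := mem_le_wt u x hx
    rw [Set.mem_Icc]
    omega

end

end PRP

open PRP in
theorem stmtPR {Y : Type} [MetricSpace Y] {P : Piece Y} {X : Type} [MetricSpace X]
    (T : TreeSpace P X) : StmtPR T := by
  intro hY
  have hball : ∀ K : ℕ, IsCompact (Metric.closedBall (T.emb [] P.o) (K : ℝ)) := by
    intro K
    have hc : IsCompact (⋃ u ∈ {u : List ℤ | Red u ∧ wt u ≤ K},
        T.emb u '' Metric.closedBall P.o (K : ℝ)) := by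
      refine (finite_red K).isCompact_biUnion (fun u hu => ?_)
      exact (isCompact_closedBall P.o (K : ℝ)).image (T.isom u hu.1).continuous
    refine hc.of_isClosed_subset Metric.isClosed_closedBall ?_
    intro x hx
    obtain ⟨u, hu, y, rfl⟩ := T.surj x
    have h1 := dist_lower T u hu y
    have h2 : dist (T.emb u y) (T.emb [] P.o) ≤ K := Metric.mem_closedBall.1 hx
    have h3 : (wt u : ℝ) ≤ K := by linarith [dist_nonneg (x := y) (y := P.o)]
    have h4 : dist y P.o ≤ K := by linarith [Nat.cast_nonneg (α := ℝ) (wt u)]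
    refine Set.mem_biUnion (show u ∈ {u : List ℤ | Red u ∧ wt u ≤ K} from
      ⟨hu, by exact_mod_cast h3⟩) ?_
    exact ⟨y, Metric.mem_closedBall.2 h4, rfl⟩
  exact ProperSpace.of_seq_closedBall (x := T.emb [] P.o) (r := fun K : ℕ => (K : ℝ))
    tendsto_natCast_atTop_atTop (Filter.Eventually.of_forall hball)

end R785.LD
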