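import Mathlib
import Pool.Agent.R785.LD.Defs

open Set Filter Topology
open scoped NNReal

namespace R785.LD

namespace R1aux

variable {H : Type} [NormedAddCommGroup H] [InnerProductSpace ℝ H]

theorem pow_mem (D : HData H) (n : ℕ) : (D.θ ^ n) D.w ∈ D.W := by
  induction n with
  | zero => simpa using D.w_mem
  | succ n ih =>
    rw [pow_succ']
    exact (D.inv _).2 ih

theorem le_norm (D : HData H) (n : ℕ) : (n : ℝ) ≤ ‖D.g n‖ := by
  rw [WithLp.prod_norm_eq_of_L2]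
  apply Real.le_sqrt_of_sq_le
  have : ‖(D.g n).snd‖ = (n : ℝ) := by
    show ‖(n : ℝ)‖ = (n : ℝ)
    rw [Real.norm_eq_abs, abs_of_nonneg (Nat.cast_nonneg n)]
  rw [this]
  nlinarith [sq_nonneg ‖(D.g n).fst‖]

theorem norm_pos (D : HData H) {n : ℕ} (hn : 1 ≤ n) : 0 < ‖D.g n‖ := by
  have h1 := le_norm D n
  have h2 : (1 : ℝ) ≤ n := by exact_mod_cast hn
  linarith

theorem gate_val (D : HData H) (n : ℕ) : (D.piece.gate (n : ℤ)).1 = D.g n := by
  apply (WithLp.equiv 2 (H × ℝ)).injective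
  apply Prod.ext
  · show (D.piece.gate (n : ℤ)).1.fst = (D.θ ^ n) D.w
    have h := D.a_pow_fst n D.o
    show ((D.a ^ (n : ℤ)) D.o).1.fst = _
    rw [zpow_natCast, h]
    rfl
  · show (D.piece.gate (n : ℤ)).1.snd = (n : ℝ)
    have h := D.a_pow_snd n D.o
    show ((D.a ^ (n : ℤ)) D.o).1.snd = _
    rw [zpow_natCast, h]
    show (0 : ℝ) + n = n
    rw [zero_add]

/-- the point of the root piece at time `r` -/
noncomputable def yr (D : HData H) (n : ℕ) (r : ℝ) (h0 : 0 ≤ r) (h1 : r ≤ ‖D.g n‖) : D.Y :=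
  ⟨(r / ‖D.g n‖) • D.g n, by
    show (r / ‖D.g n‖) • (D.θ ^ n) D.w ∈ D.W
    refine D.convex.smul_mem_of_zero_mem D.zero_mem (pow_mem D n) ⟨by positivity, ?_⟩
    exact div_le_one_of_le₀ h1 (norm_nonneg _)⟩

/-- the point of the piece `n` at time `r` -/
noncomputable def zr (D : HData H) (t : ℝ) : D.Y := ⟨WithLp.toLp 2 (D.w, t), D.w_mem⟩

theorem dist_zr (D : HData H) (s t : ℝ) : dist (zr D s) (zr D t) = |s - t| := by
  show dist (zr D s).1 (zr D t).1 = |s - t|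
  rw [WithLp.prod_dist_eq_of_L2]
  show √(dist D.w D.w ^ 2 + dist s t ^ 2) = |s - t|
  rw [dist_self, Real.dist_eq]
  simp [Real.sqrt_sq_eq_abs]

theorem dist_o_zr (D : HData H) (t : ℝ) : dist D.piece.o (zr D t) = |t| := by
  have : D.piece.o = zr D 0 := rfl
  rw [this, dist_zr, zero_sub, abs_neg]

theorem dist_yr (D : HData H) {n : ℕ} (hn : 1 ≤ n) (r s : ℝ) (hr : 0 ≤ r) (hr1 : r ≤ ‖D.g n‖)
    (hs : 0 ≤ s) (hs1 : s ≤ ‖D.g n‖) : dist (yr D n r hr hr1) (yr D n s hs hs1) = |r - s| := by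
  show dist ((r / ‖D.g n‖) • D.g n) ((s / ‖D.g n‖) • D.g n) = |r - s|
  rw [dist_eq_norm, ← sub_smul, norm_smul, ← sub_div, Real.norm_eq_abs, abs_div, abs_norm,
    div_mul_cancel₀ _ (norm_pos D hn).ne']

theorem dist_yr_gate (D : HData H) {n : ℕ} (hn : 1 ≤ n) (r : ℝ) (hr : 0 ≤ r)
    (hr1 : r ≤ ‖D.g n‖) : dist (yr D n r hr hr1) (D.piece.gate (n : ℤ)) = ‖D.g n‖ - r := by
  have h : D.piece.gate (n : ℤ) = yr D n ‖D.g n‖ (norm_nonneg _) le_rfl := by
    apply Subtype.ext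
    rw [gate_val]
    show D.g n = (‖D.g n‖ / ‖D.g n‖) • D.g n
    rw [div_self (norm_pos D hn).ne', one_smul]
  rw [h, dist_yr D hn, abs_sub_comm, abs_of_nonneg (by linarith)]

theorem yr_zero (D : HData H) (n : ℕ) (h0 : (0 : ℝ) ≤ 0) (h1 : 0 ≤ ‖D.g n‖) :
    yr D n 0 h0 h1 = D.c := by
  apply Subtype.ext
  show ((0 : ℝ) / ‖D.g n‖) • D.g n = WithLp.toLp 2 ((0 : H), (0 : ℝ))
  rw [zero_div, zero_smul]
  rfl

variable {X : Type} [MetricSpace X] {D : HData H} (T : TreeSpace D.piece X)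

theorem red_nil : Red [] := by
  intro n hn
  simp at hn

theorem red_single (n : ℤ) : Red [n] := by
  intro m hm
  simp at hm

theorem glue_nat (n : ℕ) : T.emb [(n : ℤ)] D.piece.o = T.emb [] (D.piece.gate (n : ℤ)) := by
  induction n with
  | zero =>
    have := T.glue
    simpa [Piece.gate] using this
  | succ n ih =>
    have h1 := T.A_cons (n : ℤ) [] (red_single _) D.piece.o
    have h2 := T.A_root (D.piece.gate (n : ℤ))
    rw [ih] at h1
    rw [h1] at h2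
    have h3 : D.piece.a (D.piece.gate (n : ℤ)) = D.piece.gate ((n + 1 : ℕ) : ℤ) := by
      show D.piece.a ((D.piece.a ^ (n : ℤ)) D.piece.o) = (D.piece.a ^ ((n + 1 : ℕ) : ℤ)) D.piece.o
      rw [zpow_natCast, zpow_natCast, pow_succ']
      rfl
    rw [h3] at h2
    push_cast at h2 ⊢
    exact h2

theorem dist_cross (n : ℕ) (y z : D.Y) : dist (T.emb [] y) (T.emb [(n : ℤ)] z) =
    dist y (D.piece.gate (n : ℤ)) + dist D.piece.o z := by
  have h := T.sep [] [(n : ℤ)] red_nil (red_single _) (by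
    rintro ⟨m, l, l', h1, _⟩
    exact absurd h1 (by simp)) y z
  rw [h]
  show dist (T.emb [] y) (T.emb [] y) + dist y (D.piece.gate (n : ℤ)) +
    dist (T.emb [] (D.piece.gate (n : ℤ))) (T.emb [(n : ℤ)] z) = _
  rw [dist_self, zero_add, ← glue_nat T n, (T.isom _ (red_single _)).dist_eq]

open Classical in
/-- the ray -/
noncomputable def ray (n : ℕ) (r : ℝ≥0) : X :=
  if h : (r : ℝ) ≤ ‖D.g n‖ then T.emb [] (yr D n r r.2 h)
  else T.emb [(n : ℤ)] (zr D ((r : ℝ) - ‖D.g n‖))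

theorem ray_of_le (n : ℕ) (r : ℝ≥0) (h : (r : ℝ) ≤ ‖D.g n‖) :
    ray T n r = T.emb [] (yr D n r r.2 h) := dif_pos h

theorem ray_of_not (n : ℕ) (r : ℝ≥0) (h : ¬ (r : ℝ) ≤ ‖D.g n‖) :
    ray T n r = T.emb [(n : ℤ)] (zr D ((r : ℝ) - ‖D.g n‖)) := dif_neg h

theorem ray_isometry {n : ℕ} (hn : 1 ≤ n) : Isometry (ray T n) := by
  refine Isometry.of_dist_eq fun r s => ?_
  rw [NNReal.dist_eq]
  by_cases hr : (r : ℝ) ≤ ‖D.g n‖
  · by_cases hs : (s : ℝ) ≤ ‖D.g n‖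
    · rw [ray_of_le T n r hr, ray_of_le T n s hs, (T.isom _ red_nil).dist_eq, dist_yr D hn]
    · rw [ray_of_le T n r hr, ray_of_not T n s hs, dist_cross, dist_yr_gate D hn, dist_o_zr]
      push Not at hs
      rw [abs_of_nonneg (by linarith), abs_sub_comm, abs_of_nonneg (by linarith)]
      ring
  · by_cases hs : (s : ℝ) ≤ ‖D.g n‖
    · rw [ray_of_not T n r hr, ray_of_le T n s hs, dist_comm, dist_cross, dist_yr_gate D hn,
        dist_o_zr]
      push Not at hr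
      rw [abs_of_nonneg (by linarith), abs_of_nonneg (by linarith)]
      ring
    · rw [ray_of_not T n r hr, ray_of_not T n s hs, (T.isom _ (red_single _)).dist_eq, dist_zr]
      congr 1
      ring

theorem ray_zero (n : ℕ) : ray T n 0 = T.emb [] D.c := by
  have h : ((0 : ℝ≥0) : ℝ) ≤ ‖D.g n‖ := by
    rw [NNReal.coe_zero]
    exact norm_nonneg _
  rw [ray_of_le T n 0 h]
  congr 1
  exact yr_zero D n _ _

theorem dist_yr_yr (n m : ℕ) (r : ℝ) (hr : 0 ≤ r) (h1 : r ≤ ‖D.g n‖) (h2 : r ≤ ‖D.g m‖) :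
    dist (yr D n r hr h1) (yr D m r hr h2) = r * D.e n m := by
  show dist ((r / ‖D.g n‖) • D.g n) ((r / ‖D.g m‖) • D.g m) = r * D.e n m
  have h3 : ∀ k : ℕ, (r / ‖D.g k‖) • D.g k = r • ((1 / ‖D.g k‖) • D.g k) := by
    intro k
    rw [smul_smul, mul_one_div]
  rw [h3 n, h3 m, dist_eq_norm, ← smul_sub, norm_smul, Real.norm_eq_abs, abs_of_nonneg hr]
  rfl

end R1aux

open R1aux in
theorem stmtR1 {H : Type} [NormedAddCommGroup H] [InnerProductSpace ℝ H] {X : Type}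
    [MetricSpace X] (D : HData H) (T : TreeSpace D.piece X) : StmtR1 D T := by
  refine ⟨fun n => ⟨ray T (max n 1), ray_isometry T (le_max_right _ _), ray_zero T _⟩, ?_⟩
  intro n m hn hm r hrn hrm
  show dist (ray T (max n 1) r) (ray T (max m 1) r) = r * D.e n m
  rw [max_eq_left hn, max_eq_left hm]
  have h1 := hrn.trans (le_norm D n)
  have h2 := hrm.trans (le_norm D m)
  rw [ray_of_le T n r h1, ray_of_le T m r h2, (T.isom _ red_nil).dist_eq]
  exact dist_yr_yr n m r r.2 h1 h2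

end R785.LD
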