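import Pool.Agent.R785.LD.Defs

/-!
Project LD, part R2: the asymptotics of the directions.
-/

open Set Filter Topology
open scoped NNReal

namespace R785.LD

/-- the norm of the gates -/
noncomputable def r2ell (W : ℝ) (n : ℕ) : ℝ := √(W + (n : ℝ) ^ 2)

theorem r2ell_ge {W : ℝ} (hW : 0 ≤ W) (n : ℕ) : (n : ℝ) ≤ r2ell W n := by
  unfold r2ell
  exact Real.le_sqrt_of_sq_le (by linarith)

theorem r2ell_sq {W : ℝ} (hW : 0 ≤ W) (n : ℕ) : r2ell W n ^ 2 = W + (n : ℝ) ^ 2 :=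
  Real.sq_sqrt (by positivity)

theorem r2ell_lim {W : ℝ} (hW : 0 ≤ W) (j : ℕ) :
    Tendsto (fun N : ℕ => (N : ℝ) / r2ell W (N + j)) atTop (𝓝 1) := by
  have h1 : Tendsto (fun N : ℕ => W / (N : ℝ) * (1 / (N : ℝ)) + (1 + (j : ℝ) / (N : ℝ)) ^ 2) atTop
      (𝓝 (0 * 0 + (1 + 0) ^ 2)) := by
    refine Tendsto.add (Tendsto.mul ?_ ?_) (Tendsto.pow (Tendsto.add tendsto_const_nhds ?_) 2)
    · exact tendsto_const_div_atTop_nhds_zero_nat W
    · exact tendsto_const_div_atTop_nhds_zero_nat 1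
    · exact tendsto_const_div_atTop_nhds_zero_nat (j : ℝ)
  have h2 : Tendsto (fun N : ℕ => (√(W / (N : ℝ) * (1 / (N : ℝ)) + (1 + (j : ℝ) / (N : ℝ)) ^ 2))⁻¹)
      atTop (𝓝 (√(0 * 0 + (1 + 0) ^ 2))⁻¹) :=
    ((Real.continuous_sqrt.tendsto _).comp h1).inv₀ (by norm_num)
  have h3 : (√((0 : ℝ) * 0 + (1 + 0) ^ 2))⁻¹ = 1 := by norm_num
  rw [h3] at h2
  refine h2.congr' ?_
  filter_upwards [eventually_ge_atTop 1] with N hN
  have hN0 : (0 : ℝ) < N := by exact_mod_cast hN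
  have h4 : W / (N : ℝ) * (1 / (N : ℝ)) + (1 + (j : ℝ) / (N : ℝ)) ^ 2 =
      (W + ((N + j : ℕ) : ℝ) ^ 2) / (N : ℝ) ^ 2 := by
    push_cast
    field_simp
  rw [h4, Real.sqrt_div (by positivity), Real.sqrt_sq hN0.le, inv_div]
  rfl

variable {H : Type} [NormedAddCommGroup H] [InnerProductSpace ℝ H]

theorem r2_norm_g (D : HData H) (n : ℕ) : ‖D.g n‖ = r2ell (‖D.w‖ ^ 2) n := by
  rw [WithLp.prod_norm_eq_of_L2]
  unfold HData.g r2ell
  simp

theorem r2_norm_pow (D : HData H) (n : ℕ) : ‖(D.θ ^ n) D.w‖ = ‖D.w‖ :=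
  LinearIsometryEquiv.norm_map _ _

theorem r2_dist (D : HData H) (N j j' : ℕ) :
    ‖(D.θ ^ (N + j)) D.w - (D.θ ^ (N + j')) D.w‖ = ‖(D.θ ^ j) D.w - (D.θ ^ j') D.w‖ := by
  rw [pow_add, pow_add, LinearIsometryEquiv.coe_mul, LinearIsometryEquiv.coe_mul,
    Function.comp_apply, Function.comp_apply, ← map_sub, LinearIsometryEquiv.norm_map]

theorem r2_e_sq (D : HData H) {n m : ℕ} (hn : 1 ≤ n) (hm : 1 ≤ m) :
    D.e n m ^ 2 = (2 * (‖D.w‖ ^ 2 * ((n : ℝ) - m) ^ 2 /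
      (r2ell (‖D.w‖ ^ 2) n * r2ell (‖D.w‖ ^ 2) m + ‖D.w‖ ^ 2 + n * m)) +
      ‖(D.θ ^ n) D.w - (D.θ ^ m) D.w‖ ^ 2) /
      (r2ell (‖D.w‖ ^ 2) n * r2ell (‖D.w‖ ^ 2) m) := by
  set W := ‖D.w‖ ^ 2 with hW
  have hW0 : 0 ≤ W := by positivity
  have hn0 : (1 : ℝ) ≤ n := by exact_mod_cast hn
  have hm0 : (1 : ℝ) ≤ m := by exact_mod_cast hm
  set A := r2ell W n with hA
  set B := r2ell W m with hB
  have hA0 : 0 < A := lt_of_lt_of_le (by linarith) (r2ell_ge hW0 n)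
  have hB0 : 0 < B := lt_of_lt_of_le (by linarith) (r2ell_ge hW0 m)
  have hA2 : A ^ 2 = W + (n : ℝ) ^ 2 := r2ell_sq hW0 n
  have hB2 : B ^ 2 = W + (m : ℝ) ^ 2 := r2ell_sq hW0 m
  have hnn : ‖(D.θ ^ n) D.w‖ ^ 2 = W := by rw [r2_norm_pow]
  have hmm : ‖(D.θ ^ m) D.w‖ ^ 2 = W := by rw [r2_norm_pow]
  unfold HData.e
  rw [r2_norm_g, r2_norm_g, ← hW, ← hA, ← hB, WithLp.prod_norm_sq_eq_of_L2]
  have e1 : ((1 / A) • D.g n - (1 / B) • D.g m).fst =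
      (1 / A) • (D.θ ^ n) D.w - (1 / B) • (D.θ ^ m) D.w := rfl
  have e2 : ((1 / A) • D.g n - (1 / B) • D.g m).snd = (1 / A) * (n : ℝ) - (1 / B) * (m : ℝ) := rfl
  rw [e1, e2, norm_sub_sq_real, norm_smul, norm_smul, mul_pow, mul_pow, hnn, hmm,
    Real.norm_of_nonneg (by positivity : 0 ≤ 1 / A), Real.norm_of_nonneg (by positivity : 0 ≤ 1 / B),
    inner_smul_left, inner_smul_right, Real.norm_eq_abs, sq_abs, norm_sub_sq_real, hnn, hmm]
  set I := inner ℝ ((D.θ ^ n) D.w) ((D.θ ^ m) D.w) with hI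
  simp only [conj_trivial]
  have hden : 0 < A * B + W + n * m := by positivity
  have hkey : W * ((n : ℝ) - m) ^ 2 / (A * B + W + n * m) = A * B - (W + n * m) := by
    rw [div_eq_iff hden.ne']
    have h1 : (A * B - (W + n * m)) * (A * B + W + n * m) = A ^ 2 * B ^ 2 - (W + n * m) ^ 2 := by
      ring
    rw [h1, hA2, hB2]
    ring
  rw [hkey]
  have h2 : (1 / A) ^ 2 * W - 2 * (1 / A * (1 / B * I)) + (1 / B) ^ 2 * W +
      (1 / A * (n : ℝ) - 1 / B * m) ^ 2 =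
      (W + (n : ℝ) ^ 2) / A ^ 2 + (W + (m : ℝ) ^ 2) / B ^ 2 - 2 * (I + n * m) / (A * B) := by
    field_simp
    ring
  rw [h2, ← hA2, ← hB2, div_self (by positivity), div_self (by positivity)]
  field_simp
  ring

theorem stmtR2 (D : HData H) : StmtR2 D := by
  intro j j'
  set W := ‖D.w‖ ^ 2 with hW
  have hW0 : 0 ≤ W := by positivity
  set d := ‖(D.θ ^ j) D.w - (D.θ ^ j') D.w‖ with hd
  have hd0 : 0 ≤ d := norm_nonneg _
  have hlim : Tendsto (fun N : ℕ => ((N : ℝ) / r2ell W (N + j)) * ((N : ℝ) / r2ell W (N + j')) *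
      (2 * (W * ((j : ℝ) - j') ^ 2 / (r2ell W (N + j) * r2ell W (N + j') + W +
        ((N + j : ℕ) : ℝ) * ((N + j' : ℕ) : ℝ))) + d ^ 2)) atTop (𝓝 (1 * 1 * (2 * 0 + d ^ 2))) := by
    refine ((r2ell_lim hW0 j).mul (r2ell_lim hW0 j')).mul
      ((Tendsto.const_mul 2 ?_).add tendsto_const_nhds)
    refine Tendsto.const_div_atTop ?_ _
    refine tendsto_atTop_mono' atTop ?_ tendsto_natCast_atTop_atTop
    filter_upwards [eventually_ge_atTop 1] with N hN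
    have hN0 : (1 : ℝ) ≤ N := by exact_mod_cast hN
    have h1 := r2ell_ge hW0 (N + j)
    have h2 := r2ell_ge hW0 (N + j')
    have h3 : (0 : ℝ) ≤ ((N + j : ℕ) : ℝ) := Nat.cast_nonneg _
    have h4 : (0 : ℝ) ≤ ((N + j' : ℕ) : ℝ) := Nat.cast_nonneg _
    have h5 : 0 ≤ r2ell W (N + j) * r2ell W (N + j') :=
      mul_nonneg (h3.trans h1) (h4.trans h2)
    have h6 : (N : ℝ) ≤ ((N + j : ℕ) : ℝ) * ((N + j' : ℕ) : ℝ) := by
      push_cast
      have h7 : (0 : ℝ) ≤ j := Nat.cast_nonneg _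
      have h8 : (0 : ℝ) ≤ j' := Nat.cast_nonneg _
      have h9 : (N : ℝ) * 1 ≤ (N + j) * (N + j') :=
        mul_le_mul (by linarith) (by linarith) zero_le_one (by linarith)
      linarith
    linarith
  have hsq := (Real.continuous_sqrt.tendsto _).comp hlim
  have h0 : √(1 * 1 * (2 * 0 + d ^ 2)) = d := by
    rw [one_mul, one_mul, mul_zero, zero_add, Real.sqrt_sq hd0]
  rw [h0] at hsq
  refine hsq.congr' ?_
  filter_upwards [eventually_ge_atTop 1] with N hN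
  have hN0 : (0 : ℝ) < N := by exact_mod_cast hN
  have he0 : 0 ≤ D.e (N + j) (N + j') := norm_nonneg _
  rw [Function.comp_apply, ← Real.sqrt_sq (mul_nonneg hN0.le he0), mul_pow,
    r2_e_sq D (by omega) (by omega), r2_dist, ← hW, ← hd]
  congr 1
  have h1 : ((N + j : ℕ) : ℝ) - ((N + j' : ℕ) : ℝ) = (j : ℝ) - j' := by
    push_cast
    ring
  rw [h1]
  have h2 : 0 < r2ell W (N + j) := lt_of_lt_of_le (by
    push_cast
    have : (0 : ℝ) ≤ j := Nat.cast_nonneg _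
    linarith) (r2ell_ge hW0 (N + j))
  have h3 : 0 < r2ell W (N + j') := lt_of_lt_of_le (by
    push_cast
    have : (0 : ℝ) ≤ j' := Nat.cast_nonneg _
    linarith) (r2ell_ge hW0 (N + j'))
  field_simp

end R785.LD
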