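import Pool.Agent.R785.LD.Defs

/-!
Project LD: statement R3, the integral asymptotics (dominated convergence).
-/

open Set Filter Topology MeasureTheory
open scoped NNReal

namespace R785.LD

namespace R3aux

lemma int1 : IntegrableOn (fun r : ℝ => r * Real.exp (-r)) (Ioi 0) := by
  have h := Real.GammaIntegral_convergent (s := 2) (by norm_num)
  refine h.congr_fun (fun r hr => ?_) measurableSet_Ioi
  have e : (2 : ℝ) - 1 = 1 := by norm_num
  simp only [e, Real.rpow_one]
  ring

lemma int2 : IntegrableOn (fun r : ℝ => r ^ 2 * Real.exp (-r)) (Ioi 0) := by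
  have h := Real.GammaIntegral_convergent (s := 3) (by norm_num)
  refine h.congr_fun (fun r hr => ?_) measurableSet_Ioi
  have e : (3 : ℝ) - 1 = 2 := by norm_num
  simp only [e, Real.rpow_two]
  ring

lemma val1 : ∫ r in Ioi (0 : ℝ), r * Real.exp (-r) = 1 := by
  have h := Real.Gamma_eq_integral (s := 2) (by norm_num)
  have e : (2 : ℝ) - 1 = 1 := by norm_num
  simp only [e, Real.rpow_one] at h
  rw [Real.Gamma_two] at h
  rw [h]
  refine integral_congr_ae (Eventually.of_forall fun r => ?_)
  simp only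
  ring

end R3aux

/-- Statement R3 with a real variable `r` in the third hypothesis (in `Defs` it was elaborated as a
natural number). -/
def StmtR3r : Prop :=
  ∀ (f : ℕ → ℝ → ℝ) (e : ℕ → ℝ) (L : ℝ),
    (∀ N : ℕ, Continuous (f N)) → (∀ (N : ℕ) (r : ℝ), 0 ≤ r → 0 ≤ f N r ∧ f N r ≤ 2 * r) →
    (∀ (N : ℕ) (r : ℝ), 0 ≤ r → r ≤ (N : ℝ) → f N r = r * e N) →
    Tendsto (fun N : ℕ => (N : ℝ) * e N) atTop (𝓝 L) →
    Tendsto (fun N : ℕ => (N : ℝ) * ∫ r in Ioi (0 : ℝ), f N r * Real.exp (-r)) atTop (𝓝 L)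

open R3aux in
/-- R3 -/
theorem stmtR3r : StmtR3r := by
  intro f e L hc hb he hL
  obtain ⟨C, hC⟩ := (Metric.isBounded_range_of_tendsto _ hL).exists_norm_le
  have hC' : ∀ N : ℕ, |(N : ℝ) * e N| ≤ C := fun N => hC _ ⟨N, rfl⟩
  have hC0 : 0 ≤ C := (abs_nonneg _).trans (hC' 0)
  have key : Tendsto (fun N : ℕ => ∫ r in Ioi (0 : ℝ), (N : ℝ) * (f N r * Real.exp (-r))) atTop
      (𝓝 (∫ r in Ioi (0 : ℝ), L * (r * Real.exp (-r)))) := by
    refine tendsto_integral_of_dominated_convergence
      (fun r => C * (r * Real.exp (-r)) + 2 * (r ^ 2 * Real.exp (-r))) ?_ ?_ ?_ ?_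
    · intro N
      refine Continuous.aestronglyMeasurable ?_
      exact continuous_const.mul ((hc N).mul (Real.continuous_exp.comp continuous_neg))
    · exact (int1.const_mul C).add (int2.const_mul 2)
    · intro N
      filter_upwards [ae_restrict_mem measurableSet_Ioi] with r hr
      have hr0 : (0 : ℝ) < r := hr
      have hexp := Real.exp_pos (-r)
      rw [Real.norm_eq_abs]
      rcases le_or_gt r (N : ℝ) with h | h
      · rw [he N r hr0.le h]
        have h1 : (N : ℝ) * (r * e N * Real.exp (-r)) = ((N : ℝ) * e N) * (r * Real.exp (-r)) := by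
          ring
        rw [h1, abs_mul, abs_of_pos (mul_pos hr0 hexp)]
        have h2 := mul_le_mul_of_nonneg_right (hC' N) (mul_pos hr0 hexp).le
        have h3 : 0 ≤ 2 * (r ^ 2 * Real.exp (-r)) := by positivity
        linarith
      · obtain ⟨h1, h2⟩ := hb N r hr0.le
        have hN : (0 : ℝ) ≤ N := Nat.cast_nonneg N
        rw [abs_of_nonneg (mul_nonneg hN (mul_nonneg h1 hexp.le))]
        have h3 : (N : ℝ) * (f N r * Real.exp (-r)) ≤ r * (2 * r * Real.exp (-r)) :=
          mul_le_mul h.le (mul_le_mul_of_nonneg_right h2 hexp.le)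
            (mul_nonneg h1 hexp.le) hr0.le
        have h4 : r * (2 * r * Real.exp (-r)) = 2 * (r ^ 2 * Real.exp (-r)) := by ring
        have h5 : 0 ≤ C * (r * Real.exp (-r)) := by positivity
        linarith
    · filter_upwards [ae_restrict_mem measurableSet_Ioi] with r hr
      have hr0 : (0 : ℝ) < r := hr
      have h1 : Tendsto (fun N : ℕ => ((N : ℝ) * e N) * (r * Real.exp (-r))) atTop
          (𝓝 (L * (r * Real.exp (-r)))) := hL.mul_const _
      refine h1.congr' ?_
      filter_upwards [eventually_ge_atTop ⌈r⌉₊] with N hN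
      have h2 : r ≤ N := (Nat.le_ceil r).trans (by exact_mod_cast hN)
      rw [he N r hr0.le h2]
      ring
  have e1 : (fun N : ℕ => (N : ℝ) * ∫ r in Ioi (0 : ℝ), f N r * Real.exp (-r)) =
      fun N : ℕ => ∫ r in Ioi (0 : ℝ), (N : ℝ) * (f N r * Real.exp (-r)) := by
    funext N
    rw [integral_const_mul]
  rw [e1]
  have e2 : ∫ r in Ioi (0 : ℝ), L * (r * Real.exp (-r)) = L := by
    rw [integral_const_mul, val1, mul_one]
  rwa [e2] at key

/-- R3, with the corrected statement of `Defs` -/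
theorem stmtR3 : StmtR3 := stmtR3r

end R785.LD
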