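import Pool.Agent.R785.LD.Defs

/-!
# Project LD, part M: the metric `dbar` on the boundary
-/

open Set Filter Topology MeasureTheory
open scoped NNReal

namespace R785.LD

variable {X : Type} [MetricSpace X] {x0 : X}

theorem ray_dist_base (α : Ray x0) (r : ℝ≥0) : dist (α.1 r) x0 = r := by
  have h := α.2.1.dist_eq r 0
  rw [α.2.2] at h
  rw [h, NNReal.dist_eq]
  simp

theorem ray_dist_le (α β : Ray x0) (r : ℝ≥0) : dist (α.1 r) (β.1 r) ≤ 2 * r := by
  have h := dist_triangle_right (α.1 r) (β.1 r) x0
  rw [ray_dist_base, ray_dist_base] at h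
  linarith

theorem dbar_fun_continuous (α β : Ray x0) :
    Continuous (fun r : ℝ => dist (α.1 r.toNNReal) (β.1 r.toNNReal) * Real.exp (-r)) := by
  have h1 : Continuous α.1 := α.2.1.continuous
  have h2 : Continuous β.1 := β.2.1.continuous
  exact ((h1.comp continuous_real_toNNReal).dist (h2.comp continuous_real_toNNReal)).mul
    (Real.continuous_exp.comp continuous_neg)

theorem dbar_integrable (α β : Ray x0) :
    IntegrableOn (fun r : ℝ => dist (α.1 r.toNNReal) (β.1 r.toNNReal) * Real.exp (-r))
      (Ioi (0 : ℝ)) := by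
  have h1 : IntegrableOn (fun x : ℝ => 2 * (Real.exp (-x) * x ^ ((2 : ℝ) - 1))) (Ioi 0) :=
    (Real.GammaIntegral_convergent (by norm_num : (0 : ℝ) < 2)).const_mul 2
  refine Integrable.mono' h1 (dbar_fun_continuous α β).aestronglyMeasurable ?_
  refine (ae_restrict_iff' measurableSet_Ioi).2 (Eventually.of_forall fun r hr => ?_)
  have hr0 : (0 : ℝ) < r := hr
  rw [Real.norm_of_nonneg (mul_nonneg dist_nonneg (Real.exp_pos _).le)]
  have h2 := ray_dist_le α β r.toNNReal
  rw [Real.coe_toNNReal r hr0.le] at h2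
  have h3 : r ^ ((2 : ℝ) - 1) = r := by norm_num
  rw [h3]
  nlinarith [Real.exp_pos (-r)]

theorem dbar_nonneg (α β : Ray x0) : 0 ≤ dbar α β :=
  setIntegral_nonneg measurableSet_Ioi fun _ _ => mul_nonneg dist_nonneg (Real.exp_pos _).le

theorem dbar_self (α : Ray x0) : dbar α α = 0 := by
  simp [dbar]

theorem dbar_comm (α β : Ray x0) : dbar α β = dbar β α := by
  simp only [dbar, dist_comm]

theorem dbar_triangle (α β γ : Ray x0) : dbar α γ ≤ dbar α β + dbar β γ := by
  unfold dbar
  rw [← integral_add (dbar_integrable α β) (dbar_integrable β γ)]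
  refine setIntegral_mono_on (dbar_integrable α γ)
    ((dbar_integrable α β).add (dbar_integrable β γ)) measurableSet_Ioi fun r _ => ?_
  have h := dist_triangle (α.1 r.toNNReal) (β.1 r.toNNReal) (γ.1 r.toNNReal)
  have h2 := mul_le_mul_of_nonneg_right h (Real.exp_pos (-r)).le
  linarith

theorem eq_of_dbar_eq_zero (α β : Ray x0) (h : dbar α β = 0) : α = β := by
  have h1 : (fun r : ℝ => dist (α.1 r.toNNReal) (β.1 r.toNNReal) * Real.exp (-r))
      =ᵐ[volume.restrict (Ioi (0 : ℝ))] 0 :=
    (setIntegral_eq_zero_iff_of_nonneg_ae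
      (Eventually.of_forall fun r => mul_nonneg dist_nonneg (Real.exp_pos _).le)
      (dbar_integrable α β)).1 h
  have h2 := Measure.eqOn_open_of_ae_eq h1 isOpen_Ioi (dbar_fun_continuous α β).continuousOn
    continuousOn_const
  apply Subtype.ext
  funext r
  rcases eq_or_ne r 0 with rfl | hr
  · rw [α.2.2, β.2.2]
  · have hr0 : (0 : ℝ) < r := by
      have : 0 < r := pos_iff_ne_zero.2 hr
      exact_mod_cast this
    have h3 := h2 hr0
    simp only [Real.toNNReal_coe, Pi.zero_apply, mul_eq_zero, dist_eq_zero] at h3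
    rcases h3 with h3 | h3
    · exact h3
    · exact absurd h3 (Real.exp_pos _).ne'

/-- The metric `dbar` on the boundary. -/
noncomputable instance {X : Type} [MetricSpace X] (x0 : X) : MetricSpace (Ray x0) where
  dist α β := dbar α β
  dist_self := dbar_self
  dist_comm := dbar_comm
  dist_triangle := dbar_triangle
  eq_of_dist_eq_zero {α β} h := eq_of_dbar_eq_zero α β h

theorem dist_ray (α β : Ray x0) : dist α β = dbar α β := rfl

end R785.LD
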