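import Pool.Agent.R785.LD.Defs

set_option autoImplicit false

/-!
# SI: separation by isometries (helper586)
-/

open Set

namespace R785.LD

variable {Y : Type} [MetricSpace Y] {P : Piece Y} {X : Type} [MetricSpace X]

namespace SIAux

/-- points with an address of length at most `k` -/
def Bl (T : TreeSpace P X) (k : ℕ) : Set X :=
  {x | ∃ w : List ℤ, Red w ∧ w.length ≤ k ∧ ∃ y, T.emb w y = x}

theorem red_cons_iff {n : ℤ} {l : List ℤ} : Red (n :: l) ↔ ∀ m ∈ l, m ≠ 0 := Iff.rfl

theorem red_of_cons {n : ℤ} {l : List ℤ} (h : Red (n :: l)) : Red l := fun m hm =>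
  h m (List.mem_of_mem_tail hm)

theorem A_mem (T : TreeSpace P X) {k : ℕ} {x : X} (hx : x ∈ Bl T k) : T.A x ∈ Bl T k := by
  obtain ⟨w, hw, hk, y, rfl⟩ := hx
  cases w with
  | nil => exact ⟨[], hw, hk, P.a y, (T.A_root y).symm⟩
  | cons n l => exact ⟨(n + 1) :: l, hw, hk, y, (T.A_cons n l hw y).symm⟩

theorem A_surj (T : TreeSpace P X) {k : ℕ} {x : X} (hx : x ∈ Bl T k) :
    ∃ x' ∈ Bl T k, T.A x' = x := by
  obtain ⟨w, hw, hk, y, rfl⟩ := hx
  cases w with
  | nil =>
    refine ⟨T.emb [] (P.a.symm y), ⟨[], hw, hk, _, rfl⟩, ?_⟩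
    rw [T.A_root, P.a.apply_symm_apply]
  | cons n l =>
    have hw' : Red ((n - 1) :: l) := hw
    refine ⟨T.emb ((n - 1) :: l) y, ⟨_, hw', hk, _, rfl⟩, ?_⟩
    rw [T.A_cons _ _ hw', sub_add_cancel]

theorem S_mem (T : TreeSpace P X) {k : ℕ} {x : X} (hx : x ∈ Bl T k) : T.S x ∈ Bl T (k + 1) := by
  obtain ⟨w, hw, hk, y, rfl⟩ := hx
  cases w with
  | nil =>
    refine ⟨[0], ?_, by simp, y, (T.S_root y).symm⟩
    intro m hm
    simp at hm
  | cons n l =>
    by_cases hn : n = 0
    · subst hn
      refine ⟨l, red_of_cons hw, ?_, y, (T.S_zero l hw y).symm⟩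
      simp only [List.length_cons] at hk
      omega
    · refine ⟨0 :: n :: l, ?_, ?_, y, (T.S_ne n l hw hn y).symm⟩
      · intro m hm
        rw [List.tail_cons] at hm
        rcases List.mem_cons.1 hm with h | h
        · rw [h]; exact hn
        · exact hw m h
      · simp only [List.length_cons] at hk ⊢
        omega

theorem step (T : TreeSpace P X) (C : X → X → X → Prop)
    (hA : ∀ x y z, C (T.A x) (T.A y) (T.A z) ↔ C x y z)
    (hS : ∀ x y z, C (T.S x) (T.S y) (T.S z) ↔ C x y z) {l l' : List ℤ} (hl : ∀ m ∈ l, m ≠ 0)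
    (hl' : ∀ m ∈ l', m ≠ 0) (y1 y2 : Y) (k : ℕ)
    (h : ∀ z ∈ Bl T (k + 1), C (T.emb l y1) (T.emb l' y2) z) (n : ℤ) :
    ∀ z ∈ Bl T k, C (T.emb (n :: l) y1) (T.emb (n :: l') y2) z := by
  induction n using Int.induction_on with
  | zero =>
    intro z hz
    rw [← hS, T.S_zero l hl, T.S_zero l' hl']
    exact h _ (S_mem T hz)
  | succ i ih =>
    intro z hz
    obtain ⟨z', hz', rfl⟩ := A_surj T hz
    rw [← T.A_cons _ l hl, ← T.A_cons _ l' hl', hA]
    exact ih z' hz'
  | pred i ih =>
    intro z hz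
    rw [← hA, T.A_cons _ l hl, T.A_cons _ l' hl', sub_add_cancel]
    exact ih _ (A_mem T hz)

end SIAux

open SIAux

theorem stmtSI (T : TreeSpace P X) : StmtSI T := by
  intro C hA hS hsep
  have main : ∀ N : ℕ, ∀ u v w : List ℤ, Red u → Red v → Red w →
      u.length + v.length + w.length ≤ N → ∀ y1 y2 y3 : Y,
      C (T.emb u y1) (T.emb v y2) (T.emb w y3) := by
    intro N
    induction N with
    | zero =>
      intro u v w hu hv hw hN y1 y2 y3
      have e1 : u = [] := List.eq_nil_of_length_eq_zero (by omega)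
      have e2 : v = [] := List.eq_nil_of_length_eq_zero (by omega)
      have e3 : w = [] := List.eq_nil_of_length_eq_zero (by omega)
      subst e1 e2 e3
      refine hsep [] [] [] hu hv hw ?_ ?_ ?_ y1 y2 y3 <;>
      · rintro ⟨n, l, l', h, -⟩
        exact absurd h (by simp)
    | succ N ih =>
      intro u v w hu hv hw hN y1 y2 y3
      by_cases h1 : Sep u v
      · by_cases h2 : Sep v w
        · by_cases h3 : Sep u w
          · exact hsep u v w hu hv hw h1 h2 h3 y1 y2 y3
          · simp only [Sep, not_not] at h3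
            obtain ⟨n, l, l', rfl, rfl⟩ := h3
            simp only [List.length_cons] at hN
            refine step T (fun a b c => C a c b) (fun x y z => hA x z y) (fun x y z => hS x z y)
              hu hw y1 y3 v.length ?_ n (T.emb v y2) ⟨v, hv, le_rfl, y2, rfl⟩
            rintro z ⟨w', hw', hk, y, rfl⟩
            exact ih l w' l' (red_of_cons hu) hw' (red_of_cons hw) (by omega) y1 y y3
        · simp only [Sep, not_not] at h2
          obtain ⟨n, l, l', rfl, rfl⟩ := h2
          simp only [List.length_cons] at hN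
          refine step T (fun a b c => C c a b) (fun x y z => hA z x y) (fun x y z => hS z x y)
            hv hw y2 y3 u.length ?_ n (T.emb u y1) ⟨u, hu, le_rfl, y1, rfl⟩
          rintro z ⟨w', hw', hk, y, rfl⟩
          exact ih w' l l' hw' (red_of_cons hv) (red_of_cons hw) (by omega) y y2 y3
      · simp only [Sep, not_not] at h1
        obtain ⟨n, l, l', rfl, rfl⟩ := h1
        simp only [List.length_cons] at hN
        refine step T C hA hS hu hv y1 y2 w.length ?_ n (T.emb w y3) ⟨w, hw, le_rfl, y3, rfl⟩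
        rintro z ⟨w', hw', hk, y, rfl⟩
        exact ih l l' w' (red_of_cons hu) (red_of_cons hv) hw' (by omega) y1 y2 y
  intro x y z
  obtain ⟨u, hu, y1, rfl⟩ := T.surj x
  obtain ⟨v, hv, y2, rfl⟩ := T.surj y
  obtain ⟨w, hw, y3, rfl⟩ := T.surj z
  exact main _ u v w hu hv hw le_rfl y1 y2 y3

end R785.LD
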