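import Pool.Agent.R785.LD.Defs

/-!
Project LD: the piece `W × ℝ` is a proper CAT(0) space with a cocompact screw motion.
-/

open Set Filter Topology
open scoped NNReal

namespace R785.LD

namespace YP

theorem stewart {E : Type*} [NormedAddCommGroup E] [InnerProductSpace ℝ E] (p q z : E) (t : ℝ) :
    ‖z - ((1 - t) • p + t • q)‖ ^ 2 =
      (1 - t) * ‖z - p‖ ^ 2 + t * ‖z - q‖ ^ 2 - t * (1 - t) * ‖p - q‖ ^ 2 := by
  have h1 : z - ((1 - t) • p + t • q) = (1 - t) • (z - p) + t • (z - q) := by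
    module
  have h2 : p - q = (z - q) - (z - p) := by abel
  rw [h1, h2]
  generalize z - p = a
  generalize z - q = b
  rw [norm_add_sq_real, norm_sub_sq_real, norm_smul, norm_smul, inner_smul_left,
    inner_smul_right, mul_pow, mul_pow, Real.norm_eq_abs, Real.norm_eq_abs, sq_abs, sq_abs,
    real_inner_comm a b]
  simp
  ring

section

variable {H : Type} [NormedAddCommGroup H] [InnerProductSpace ℝ H]

theorem convexC (D : HData H) : Convex ℝ {p : WithLp 2 (H × ℝ) | p.fst ∈ D.W} := by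
  intro p hp q hq a b ha hb hab
  exact D.convex hp hq ha hb hab

theorem compact_slab (D : HData H) (r s : ℝ) : IsCompact {p : D.Y | p.1.snd ∈ Icc r s} := by
  have h1 : IsCompact ((WithLp.toLp 2 : H × ℝ → WithLp 2 (H × ℝ)) '' (D.W ×ˢ Icc r s)) :=
    (D.compact.prod isCompact_Icc).image (WithLp.prod_continuous_toLp 2 H ℝ)
  have h2 : (Subtype.val : {p : WithLp 2 (H × ℝ) // p.fst ∈ D.W} → WithLp 2 (H × ℝ)) ''
      {p : {p : WithLp 2 (H × ℝ) // p.fst ∈ D.W} | p.1.snd ∈ Icc r s} =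
      ((WithLp.toLp 2 : H × ℝ → WithLp 2 (H × ℝ)) '' (D.W ×ˢ Icc r s)) := by
    ext p
    constructor
    · rintro ⟨⟨p, hp⟩, hp2, rfl⟩
      exact ⟨(p.fst, p.snd), ⟨hp, hp2⟩, rfl⟩
    · rintro ⟨⟨x, y⟩, ⟨hx, hy⟩, rfl⟩
      exact ⟨⟨WithLp.toLp 2 (x, y), hx⟩, hy, rfl⟩
  have h3 : IsCompact {p : {p : WithLp 2 (H × ℝ) // p.fst ∈ D.W} | p.1.snd ∈ Icc r s} := by
    rw [Subtype.isCompact_iff, h2]
    exact h1
  exact h3

/-- the segment -/
noncomputable def seg (D : HData H) (p q : D.Y) (t : ℝ) : D.Y :=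
  ⟨AffineMap.lineMap p.1 q.1 ((projIcc (0 : ℝ) 1 zero_le_one t : Icc (0 : ℝ) 1) : ℝ),
    (convexC D).lineMap_mem p.2 q.2 (projIcc (0 : ℝ) 1 zero_le_one t).2⟩

theorem seg_val (D : HData H) (p q : D.Y) {t : ℝ} (ht : t ∈ Icc (0 : ℝ) 1) :
    (seg D p q t).1 = AffineMap.lineMap p.1 q.1 t := by
  change AffineMap.lineMap p.1 q.1 ((projIcc (0 : ℝ) 1 zero_le_one t : Icc (0 : ℝ) 1) : ℝ) = _
  have h : ((projIcc (0 : ℝ) 1 zero_le_one t : Icc (0 : ℝ) 1) : ℝ) = t := by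
    rw [projIcc_of_mem zero_le_one ht]
  rw [h]

theorem snd_le (D : HData H) (p q : D.Y) : |p.1.snd - q.1.snd| ≤ dist p q := by
  have h : dist p q = dist p.1 q.1 := rfl
  rw [h, WithLp.prod_dist_eq_of_L2]
  apply Real.le_sqrt_of_sq_le
  rw [Real.dist_eq]
  nlinarith [sq_nonneg (dist p.1.fst q.1.fst)]

end

end YP

open YP

variable {H : Type} [NormedAddCommGroup H] [InnerProductSpace ℝ H]

theorem stmtY (D : HData H) : StmtY D := by
  classical
  refine ⟨?_, ?_, ?_, ?_⟩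
  · intro p q
    refine ⟨seg D p q, ?_, ?_, ?_⟩
    · apply Subtype.ext
      rw [seg_val D p q ⟨le_rfl, zero_le_one⟩, AffineMap.lineMap_apply_zero]
    · apply Subtype.ext
      rw [seg_val D p q ⟨zero_le_one, le_rfl⟩, AffineMap.lineMap_apply_one]
    · intro s hs t ht
      have e : ∀ x y : D.Y, dist x y = dist x.1 y.1 := fun x y => rfl
      rw [e, e, seg_val D p q hs, seg_val D p q ht, dist_lineMap_lineMap, Real.dist_eq]
  · intro p q z m t ht h1 h2
    have e : ∀ x y : D.Y, dist x y = ‖x.1 - y.1‖ := fun x y => dist_eq_norm x.1 y.1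
    rw [e, e] at h1 h2
    rw [e, e, e, e]
    have h3 := stewart p.1 q.1 m.1 t
    rw [norm_sub_rev m.1 p.1, h1, h2] at h3
    have h4 : ‖m.1 - ((1 - t) • p.1 + t • q.1)‖ ^ 2 = 0 := by rw [h3]; ring
    have h5 : m.1 = (1 - t) • p.1 + t • q.1 := by
      rw [sq_eq_zero_iff, norm_eq_zero, sub_eq_zero] at h4
      exact h4
    rw [h5, stewart]
  · refine ⟨fun x r => ?_⟩
    refine (compact_slab D (x.1.snd - r) (x.1.snd + r)).of_isClosed_subset
      Metric.isClosed_closedBall fun y hy => ?_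
    rw [Metric.mem_closedBall] at hy
    have h1 := abs_le.1 ((snd_le D y x).trans hy)
    exact ⟨by linarith [h1.1], by linarith [h1.2]⟩
  · refine ⟨{p : D.Y | p.1.snd ∈ Icc 0 1}, compact_slab D 0 1, fun y => ⟨-⌊y.1.snd⌋, ?_⟩⟩
    change ((D.a ^ (-⌊y.1.snd⌋)) y).1.snd ∈ Icc (0 : ℝ) 1
    rw [D.a_zpow_snd]
    push_cast
    have h1 := Int.floor_le y.1.snd
    have h2 := Int.lt_floor_add_one y.1.snd
    exact ⟨by linarith, by linarith⟩

end R785.LD
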