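import Pool.Agent.R785.LD.Assemble
import Pool.Agent.R785.LD.CN
import Pool.Agent.R785.LD.CO
import Pool.Agent.R785.LD.GE
import Pool.Agent.R785.LD.GM
import Pool.Agent.R785.LD.H1
import Pool.Agent.R785.LD.H2b
import Pool.Agent.R785.LD.H3
import Pool.Agent.R785.LD.LI
import Pool.Agent.R785.LD.PR
import Pool.Agent.R785.LD.R1
import Pool.Agent.R785.LD.R2
import Pool.Agent.R785.LD.R3
import Pool.Agent.R785.LD.RayMetric
import Pool.Agent.R785.LD.SI
import Pool.Agent.R785.LD.TX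
import Pool.Agent.R785.LD.Y

/-!
Project LD: the final theorem.
-/

open Set Filter Topology
open scoped NNReal

namespace R785.LD

theorem finalOf (h2 : StmtH2) :
    ∃ (X : Type) (_ : MetricSpace X) (G : Type) (_ : Group G) (_ : MulAction G X),
      ProperSpace X ∧ IsCAT0 X ∧ IsGeometric G X ∧
        ∃ x0 : X, ∀ n : ℕ, ¬ LDimLE (Ray x0) n := by
  obtain ⟨H, i1, i2, ⟨D⟩⟩ := assembleH stmtH1 h2 stmtH3
  obtain ⟨X, i3, ⟨T⟩⟩ := stmtX D.piece
  obtain ⟨y1, y2, y3, y4⟩ := stmtY D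
  refine ⟨X, i3, T.Gp, inferInstance, inferInstance, stmtPR T y3,
    isCAT0_of (stmtGE T (stmtSI T) y1) (stmtCN T (stmtSI T) y2), stmtGM T y4,
    T.emb [] D.c, ?_⟩
  obtain ⟨α, hα⟩ := assembleR D T (stmtR1 D T) (stmtR2 D) stmtR3r
  refine stmtLI stmtCO (Ray (T.emb [] D.c)) ?_
  intro M P ε hε
  exact assembleC D (Ray (T.emb [] D.c)) α hα M P ε hε

theorem final :
    ∃ (X : Type) (_ : MetricSpace X) (G : Type) (_ : Group G) (_ : MulAction G X),
      ProperSpace X ∧ IsCAT0 X ∧ IsGeometric G X ∧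
        ∃ x0 : X, ∀ n : ℕ, ¬ LDimLE (Ray x0) n :=
  finalOf H2b.stmtH2b

end R785.LD
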