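import Pool.Agent.R785.LD.Defs

/-!
Project LD (MP_a015bb_gt), piece H2 (helper468): the compact convex set.
-/

set_option autoImplicit false

open Set Filter Topology

namespace R785.LD

namespace H2

lemma rad_summable : Summable (fun k : ℕ => 2 * rad k ^ 2) := by
  have h1 : Summable (fun n : ℕ => 1 / (n : ℝ) ^ 2) := Real.summable_one_div_nat_pow.2 one_lt_two
  have h2 := (summable_nat_add_iff 1).2 h1
  refine (h2.mul_left 2).congr fun k => ?_
  unfold rad
  push_cast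
  rw [div_pow, one_pow]

lemma term_nonneg (n m : ℤ) (k : ℕ) :
    0 ≤ (if ((pr k : ℕ) : ℤ) ∣ n - m then (0 : ℝ) else 2 * rad k ^ 2) := by
  split_ifs
  · exact le_rfl
  · positivity

lemma term_le (n m : ℤ) (k : ℕ) :
    (if ((pr k : ℕ) : ℤ) ∣ n - m then (0 : ℝ) else 2 * rad k ^ 2) ≤ 2 * rad k ^ 2 := by
  split_ifs
  · positivity
  · exact le_rfl

lemma odist_le (K : ℕ) (n m : ℤ) (h : ∀ k < K, ((pr k : ℕ) : ℤ) ∣ n - m) :
    odist n m ≤ ∑' k : ℕ, 2 * rad (k + K) ^ 2 := by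
  have hs : Summable (fun k : ℕ => if ((pr k : ℕ) : ℤ) ∣ n - m then (0 : ℝ) else 2 * rad k ^ 2) :=
    Summable.of_nonneg_of_le (term_nonneg n m) (term_le n m) rad_summable
  unfold odist
  rw [← hs.sum_add_tsum_nat_add K]
  have h0 : ∑ k ∈ Finset.range K, (if ((pr k : ℕ) : ℤ) ∣ n - m then (0 : ℝ) else 2 * rad k ^ 2) = 0 :=
    Finset.sum_eq_zero fun k hk => if_pos (h k (Finset.mem_range.1 hk))
  rw [h0, zero_add]
  exact Summable.tsum_le_tsum (fun k => term_le n m (k + K)) ((summable_nat_add_iff K).2 hs)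
    ((summable_nat_add_iff K).2 rad_summable)

lemma pr_pos (k : ℕ) : 0 < pr k := (Nat.prime_nth_prime k).pos

lemma totb {H : Type} [NormedAddCommGroup H] [InnerProductSpace ℝ H]
    (θ : H ≃ₗᵢ[ℝ] H) (w : H) (hw : ∀ n m : ℤ, ‖(θ ^ n) w - (θ ^ m) w‖ ^ 2 = odist n m) :
    TotallyBounded (range fun n : ℤ => (θ ^ n) w) := by
  rw [Metric.totallyBounded_iff]
  intro ε hε
  have ht := tendsto_sum_nat_add (fun k : ℕ => 2 * rad k ^ 2)
  have hε2 : 0 < ε ^ 2 := by positivity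
  obtain ⟨K, hK⟩ := ((ht.eventually (gt_mem_nhds hε2))).exists
  set Q : ℕ := ∏ k ∈ Finset.range K, pr k with hQ
  have hQ0 : 0 < Q := Finset.prod_pos fun k _ => pr_pos k
  refine ⟨(fun m : ℤ => (θ ^ m) w) '' Ico (0 : ℤ) Q, (Set.finite_Ico _ _).image _, ?_⟩
  rintro _ ⟨n, rfl⟩
  have hQz : (0 : ℤ) < (Q : ℤ) := by exact_mod_cast hQ0
  have hm1 : 0 ≤ n % (Q : ℤ) := Int.emod_nonneg _ hQz.ne'
  have hm2 : n % (Q : ℤ) < Q := Int.emod_lt_of_pos _ hQz
  refine mem_iUnion₂.2 ⟨(θ ^ (n % (Q : ℤ))) w, ⟨n % (Q : ℤ), ⟨hm1, hm2⟩, rfl⟩, ?_⟩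
  rw [Metric.mem_ball, dist_eq_norm]
  have hd : ∀ k < K, ((pr k : ℕ) : ℤ) ∣ n - n % (Q : ℤ) := by
    intro k hk
    have h1 : (Q : ℤ) ∣ n - n % (Q : ℤ) := Int.dvd_self_sub_emod
    have h2 : ((pr k : ℕ) : ℤ) ∣ (Q : ℤ) := by
      exact_mod_cast Finset.dvd_prod_of_mem pr (Finset.mem_range.2 hk)
    exact h2.trans h1
  have h3 : ‖(θ ^ n) w - (θ ^ (n % (Q : ℤ))) w‖ ^ 2 < ε ^ 2 := by
    rw [hw]
    exact lt_of_le_of_lt (odist_le K n _ hd) hK
  exact lt_of_pow_lt_pow_left₀ 2 hε.le h3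

lemma step {H : Type} [NormedAddCommGroup H] [InnerProductSpace ℝ H]
    (θ : H ≃ₗᵢ[ℝ] H) (w : H) (n : ℤ) : θ ((θ ^ n) w) = (θ ^ (1 + n)) w := by
  rw [zpow_one_add]
  rfl

end H2

open H2 in
theorem stmtH2 : StmtH2 := by
  intro H _ _ _ θ w hw
  set O : Set H := range fun n : ℤ => (θ ^ n) w with hO
  set S : Set H := insert 0 O with hS
  have hSt : TotallyBounded S := by
    have h1 := totb θ w hw
    have h2 : TotallyBounded ({0} : Set H) := (Set.finite_singleton (0 : H)).isCompact.totallyBounded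
    have h3 := h2.union h1
    rwa [Set.singleton_union] at h3
  have hθS : θ '' S = S := by
    rw [hS, image_insert_eq, map_zero]
    congr 1
    rw [hO]
    ext x
    constructor
    · rintro ⟨_, ⟨n, rfl⟩, rfl⟩
      exact ⟨1 + n, (step θ w n).symm⟩
    · rintro ⟨n, rfl⟩
      refine ⟨_, ⟨n - 1, rfl⟩, ?_⟩
      simp only
      rw [step]
      congr 2
      ring
  have hθC : θ '' (convexHull ℝ S) = convexHull ℝ S := by
    have h1 := LinearMap.image_convexHull (θ.toLinearEquiv : H →ₗ[ℝ] H) S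
    have e : ((θ.toLinearEquiv : H →ₗ[ℝ] H) : H → H) = θ := rfl
    rw [e, hθS] at h1
    exact h1
  refine ⟨closure (convexHull ℝ S), ?_, (convex_convexHull ℝ S).closure, ?_, ?_, ?_⟩
  · exact hSt.convexHull.closure.isCompact_of_isClosed isClosed_closure
  · exact subset_closure (subset_convexHull ℝ S (mem_insert _ _))
  · refine subset_closure (subset_convexHull ℝ S (mem_insert_of_mem _ ⟨0, ?_⟩))
    simp
  · have hcl : θ '' closure (convexHull ℝ S) = closure (convexHull ℝ S) := by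
      have h1 := θ.toHomeomorph.image_closure (convexHull ℝ S)
      have e : (θ.toHomeomorph : H → H) = θ := rfl
      rw [e, hθC] at h1
      exact h1
    intro x
    constructor
    · intro hx
      rw [← hcl] at hx
      exact (θ.injective.mem_set_image).1 hx
    · intro hx
      rw [← hcl]
      exact mem_image_of_mem _ hx

end R785.LD
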