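import Pool.Agent.R785.LD.Defs

/-! # Project LD, piece X: construction of the tree of spaces -/

set_option autoImplicit false

open Set Filter Topology

namespace R785.LD

namespace TX

variable {Y : Type} [MetricSpace Y]

/-- the distance on the codes -/
noncomputable def D (P : Piece Y) : List ℤ → Y → List ℤ → Y → ℝ
  | [], y, [], z => dist y z
  | [], y, n :: v, z => dist y (P.gate n) + D P [] P.o v z
  | m :: u, y, [], z => D P u y [] P.o + dist (P.gate m) z
  | m :: u, y, n :: v, z => if m = n then D P u y v z else
      D P u y [] P.o + dist (P.gate m) (P.gate n) + D P [] P.o v z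
  termination_by u _ v _ => u.length + v.length

variable (P : Piece Y)

lemma D_nn (y z : Y) : D P [] y [] z = dist y z := by rw [D]

lemma D_nc (y z : Y) (n : ℤ) (v : List ℤ) :
    D P [] y (n :: v) z = dist y (P.gate n) + D P [] P.o v z := by rw [D]

lemma D_cn (y z : Y) (m : ℤ) (u : List ℤ) :
    D P (m :: u) y [] z = D P u y [] P.o + dist (P.gate m) z := by rw [D]

lemma D_cc (y z : Y) (m n : ℤ) (u v : List ℤ) :
    D P (m :: u) y (n :: v) z = if m = n then D P u y v z else
      D P u y [] P.o + dist (P.gate m) (P.gate n) + D P [] P.o v z := by rw [D]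

lemma D_nonneg : ∀ (n : ℕ) (u v : List ℤ) (y z : Y), u.length + v.length < n →
    0 ≤ D P u y v z := by
  intro n
  induction n with
  | zero => intro u v y z h; omega
  | succ n ih =>
    intro u v y z h
    rcases u with _ | ⟨m, u⟩ <;> rcases v with _ | ⟨k, v⟩
    · rw [D_nn]; exact dist_nonneg
    · rw [D_nc]
      simp only [List.length_cons, List.length_nil] at h
      exact add_nonneg dist_nonneg (ih [] v P.o z (by simp only [List.length_nil]; omega))
    · rw [D_cn]
      simp only [List.length_cons, List.length_nil] at h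
      exact add_nonneg (ih u [] y P.o (by simp only [List.length_nil]; omega)) dist_nonneg
    · rw [D_cc]
      simp only [List.length_cons] at h
      split_ifs
      · exact ih u v y z (by omega)
      · exact add_nonneg (add_nonneg (ih u [] y P.o (by simp only [List.length_nil]; omega))
          dist_nonneg) (ih [] v P.o z (by simp only [List.length_nil]; omega))

lemma nn (u v : List ℤ) (y z : Y) : 0 ≤ D P u y v z :=
  D_nonneg P _ u v y z (Nat.lt_succ_self _)

lemma D_comm' : ∀ (n : ℕ) (u v : List ℤ) (y z : Y), u.length + v.length < n →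
    D P u y v z = D P v z u y := by
  intro n
  induction n with
  | zero => intro u v y z h; omega
  | succ n ih =>
    intro u v y z h
    rcases u with _ | ⟨m, u⟩ <;> rcases v with _ | ⟨k, v⟩
    · rw [D_nn, D_nn, dist_comm]
    · simp only [List.length_cons, List.length_nil] at h
      rw [D_nc, D_cn, ih [] v P.o z (by simp only [List.length_nil]; omega), dist_comm, add_comm]
    · simp only [List.length_cons, List.length_nil] at h
      rw [D_nc, D_cn, ih u [] y P.o (by simp only [List.length_nil]; omega), dist_comm, add_comm]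
    · simp only [List.length_cons] at h
      rw [D_cc, D_cc]
      by_cases hmk : m = k
      · rw [if_pos hmk, if_pos hmk.symm]
        exact ih u v y z (by omega)
      · rw [if_neg hmk, if_neg (Ne.symm hmk), ih u [] y P.o (by simp only [List.length_nil]; omega),
          ih [] v P.o z (by simp only [List.length_nil]; omega), dist_comm]
        ring

lemma D_comm (u v : List ℤ) (y z : Y) : D P u y v z = D P v z u y :=
  D_comm' P _ u v y z (Nat.lt_succ_self _)

lemma D_same (u : List ℤ) (y z : Y) : D P u y u z = dist y z := by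
  induction u with
  | nil => rw [D_nn]
  | cons m u ih => rw [D_cc, if_pos rfl, ih]

lemma D_tri' : ∀ (n : ℕ) (u v w : List ℤ) (a b c : Y), u.length + v.length + w.length < n →
    D P u a w c ≤ D P u a v b + D P v b w c := by
  intro n
  induction n with
  | zero => intro u v w a b c h; omega
  | succ n ih =>
    intro u v w a b c h
    rcases u with _ | ⟨m, u⟩ <;> rcases v with _ | ⟨k, v⟩ <;> rcases w with _ | ⟨l, w⟩ <;>
      simp only [List.length_cons, List.length_nil] at h
    · rw [D_nn, D_nn, D_nn]
      exact dist_triangle _ _ _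
    · rw [D_nc, D_nn, D_nc]
      have := dist_triangle a b (P.gate l)
      linarith
    · rw [D_nn, D_nc, D_cn]
      have h1 := dist_triangle a (P.gate k) c
      have h2 := nn P [] v P.o b
      have h3 := nn P v [] b P.o
      linarith
    · rw [D_nc, D_nc, D_cc]
      split_ifs with hkl
      · subst hkl
        have h1 := ih [] v w P.o b c (by simp only [List.length_nil]; omega)
        linarith
      · have h1 := dist_triangle a (P.gate k) (P.gate l)
        have h2 := nn P [] v P.o b
        have h3 := nn P v [] b P.o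
        linarith
    · rw [D_cn, D_cn, D_nn]
      have := dist_triangle (P.gate m) b c
      linarith
    · rw [D_cc, D_cn, D_nc]
      split_ifs with hml
      · subst hml
        have h1 := ih u [] w a P.o c (by simp only [List.length_nil]; omega)
        have h2 : 0 ≤ dist (P.gate m) b := dist_nonneg
        have h3 : 0 ≤ dist b (P.gate m) := dist_nonneg
        linarith
      · have h1 := dist_triangle (P.gate m) b (P.gate l)
        linarith
    · rw [D_cn, D_cc, D_cn]
      split_ifs with hmk
      · subst hmk
        have h1 := ih u v [] a b P.o (by simp only [List.length_nil]; omega)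
        linarith
      · have h1 := dist_triangle (P.gate m) (P.gate k) c
        have h2 := nn P [] v P.o b
        have h3 := nn P v [] b P.o
        linarith
    · rw [D_cc, D_cc, D_cc]
      have i1 := ih u v w a b c (by omega)
      have i2 := ih u [] w a P.o c (by simp only [List.length_nil]; omega)
      have i3 := ih u v [] a b P.o (by simp only [List.length_nil]; omega)
      have i4 := ih [] v w P.o b c (by simp only [List.length_nil]; omega)
      have n1 := nn P u [] a P.o
      have n2 := nn P [] v P.o b
      have n3 := nn P v [] b P.o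
      have n4 := nn P [] w P.o c
      have t1 := dist_triangle (P.gate m) (P.gate k) (P.gate l)
      have t2 : 0 ≤ dist (P.gate m) (P.gate k) := dist_nonneg
      have t3 : 0 ≤ dist (P.gate k) (P.gate l) := dist_nonneg
      by_cases h1 : m = k
      · by_cases h2 : k = l
        · subst h1; subst h2
          simp only [if_true]
          exact i1
        · subst h1
          rw [if_neg h2, if_pos rfl, if_neg h2]
          linarith
      · by_cases h2 : k = l
        · subst h2
          rw [if_neg h1, if_neg h1, if_pos rfl]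
          linarith
        · by_cases h3 : m = l
          · subst h3
            rw [if_pos rfl, if_neg h1, if_neg h2]
            linarith
          · rw [if_neg h3, if_neg h1, if_neg h2]
            linarith

lemma D_tri (u v w : List ℤ) (a b c : Y) : D P u a w c ≤ D P u a v b + D P v b w c :=
  D_tri' P _ u v w a b c (Nat.lt_succ_self _)

lemma gate_zero : P.gate 0 = P.o := by
  unfold Piece.gate
  rw [zpow_zero]
  rfl

lemma a_gate (n : ℤ) : P.a (P.gate n) = P.gate (n + 1) := by
  unfold Piece.gate
  rw [add_comm n 1, zpow_add, zpow_one]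
  rfl

lemma dist_a (y z : Y) : dist (P.a y) (P.a z) = dist y z := P.a.dist_eq y z

lemma dist_a_gate (y : Y) (n : ℤ) : dist (P.a y) (P.gate (n + 1)) = dist y (P.gate n) := by
  rw [← a_gate, dist_a]

lemma dist_gate_a (y : Y) (n : ℤ) : dist (P.gate (n + 1)) (P.a y) = dist (P.gate n) y := by
  rw [← a_gate, dist_a]

/-! ### The maps on the codes -/

/-- the map `A` on pairs -/
noncomputable def aP : List ℤ × Y → List ℤ × Y
  | ([], y) => ([], P.a y)
  | (n :: l, y) => ((n + 1) :: l, y)

/-- the inverse of the map `A` on pairs -/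
noncomputable def aQ : List ℤ × Y → List ℤ × Y
  | ([], y) => ([], P.a.symm y)
  | (n :: l, y) => ((n - 1) :: l, y)

/-- the map `S` on addresses -/
def sL : List ℤ → List ℤ
  | [] => [0]
  | n :: l => if n = 0 then l else 0 :: n :: l

lemma red_nil : Red [] := fun n hn => by simp at hn

lemma red_cons {n : ℤ} {l : List ℤ} : Red (n :: l) ↔ ∀ k ∈ l, k ≠ 0 := Iff.rfl

lemma red_tail {n : ℤ} {l : List ℤ} (h : Red (n :: l)) : Red l :=
  fun k hk => h k (List.mem_of_mem_tail hk)

lemma red_aP {c : List ℤ × Y} (h : Red c.1) : Red (aP P c).1 := by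
  obtain ⟨u, y⟩ := c
  rcases u with _ | ⟨n, l⟩
  · exact red_nil
  · exact h

lemma red_aQ {c : List ℤ × Y} (h : Red c.1) : Red (aQ P c).1 := by
  obtain ⟨u, y⟩ := c
  rcases u with _ | ⟨n, l⟩
  · exact red_nil
  · exact h

lemma aQ_aP (c : List ℤ × Y) : aQ P (aP P c) = c := by
  obtain ⟨u, y⟩ := c
  rcases u with _ | ⟨n, l⟩
  · simp [aP, aQ]
  · simp [aP, aQ]

lemma aP_aQ (c : List ℤ × Y) : aP P (aQ P c) = c := by
  obtain ⟨u, y⟩ := c
  rcases u with _ | ⟨n, l⟩
  · simp [aP, aQ]
  · simp [aP, aQ]

lemma D_aP (c d : List ℤ × Y) : D P (aP P c).1 (aP P c).2 (aP P d).1 (aP P d).2 =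
    D P c.1 c.2 d.1 d.2 := by
  obtain ⟨u, y⟩ := c
  obtain ⟨v, z⟩ := d
  rcases u with _ | ⟨m, u⟩ <;> rcases v with _ | ⟨n, v⟩
  · show D P [] (P.a y) [] (P.a z) = D P [] y [] z
    rw [D_nn, D_nn, dist_a]
  · show D P [] (P.a y) ((n + 1) :: v) z = D P [] y (n :: v) z
    rw [D_nc, D_nc, dist_a_gate]
  · show D P ((m + 1) :: u) y [] (P.a z) = D P (m :: u) y [] z
    rw [D_cn, D_cn, dist_gate_a]
  · show D P ((m + 1) :: u) y ((n + 1) :: v) z = D P (m :: u) y (n :: v) z
    rw [D_cc, D_cc]
    by_cases h : m = n
    · rw [if_pos h, if_pos (by rw [h])]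
    · rw [if_neg h, if_neg (fun h' => h (add_right_cancel h')), ← a_gate P m, dist_a_gate]

lemma red_sL {u : List ℤ} (h : Red u) : Red (sL u) := by
  rcases u with _ | ⟨n, l⟩
  · show Red [0]
    intro k hk
    simp at hk
  · by_cases h0 : n = 0
    · have e : sL (n :: l) = l := by simp [sL, h0]
      rw [e]
      exact red_tail h
    · have e : sL (n :: l) = 0 :: n :: l := by simp [sL, h0]
      rw [e]
      intro k hk
      have hk' : k = n ∨ k ∈ l := by simpa using hk
      rcases hk' with rfl | hk'
      · exact h0
      · exact h k hk'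

lemma sL_sL {u : List ℤ} (h : Red u) : sL (sL u) = u := by
  rcases u with _ | ⟨n, l⟩
  · simp [sL]
  · by_cases h0 : n = 0
    · subst h0
      rcases l with _ | ⟨k, l⟩
      · simp [sL]
      · have hk : k ≠ 0 := h k (by simp)
        simp [sL, hk]
    · simp [sL, h0]

/-- the address does not start with zero -/
lemma sL_cases {u : List ℤ} (h : Red u) :
    (sL u = 0 :: u ∧ (∀ l, u ≠ 0 :: l)) ∨ (∃ l, u = 0 :: l ∧ sL u = l ∧ ∀ l', l ≠ 0 :: l') := by
  rcases u with _ | ⟨n, l⟩
  · left
    exact ⟨rfl, fun l hl => by simp at hl⟩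
  · by_cases h0 : n = 0
    · right
      refine ⟨l, by rw [h0], by simp [sL, h0], ?_⟩
      rintro l' rfl
      exact h 0 (by simp) rfl
    · left
      refine ⟨by simp [sL, h0], fun l' hl => ?_⟩
      rw [List.cons.injEq] at hl
      exact h0 hl.1

/-- distance through a gate -/
lemma D_through (m : ℤ) (u v : List ℤ) (hv : ∀ l, v ≠ m :: l) (y z : Y) :
    D P (m :: u) y v z = D P u y [] P.o + D P [] (P.gate m) v z := by
  rcases v with _ | ⟨n, v⟩
  · rw [D_cn, D_nn]
  · have hmn : m ≠ n := fun h => hv v (by rw [h])
    rw [D_cc, if_neg hmn, D_nc]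
    ring

lemma D_sL {u v : List ℤ} (hu : Red u) (hv : Red v) (y z : Y) :
    D P (sL u) y (sL v) z = D P u y v z := by
  rcases sL_cases hu with ⟨h1, h1'⟩ | ⟨l, rfl, h1, h1'⟩ <;>
    rcases sL_cases hv with ⟨h2, h2'⟩ | ⟨k, rfl, h2, h2'⟩
  · rw [h1, h2, D_cc, if_pos rfl]
  · rw [h1, h2, D_through P 0 u k h2', gate_zero, D_comm P u (0 :: k), D_through P 0 k u h1',
      gate_zero, D_comm P u [], D_comm P k []]
    ring
  · rw [h1, h2, D_through P 0 l v h2', gate_zero, D_comm P l (0 :: v), D_through P 0 v l h1',
      gate_zero, D_comm P v [], D_comm P l []]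
    ring
  · rw [h1, h2, D_cc, if_pos rfl]

/-! ### The space -/

/-- the codes of the points -/
def Code (_P : Piece Y) : Type := {c : List ℤ × Y // Red c.1}

noncomputable instance : PseudoMetricSpace (Code P) where
  dist c d := D P c.1.1 c.1.2 d.1.1 d.1.2
  dist_self c := by
    show D P c.1.1 c.1.2 c.1.1 c.1.2 = 0
    rw [D_same, dist_self]
  dist_comm c d := D_comm P _ _ _ _
  dist_triangle c d e := D_tri P _ _ _ _ _ _

lemma dist_code (c d : Code P) : dist c d = D P c.1.1 c.1.2 d.1.1 d.1.2 := rfl

/-- the tree of spaces -/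
abbrev Sp : Type := SeparationQuotient (Code P)

/-- an isometry of the codes acts on the space -/
noncomputable def lft (e : Code P ≃ Code P) (he : ∀ c d, dist (e c) (e d) = dist c d) :
    Sp P ≃ᵢ Sp P where
  toFun := SeparationQuotient.lift (fun c => SeparationQuotient.mk (e c)) (fun c d h => by
    rw [Metric.inseparable_iff] at h
    rw [SeparationQuotient.mk_eq_mk, Metric.inseparable_iff, he, h])
  invFun := SeparationQuotient.lift (fun c => SeparationQuotient.mk (e.symm c)) (fun c d h => by
    rw [Metric.inseparable_iff] at h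
    rw [SeparationQuotient.mk_eq_mk, Metric.inseparable_iff, ← he, e.apply_symm_apply,
      e.apply_symm_apply, h])
  left_inv x := by
    obtain ⟨c, rfl⟩ := SeparationQuotient.surjective_mk x
    rw [SeparationQuotient.lift_mk, SeparationQuotient.lift_mk, e.symm_apply_apply]
  right_inv x := by
    obtain ⟨c, rfl⟩ := SeparationQuotient.surjective_mk x
    rw [SeparationQuotient.lift_mk, SeparationQuotient.lift_mk, e.apply_symm_apply]
  isometry_toFun := Isometry.of_dist_eq fun x x' => by
    obtain ⟨c, rfl⟩ := SeparationQuotient.surjective_mk x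
    obtain ⟨d, rfl⟩ := SeparationQuotient.surjective_mk x'
    show dist (SeparationQuotient.mk (e c)) (SeparationQuotient.mk (e d)) = _
    rw [SeparationQuotient.dist_mk, SeparationQuotient.dist_mk, he]

lemma lft_mk (e : Code P ≃ Code P) (he : ∀ c d, dist (e c) (e d) = dist c d) (c : Code P) :
    lft P e he (SeparationQuotient.mk c) = SeparationQuotient.mk (e c) := rfl

/-- a code -/
def cd (u : List ℤ) (h : Red u) (y : Y) : Code P := ⟨(u, y), h⟩

open scoped Classical in
/-- the embedding of the copies -/
noncomputable def em (u : List ℤ) (y : Y) : Sp P :=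
  if h : Red u then SeparationQuotient.mk (cd P u h y) else
    SeparationQuotient.mk (cd P [] red_nil y)

lemma em_eq {u : List ℤ} (h : Red u) (y : Y) :
    em P u y = SeparationQuotient.mk (cd P u h y) := by
  unfold em
  rw [dif_pos h]

lemma dist_em {u v : List ℤ} (hu : Red u) (hv : Red v) (y z : Y) :
    dist (em P u y) (em P v z) = D P u y v z := by
  rw [em_eq P hu, em_eq P hv, SeparationQuotient.dist_mk]
  rfl

/-- the map `A` on the codes -/
noncomputable def eA : Code P ≃ Code P where
  toFun c := ⟨aP P c.1, red_aP P c.2⟩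
  invFun c := ⟨aQ P c.1, red_aQ P c.2⟩
  left_inv c := Subtype.ext (aQ_aP P c.1)
  right_inv c := Subtype.ext (aP_aQ P c.1)

/-- the map `S` on the codes -/
noncomputable def eS : Code P ≃ Code P where
  toFun c := ⟨(sL c.1.1, c.1.2), red_sL c.2⟩
  invFun c := ⟨(sL c.1.1, c.1.2), red_sL c.2⟩
  left_inv c := Subtype.ext (Prod.ext (sL_sL c.2) rfl)
  right_inv c := Subtype.ext (Prod.ext (sL_sL c.2) rfl)

/-- the tree of spaces with its structure -/
noncomputable def tree : TreeSpace P (Sp P) where
  emb := em P
  surj x := by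
    obtain ⟨c, rfl⟩ := SeparationQuotient.surjective_mk x
    refine ⟨c.1.1, c.2, c.1.2, ?_⟩
    rw [em_eq P c.2]
    rfl
  isom u hu := Isometry.of_dist_eq fun y z => by rw [dist_em P hu hu, D_same]
  sep u v hu hv hs y z := by
    rw [dist_em P hu hv, dist_em P hu red_nil, dist_em P red_nil hv]
    rcases u with _ | ⟨m, u⟩
    · rcases v with _ | ⟨n, v⟩
      · show D P [] y [] z = D P [] y [] y + dist y z + D P [] z [] z
        rw [D_nn, D_nn, D_nn, dist_self, dist_self]
        ring
      · show D P [] y (n :: v) z = D P [] y [] y + dist y (P.gate n) +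
          D P [] (P.gate n) (n :: v) z
        rw [D_nn, D_nc, D_nc, dist_self, dist_self]
        ring
    · rcases v with _ | ⟨n, v⟩
      · show D P (m :: u) y [] z = D P (m :: u) y [] (P.gate m) + dist (P.gate m) z +
          D P [] z [] z
        rw [D_nn, D_cn, D_cn, dist_self, dist_self]
        ring
      · have hmn : m ≠ n := fun h => hs ⟨m, u, v, rfl, by rw [h]⟩
        show D P (m :: u) y (n :: v) z = D P (m :: u) y [] (P.gate m) +
          dist (P.gate m) (P.gate n) + D P [] (P.gate n) (n :: v) z
        rw [D_cc, if_neg hmn, D_cn, D_nc, dist_self, dist_self]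
        ring
  glue := by
    have h0 : Red [0] := red_sL red_nil
    have h : dist (em P [0] P.o) (em P [] P.o) = 0 := by
      rw [dist_em P h0 red_nil, D_cn, D_nn, dist_self, gate_zero, dist_self, add_zero]
    exact dist_eq_zero.1 h
  A := lft P (eA P) (fun c d => D_aP P c.1 d.1)
  A_root y := by
    rw [em_eq P red_nil, lft_mk, em_eq P red_nil]
    rfl
  A_cons n l h y := by
    rw [em_eq P h, lft_mk, em_eq P (show Red ((n + 1) :: l) from h)]
    rfl
  S := lft P (eS P) (fun c d => D_sL P c.2 d.2 _ _)
  S_root y := by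
    rw [em_eq P red_nil, lft_mk, em_eq P (show Red [0] from red_sL red_nil)]
    rfl
  S_zero l h y := by
    rw [em_eq P h, lft_mk, em_eq P (red_tail h)]
    congr 1
  S_ne n l h hn y := by
    have h' : sL (n :: l) = 0 :: n :: l := by simp [sL, hn]
    have hr : Red (0 :: n :: l) := h' ▸ red_sL h
    rw [em_eq P h, lft_mk, em_eq P hr]
    congr 1
    exact Subtype.ext (Prod.ext h' rfl)

end TX

theorem stmtX {Y : Type} [MetricSpace Y] (P : Piece Y) : StmtX P :=
  ⟨TX.Sp P, inferInstance, ⟨TX.tree P⟩⟩

end R785.LD
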